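import Pool.Agent.K7.H83.MA.Koop

/-! Convergence of bounded sequences of operators on closed subspaces; density of the bounded
functions. -/

set_option autoImplicit false
set_option linter.unusedSectionVars false

namespace Pool.Agent.K7.H83.MA

open Finset Filter Topology MeasureTheory
open scoped InnerProductSpace ENNReal

section hilbert
variable {H : Type*} [NormedAddCommGroup H] [InnerProductSpace ℂ H] [CompleteSpace H]

/-- a sequence which is close to convergent sequences converges -/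
theorem conv_of_approx {E : Type*} [NormedAddCommGroup E] [CompleteSpace E] (x : ℕ → E)
    (h : ∀ ε : ℝ, 0 < ε → ∃ y : ℕ → E, (∃ V, Tendsto y atTop (𝓝 V)) ∧
      ∀ᶠ N in atTop, ‖x N - y N‖ ≤ ε) : ∃ V, Tendsto x atTop (𝓝 V) := by
  refine cauchySeq_tendsto_of_complete ?_
  rw [Metric.cauchySeq_iff']
  intro ε hε
  obtain ⟨y, ⟨V, hV⟩, h2⟩ := h (ε / 8) (by positivity)
  have h3 := hV.eventually (Metric.ball_mem_nhds V (show (0 : ℝ) < ε / 8 by positivity))
  obtain ⟨N₀, hN₀⟩ := eventually_atTop.1 (h2.and h3)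
  have key : ∀ N, N₀ ≤ N → dist (x N) V ≤ ε / 4 := by
    intro N hN
    obtain ⟨h4, h5⟩ := hN₀ N hN
    have h6 := dist_triangle (x N) (y N) V
    have h7 : dist (y N) V < ε / 8 := h5
    have h8 : dist (x N) (y N) ≤ ε / 8 := by rw [dist_eq_norm]; exact h4
    linarith
  refine ⟨N₀, fun N hN => ?_⟩
  have h4 := key N hN
  have h5 := key N₀ le_rfl
  have := dist_triangle_right (x N) (x N₀) V
  linarith

/-- the vectors on which a sequence of operators converges -/
def ConvSub (S : ℕ → H →L[ℂ] H) : Submodule ℂ H where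
  carrier := {f | ∃ V, Tendsto (fun N => S N f) atTop (𝓝 V)}
  add_mem' := by
    rintro f g ⟨V, hV⟩ ⟨W, hW⟩
    exact ⟨V + W, (hV.add hW).congr fun N => by rw [map_add]⟩
  zero_mem' := ⟨0, by simp only [map_zero]; exact tendsto_const_nhds⟩
  smul_mem' := by
    rintro a f ⟨V, hV⟩
    exact ⟨a • V, (hV.const_smul a).congr fun N => by rw [map_smul]⟩

theorem mem_ConvSub {S : ℕ → H →L[ℂ] H} {f : H} :
    f ∈ ConvSub S ↔ ∃ V, Tendsto (fun N => S N f) atTop (𝓝 V) := Iff.rfl

theorem ConvSub_closed {S : ℕ → H →L[ℂ] H} {C : ℝ} (hC : ∀ N f, ‖S N f‖ ≤ C * ‖f‖) {f : H}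
    (hf : f ∈ closure (ConvSub S : Set H)) : f ∈ ConvSub S := by
  rw [mem_ConvSub]
  refine conv_of_approx _ fun ε hε => ?_
  obtain ⟨g, hg, hd⟩ := Metric.mem_closure_iff.1 hf (ε / (|C| + 1)) (by positivity)
  refine ⟨fun N => S N g, hg, Eventually.of_forall fun N => ?_⟩
  rw [← map_sub]
  refine (hC N _).trans ?_
  rw [← dist_eq_norm]
  calc C * dist f g ≤ (|C| + 1) * (ε / (|C| + 1)) := by
        refine mul_le_mul ?_ hd.le dist_nonneg (by positivity)
        have := le_abs_self C; linarith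
    _ = ε := by field_simp

/-- density argument -/
theorem ConvSub_top {S : ℕ → H →L[ℂ] H} {C : ℝ} (hC : ∀ N f, ‖S N f‖ ≤ C * ‖f‖) (P : Set H)
    (h1 : ∀ f ∈ P, f ∈ ConvSub S)
    (h2 : ∀ f : H, (∀ y ∈ P, ⟪y, f⟫_ℂ = 0) → f ∈ ConvSub S) (f : H) : f ∈ ConvSub S := by
  set K : Submodule ℂ H := (Submodule.span ℂ P).topologicalClosure with hK
  have : CompleteSpace K := (Submodule.isClosed_topologicalClosure _).completeSpace_coe
  have hsub : ∀ x ∈ K, x ∈ ConvSub S := by
    intro x hx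
    apply ConvSub_closed hC
    have h3 : Submodule.span ℂ P ≤ ConvSub S := Submodule.span_le.2 h1
    exact closure_mono h3 hx
  have h3 : f - K.starProjection f ∈ Kᗮ := K.sub_starProjection_mem_orthogonal f
  have h4 : f - K.starProjection f ∈ ConvSub S := by
    apply h2
    intro y hy
    refine (Submodule.mem_orthogonal _ _).1 h3 y ?_
    exact Submodule.le_topologicalClosure _ (Submodule.subset_span hy)
  have h5 := (ConvSub S).add_mem h4 (hsub _ (K.starProjection_apply_mem f))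
  rwa [sub_add_cancel] at h5

end hilbert

variable {X : Type*} [MeasurableSpace X] {μ : Measure X} [IsFiniteMeasure μ]

theorem bl_dense (f : Lp ℂ 2 μ) (ε : ℝ) (hε : 0 < ε) :
    ∃ g : X → ℂ, BM g ∧ ‖f - bl μ g‖ ≤ ε := by
  obtain ⟨g, hg, hgB⟩ := MemLp.induction_dense (μ := μ) (p := 2) (by norm_num)
    (P := fun g : X → ℂ => BM g) (fun c s hs _ {δ} _ => by
      refine ⟨s.indicator fun _ => c, by simp, measurable_const.indicator hs, ‖c‖, norm_nonneg _,
        fun x => ?_⟩
      by_cases hx : x ∈ s <;> simp [hx]) (fun f g hf hg => hf.add hg)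
    (fun f hf => hf.1.aestronglyMeasurable) (Lp.memLp f)
    (ε := ENNReal.ofReal ε) (by simpa using hε)
  refine ⟨g, hgB, ?_⟩
  rw [Lp.norm_def]
  have h1 : eLpNorm (⇑(f - bl μ g)) 2 μ = eLpNorm (⇑f - g) 2 μ := by
    refine eLpNorm_congr_ae ?_
    filter_upwards [Lp.coeFn_sub f (bl μ g), bl_coe hgB] with x h1 h2
    rw [h1, Pi.sub_apply, Pi.sub_apply, h2]
  rw [h1]
  exact ENNReal.toReal_le_of_le_ofReal hε.le hg

end Pool.Agent.K7.H83.MA
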