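import Pool.Agent.K7.H83.MA.Good
import Pool.Agent.Y868.VR.A4

/-! Labels: densities, invariance and exhaustion. -/

set_option autoImplicit false

namespace Pool.Agent.K7.H83.MA

open Finset Filter Topology

section

variable {r : ℕ} (c : ℕ → Fin r) (Q : ℕ)

open scoped Classical in
/-- the integers up to `N` with a given label -/
noncomputable def lab (N s₀ : ℕ) (g : GG r Q) : Finset ℕ :=
  (Ioc 0 N).filter (fun n => sp c Q n = s₀ ∧ gam c Q n = g)

theorem mem_lab {N s₀ : ℕ} {g : GG r Q} {n : ℕ} :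
    n ∈ lab c Q N s₀ g ↔ (0 < n ∧ n ≤ N) ∧ sp c Q n = s₀ ∧ gam c Q n = g := by
  unfold lab; rw [mem_filter, mem_Ioc]

theorem spa_Sp (hQ : 0 < Q) : Spa (Sp c Q) := by
  classical
  unfold Spa
  have h1 : Summable (fun p : Nat.Primes => ∑ i : Fin r,
      if ¬ Big c i ∧ c p = i then 1 / ((p : ℕ) : ℝ) else 0) := by
    refine summable_sum fun i _ => ?_
    by_cases hi : Big c i
    · refine summable_zero.congr fun p => ?_
      rw [if_neg (fun h => h.1 hi)]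
    · have h2 : Summable (fun p : Nat.Primes => if c p = i then 1 / ((p : ℕ) : ℝ) else 0) := by
        unfold Big at hi
        exact not_not.1 hi
      refine h2.congr fun p => ?_
      by_cases h3 : c p = i
      · rw [if_pos h3, if_pos ⟨hi, h3⟩]
      · rw [if_neg h3, if_neg (fun h => h3 h.2)]
  have h2 : Summable (fun p : Nat.Primes => if (p : ℕ) ∣ Q then 1 / ((p : ℕ) : ℝ) else 0) := by
    refine summable_of_hasFiniteSupport ?_
    refine Set.Finite.subset (s := (fun p : Nat.Primes => (p : ℕ)) ⁻¹' (Set.Iic Q))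
      (Set.Finite.preimage (fun x _ y _ h => Subtype.ext h) (Set.finite_Iic Q)) ?_
    intro p hp
    rw [Function.mem_support] at hp
    have h3 : (p : ℕ) ∣ Q := by
      by_contra h4; exact hp (if_neg h4)
    exact Nat.le_of_dvd hQ h3
  refine Summable.of_nonneg_of_le (fun p => by positivity) (fun p => ?_) (h1.add h2)
  have hp : (0 : ℝ) ≤ 1 / ((p : ℕ) : ℝ) := by positivity
  have hn1 : ∀ i ∈ (Finset.univ : Finset (Fin r)),
      (0 : ℝ) ≤ if ¬ Big c i ∧ c p = i then 1 / ((p : ℕ) : ℝ) else 0 := by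
    intro i _; positivity
  split_ifs with h3 h4
  · linarith [Finset.sum_nonneg hn1]
  · rcases h3 with h3 | h3
    · have h5 := Finset.single_le_sum hn1 (Finset.mem_univ (c p))
      rw [if_pos ⟨h3, rfl⟩] at h5
      linarith
    · exact absurd h3 h4
  · linarith [Finset.sum_nonneg hn1]
  · linarith [Finset.sum_nonneg hn1]

theorem lab_sum {M : Type*} [AddCommMonoid M] (F : ℕ → M) {s₀ : ℕ} (hs0 : 0 < s₀)
    (hs1 : sp c Q s₀ = s₀) (hs2 : gam c Q s₀ = 0) (N : ℕ) (g : GG r Q) :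
    ∑ n ∈ lab c Q N s₀ g, F n = ∑ n ∈ lab c Q (N / s₀) 1 g, F (s₀ * n) := by
  symm
  refine Finset.sum_nbij' (fun n => s₀ * n) (fun n => n / s₀) ?_ ?_ ?_ ?_ ?_
  · intro n hn
    rw [mem_lab] at hn ⊢
    refine ⟨⟨Nat.mul_pos hs0 hn.1.1, ?_⟩, ?_, ?_⟩
    · have := Nat.mul_le_mul_left s₀ hn.1.2
      exact this.trans (Nat.mul_div_le N s₀)
    · rw [sp_mul c Q hs0 hn.1.1, hs1, hn.2.1, mul_one]
    · rw [gam_mul c Q hs0 hn.1.1, hs2, hn.2.2, zero_add]
  · intro n hn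
    rw [mem_lab] at hn ⊢
    obtain ⟨⟨h1, h2⟩, h3, h4⟩ := hn
    have h5 : s₀ ∣ n := by rw [← h3]; exact sp_dvd c Q h1
    obtain ⟨m, rfl⟩ := h5
    have hm : 0 < m := Nat.pos_of_mul_pos_left h1
    rw [Nat.mul_div_cancel_left m hs0]
    rw [sp_mul c Q hs0 hm, hs1] at h3
    rw [gam_mul c Q hs0 hm, hs2, zero_add] at h4
    refine ⟨⟨hm, ?_⟩, ?_, h4⟩
    · rw [Nat.le_div_iff_mul_le hs0, mul_comm]; exact h2
    · exact Nat.eq_of_mul_eq_mul_left hs0 (by rw [h3, mul_one])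
  · intro n _
    exact Nat.mul_div_cancel_left n hs0
  · intro n hn
    rw [mem_lab] at hn
    obtain ⟨⟨h1, h2⟩, h3, h4⟩ := hn
    have h5 : s₀ ∣ n := by rw [← h3]; exact sp_dvd c Q h1
    exact Nat.mul_div_cancel' h5
  · intro n _; rfl

theorem lab_E1 (hQ : 0 < Q) {A : Type*} [CStarAlgebra A] {u : ℕ → A} (h : FG c u)
    {π : Fin r → ℕ} (hπ : Rep c π) (s₀ : ℕ) (g : GG r Q) {i : Fin r} (hi : Big c i) (ε : ℝ)
    (hε : 0 < ε) :
    ∃ N₀ : ℕ, ∀ N : ℕ, N₀ ≤ N →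
      ‖∑ n ∈ lab c Q N s₀ g, u n * (1 - u (π i ^ Nat.totient Q))‖ ≤ ε * N := by
  classical
  obtain ⟨N₁, h1⟩ := lab_E1_free c Q hQ h hπ g hi ε hε
  by_cases hne : ∃ n, 0 < n ∧ sp c Q n = s₀
  · obtain ⟨n, hn, hns⟩ := hne
    have hs0 : 0 < s₀ := by rw [← hns]; exact sp_pos c Q hn
    have hs1 : sp c Q s₀ = s₀ := by rw [← hns]; exact sp_sp c Q hn
    have hs2 : gam c Q s₀ = 0 := by rw [← hns]; exact gam_sp c Q hn
    refine ⟨N₁ * s₀, fun N hN => ?_⟩
    rw [lab_sum c Q _ hs0 hs1 hs2]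
    have h2 : ∑ n ∈ lab c Q (N / s₀) 1 g, u (s₀ * n) * (1 - u (π i ^ Nat.totient Q)) =
        u s₀ * ∑ n ∈ lab c Q (N / s₀) 1 g, u n * (1 - u (π i ^ Nat.totient Q)) := by
      rw [Finset.mul_sum]
      refine Finset.sum_congr rfl fun n hn => ?_
      rw [mem_lab] at hn
      rw [h.mul _ _ hs0 hn.1.1, mul_assoc]
    rw [h2, CStarRing.norm_mem_unitary_mul _ (h.uni s₀ hs0)]
    refine (h1 (N / s₀) ((Nat.le_div_iff_mul_le hs0).2 hN)).trans ?_
    refine mul_le_mul_of_nonneg_left ?_ hε.le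
    exact_mod_cast Nat.div_le_self N s₀
  · refine ⟨0, fun N _ => ?_⟩
    have : lab c Q N s₀ g = ∅ := by
      rw [Finset.eq_empty_iff_forall_notMem]
      intro n hn
      rw [mem_lab] at hn
      exact hne ⟨n, hn.1.1, hn.2.1⟩
    rw [this, Finset.sum_empty, norm_zero]
    positivity

theorem lab_E1r (hQ : 0 < Q) {A : Type*} [CStarAlgebra A] {u : ℕ → A} (h : FG c u)
    {π : Fin r → ℕ} (hπ : Rep c π) (s₀ : ℕ) (g : GG r Q) {i : Fin r} (hi : Big c i) (ε : ℝ)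
    (hε : 0 < ε) :
    ∃ N₀ : ℕ, ∀ N : ℕ, N₀ ≤ N →
      ‖∑ n ∈ lab c Q N s₀ g, u (rr c Q π n) * (1 - u (π i ^ Nat.totient Q))‖ ≤ ε * N := by
  obtain ⟨N₀, h1⟩ := lab_E1 c Q hQ h hπ s₀ g hi ε hε
  refine ⟨N₀, fun N hN => ?_⟩
  rcases (lab c Q N s₀ g).eq_empty_or_nonempty with h0 | ⟨n₀, hn₀⟩
  · rw [h0, Finset.sum_empty, norm_zero]; positivity
  have h2 := h1 N hN
  rw [mem_lab] at hn₀
  have hpos : 0 < s₀ * tt Q π g :=
    Nat.mul_pos (by rw [← hn₀.2.1]; exact sp_pos c Q hn₀.1.1) (tt_pos Q hπ.pos g)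
  have h3 : ∑ n ∈ lab c Q N s₀ g, u n * (1 - u (π i ^ Nat.totient Q)) =
      u (s₀ * tt Q π g) *
        ∑ n ∈ lab c Q N s₀ g, u (rr c Q π n) * (1 - u (π i ^ Nat.totient Q)) := by
    rw [Finset.mul_sum]
    refine Finset.sum_congr rfl fun n hn => ?_
    rw [mem_lab] at hn
    rw [u_lab c Q h hπ hQ hn.1.1, hn.2.1, hn.2.2, mul_assoc]
  rw [h3, CStarRing.norm_mem_unitary_mul _ (h.uni _ hpos)] at h2
  exact h2

/-- labels have densities -/
theorem lab_dens (s₀ : ℕ) (g : GG r Q) :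
    ∃ d : ℝ, Tendsto (fun N : ℕ => ((lab c Q N s₀ g).card : ℝ) / N) atTop (𝓝 d) := by
  classical
  by_cases hs : s₀ = 0
  · refine ⟨0, ?_⟩
    have : ∀ N : ℕ, ((lab c Q N s₀ g).card : ℝ) / N = 0 := by
      intro N
      have : lab c Q N s₀ g = ∅ := by
        rw [Finset.eq_empty_iff_forall_notMem]
        intro n hn
        rw [mem_lab] at hn
        have := sp_pos c Q hn.1.1
        omega
      rw [this]; simp
    simp only [this]
    exact tendsto_const_nhds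
  let F : ℕ → Multiplicative (GG r Q) × ℚˣ := fun n =>
    if hn : 0 < n then (Multiplicative.ofAdd (gam c Q n),
      Units.mk0 (sp c Q n : ℚ) (by exact_mod_cast (sp_pos c Q hn).ne')) else 1
  have hF : ∀ n (hn : 0 < n), F n = (Multiplicative.ofAdd (gam c Q n),
      Units.mk0 (sp c Q n : ℚ) (by exact_mod_cast (sp_pos c Q hn).ne')) := by
    intro n hn
    simp only [F]
    rw [dif_pos hn]
  obtain ⟨d, hd⟩ := Pool.Agent.Y868.VR.abel (F := F) (by
      rw [hF 1 one_pos]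
      refine Prod.ext ?_ ?_
      · simp only [gam_one]; rfl
      · apply Units.ext
        simp [sp_one]) (fun m n hm hn _ => by
      rw [hF _ (Nat.mul_pos hm hn), hF m hm, hF n hn]
      refine Prod.ext ?_ ?_
      · simp only [gam_mul c Q hm hn]; rfl
      · apply Units.ext
        simp [sp_mul c Q hm hn]) (Multiplicative.ofAdd g, Units.mk0 (s₀ : ℚ) (by exact_mod_cast hs))
  refine ⟨d, hd.congr fun N => ?_⟩
  congr 2
  rw [← Nat.card_eq_finsetCard]
  refine Nat.card_congr (Equiv.subtypeEquivRight fun n => ?_)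
  rw [mem_lab]
  constructor
  · rintro ⟨h1, h2, h3⟩
    have h1' : 0 < n := h1
    rw [hF n h1'] at h3
    have h4 := Prod.ext_iff.1 h3
    refine ⟨⟨h1', h2⟩, ?_, ?_⟩
    · have h5 := congrArg (fun x : ℚˣ => (x : ℚ)) h4.2
      simp only [Units.val_mk0] at h5
      exact_mod_cast h5
    · exact h4.1
  · rintro ⟨⟨h1, h2⟩, h3, h4⟩
    refine ⟨h1, h2, ?_⟩
    rw [hF n h1]
    refine Prod.ext ?_ ?_
    · simp only [h4]
    · apply Units.ext
      simp [h3]

end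

end Pool.Agent.K7.H83.MA
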