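import Pool.Agent.K7.H83.MA.Cube3
import Pool.Agent.K7.H83.MA.Lab3
import Pool.Agent.K7.H83.MA.Conv

/-! Assembly over the labels. -/

set_option autoImplicit false
set_option linter.unusedSectionVars false

namespace Pool.Agent.K7.H83.MA

open Finset Filter Topology MeasureTheory ProbabilityTheory
open scoped InnerProductSpace ENNReal

section labels

variable {r : ℕ} (c : ℕ → Fin r) (Q : ℕ)

open scoped Classical in
/-- the generators of the invariance -/
noncomputable def qq (π : Fin r → ℕ) (i : Fin r) : ℕ :=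
  if Big c i then π i ^ Nat.totient Q else 1

theorem Om_zero (i : Fin r) : Om c Q i 0 = 0 := by
  unfold Om ext
  simp

theorem rr_form (π : Fin r → ℕ) (n : ℕ) :
    rr c Q π n = ∏ i, qq c Q π i ^ (Om c Q i n / Nat.totient Q) := by
  unfold rr qq
  refine Finset.prod_congr rfl fun i _ => ?_
  by_cases hi : Big c i
  · rw [if_pos hi]
  · have h0 : Om c Q i n = 0 := by
      rcases Nat.eq_zero_or_pos n with h | h
      · subst h; exact Om_zero c Q i
      · exact Om_small c Q hi h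
    rw [h0, Nat.zero_div, pow_zero, pow_zero]

theorem seq_lab {π : Fin r → ℕ} (hπ : Rep c π) (s₀ : ℕ) (g : GG r Q) :
    ∃ d : ℝ, Seq (qq c Q π) (fun N => lab c Q N s₀ g) (rr c Q π) d := by
  obtain ⟨d, hd⟩ := lab_dens c Q s₀ g
  refine ⟨d, fun N n hn => ?_, fun i => ?_, fun n => ⟨_, rr_form c Q π n⟩, hd⟩
  · exact mem_Ioc.2 ((mem_lab c Q).1 hn).1
  · unfold qq
    split_ifs
    · exact pow_pos (hπ.pos i) _
    · exact one_pos

theorem inv_lab (hQ : 0 < Q) {π : Fin r → ℕ} (hπ : Rep c π) (s₀ : ℕ) (g : GG r Q) {A : Type*}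
    [CStarAlgebra A] {u : ℕ → A} (h : FG c u) :
    Inv1 u (qq c Q π) (fun N => lab c Q N s₀ g) (rr c Q π) := by
  intro i ε hε
  by_cases hi : Big c i
  · have := lab_E1r c Q hQ h hπ s₀ g hi ε hε
    unfold qq
    rw [if_pos hi]
    exact this
  · refine ⟨0, fun N _ => ?_⟩
    unfold qq
    rw [if_neg hi, h.one, sub_self]
    simp only [mul_zero, Finset.sum_const_zero, norm_zero]
    positivity

end labels

variable {X : Type*} [MeasurableSpace X] [StandardBorelSpace X] {μ : Measure X}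
  [IsProbabilityMeasure μ]
variable {r : ℕ} {c : ℕ → Fin r} {T : ℕ → X → X}

/-- the weights -/
def ww (T : ℕ → X → X) (F1 F2 F4 : X → ℂ) (m n : ℕ) : X → ℂ :=
  fun x => F1 (T m x) * (F2 (T n x) * F4 (T (m * n) x))

theorem ww_BM (h : Sys c μ T) {F1 F2 F4 : X → ℂ} (h1 : BM F1) (h2 : BM F2) (h4 : BM F4)
    {m n : ℕ} (hm : 0 < m) (hn : 0 < n) : BM (ww T F1 F2 F4 m n) :=
  (h1.comp (h.mp m hm).measurable).mul ((h2.comp (h.mp n hn).measurable).mul
    (h4.comp (h.mp _ (Nat.mul_pos hm hn)).measurable))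

/-- the averaging operators over two finite sets -/
noncomputable def OP (μ : Measure X) [IsProbabilityMeasure μ] (T : ℕ → X → X)
    (F1 F2 F4 : X → ℂ) (L L' : ℕ → Finset ℕ) (N : ℕ) : Lp ℂ 2 μ →L[ℂ] Lp ℂ 2 μ :=
  ((N : ℂ)⁻¹ * (N : ℂ)⁻¹) • ∑ m ∈ L N, ∑ n ∈ L' N, mulB μ (ww T F1 F2 F4 m n)

theorem card_le_of_sub {L : ℕ → Finset ℕ} (hL : ∀ N, L N ⊆ Ioc 0 N) (N : ℕ) :
    ((L N).card : ℝ) ≤ N := by
  have := Finset.card_le_card (hL N)
  rw [Nat.card_Ioc] at this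
  exact_mod_cast this

theorem ww_bound {F1 F2 F4 : X → ℂ} {C1 C2 C4 : ℝ} (h1 : ∀ x, ‖F1 x‖ ≤ C1)
    (h2 : ∀ x, ‖F2 x‖ ≤ C2) (h4 : ∀ x, ‖F4 x‖ ≤ C4) (hC1 : 0 ≤ C1) (hC2 : 0 ≤ C2) (m n : ℕ)
    (x : X) : ‖ww T F1 F2 F4 m n x‖ ≤ C1 * (C2 * C4) := by
  unfold ww
  rw [norm_mul, norm_mul]
  exact mul_le_mul (h1 _) (mul_le_mul (h2 _) (h4 _) (norm_nonneg _) hC2) (by positivity) hC1

theorem OP_norm (h : Sys c μ T) {F1 F2 F4 : X → ℂ} (h1 : BM F1) (h2 : BM F2) (h4 : BM F4)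
    {C : ℝ} (hC0 : 0 ≤ C) (hC : ∀ m n x, ‖ww T F1 F2 F4 m n x‖ ≤ C)
    {L L' : ℕ → Finset ℕ} (hL : ∀ N, L N ⊆ Ioc 0 N) (hL' : ∀ N, L' N ⊆ Ioc 0 N) (N : ℕ)
    (f : Lp ℂ 2 μ) : ‖OP μ T F1 F2 F4 L L' N f‖ ≤ C * ‖f‖ := by
  unfold OP
  rw [_root_.smul_apply, norm_smul, norm_mul, norm_inv, Complex.norm_natCast, _root_.sum_apply]
  have h5 : ‖∑ m ∈ L N, (∑ n ∈ L' N, mulB μ (ww T F1 F2 F4 m n)) f‖ ≤ N * (N * (C * ‖f‖)) := by
    have h6 : ∀ m ∈ L N, ‖(∑ n ∈ L' N, mulB μ (ww T F1 F2 F4 m n)) f‖ ≤ N * (C * ‖f‖) := by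
      intro m hm
      rw [_root_.sum_apply]
      have h7 : ∀ n ∈ L' N, ‖mulB μ (ww T F1 F2 F4 m n) f‖ ≤ C * ‖f‖ := by
        intro n hn
        exact mulB_norm (ww_BM h h1 h2 h4 (mem_Ioc.1 (hL N hm)).1 (mem_Ioc.1 (hL' N hn)).1)
          (hC m n) f
      refine (norm_sum_le _ _).trans ((Finset.sum_le_sum h7).trans ?_)
      rw [Finset.sum_const, nsmul_eq_mul]
      exact mul_le_mul_of_nonneg_right (card_le_of_sub hL' N) (by positivity)
    refine (norm_sum_le _ _).trans ((Finset.sum_le_sum h6).trans ?_)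
    rw [Finset.sum_const, nsmul_eq_mul]
    exact mul_le_mul_of_nonneg_right (card_le_of_sub hL N) (by positivity)
  rcases Nat.eq_zero_or_pos N with h0 | h0
  · subst h0; simp; positivity
  have hN : (0 : ℝ) < N := by exact_mod_cast h0
  calc _ ≤ ((N : ℝ)⁻¹ * (N : ℝ)⁻¹) * (N * (N * (C * ‖f‖))) :=
        mul_le_mul_of_nonneg_left h5 (by positivity)
    _ = C * ‖f‖ := by field_simp

theorem ae_of_u (h : Sys c μ T) {m a b : ℕ} (hm : 0 < m) (ha : 0 < a) (hb : 0 < b)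
    (hu : koop μ T m = koop μ T b * koop μ T a) {F : X → ℂ} (hF : BM F) :
    ∀ᵐ x ∂μ, F (T m x) = F (T a (T b x)) := by
  have h1 : koop μ T m (bl μ F) = koop μ T b (koop μ T a (bl μ F)) := by rw [hu]; rfl
  rw [koop_bl (h.mp m hm) hF, koop_bl (h.mp a ha) hF,
    koop_bl (h.mp b hb) (hF.comp (h.mp a ha).measurable)] at h1
  filter_upwards [bl_coe (hF.comp (h.mp m hm).measurable),
    bl_coe ((hF.comp (h.mp a ha).measurable).comp (h.mp b hb).measurable)] with x h2 h3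
  rw [← h2, ← h3, h1]

/-- cube averages over two labels -/
theorem OP_lab (h : Sys c μ T) {Q : ℕ} (hQ : 0 < Q) {π : Fin r → ℕ} (hπ : Rep c π)
    (s s' : ℕ) (g g' : GG r Q) {F1 F2 F4 : X → ℂ} (h1 : BM F1) (h2 : BM F2) (h4 : BM F4)
    (f : Lp ℂ 2 μ) : f ∈ ConvSub (OP μ T F1 F2 F4 (fun N => lab c Q N s g)
      (fun N => lab c Q N s' g')) := by
  obtain ⟨C1, hC1, hF1⟩ := h1.2
  obtain ⟨C2, hC2, hF2⟩ := h2.2
  obtain ⟨C4, hC4, hF4⟩ := h4.2
  have hsub : ∀ (s : ℕ) (g : GG r Q) N, lab c Q N s g ⊆ Ioc 0 N := fun s g N n hn =>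
    mem_Ioc.2 ((mem_lab c Q).1 hn).1
  -- trivial case
  by_cases hs0 : s = 0
  · refine ⟨0, ?_⟩
    have : ∀ N, lab c Q N s g = ∅ := by
      intro N
      rw [Finset.eq_empty_iff_forall_notMem]
      intro n hn
      rw [mem_lab] at hn
      have := sp_pos c Q hn.1.1
      omega
    simp only [OP, this, Finset.sum_empty, smul_zero, _root_.zero_apply]
    exact tendsto_const_nhds
  by_cases hs0' : s' = 0
  · refine ⟨0, ?_⟩
    have : ∀ N, lab c Q N s' g' = ∅ := by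
      intro N
      rw [Finset.eq_empty_iff_forall_notMem]
      intro n hn
      rw [mem_lab] at hn
      have := sp_pos c Q hn.1.1
      omega
    simp only [OP, this, Finset.sum_empty, Finset.sum_const_zero, smul_zero, _root_.zero_apply]
    exact tendsto_const_nhds
  have ht : 0 < s * tt Q π g := Nat.mul_pos (Nat.pos_of_ne_zero hs0) (tt_pos Q hπ.pos g)
  have ht' : 0 < s' * tt Q π g' := Nat.mul_pos (Nat.pos_of_ne_zero hs0') (tt_pos Q hπ.pos g')
  set t := s * tt Q π g with htd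
  set t' := s' * tt Q π g' with htd'
  obtain ⟨d, hseq⟩ := seq_lab c Q hπ s g
  obtain ⟨d', hseq'⟩ := seq_lab c Q hπ s' g'
  have hq := hseq.qpos
  have hr := fun n => hseq.pos n
  -- the cube theorem
  have hB1 : BM (fun x => F1 (T t x)) := h1.comp (h.mp t ht).measurable
  have hB2 : BM (fun x => F2 (T t' x)) := h2.comp (h.mp t' ht').measurable
  have hB4 : BM (fun x => F4 (T (t * t') x)) := h4.comp (h.mp _ (Nat.mul_pos ht ht')).measurable
  obtain ⟨V, hV⟩ := cube h hseq (inv_lab c Q hQ hπ s g h.FG)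
    (inv_lab c Q hQ hπ s g (h.prod hq).FG) hseq' (inv_lab c Q hQ hπ s' g' h.FG)
    (inv_lab c Q hQ hπ s' g' (h.prod hq).FG) hB1 hB2 hB4
  -- identification
  have hid : ∀ m n, ∀ N, m ∈ lab c Q N s g → n ∈ lab c Q N s' g' →
      bl μ (ww T F1 F2 F4 m n) = bl μ (fun x => F1 (T t (T (rr c Q π m) x)) *
        (F2 (T t' (T (rr c Q π n) x)) *
          F4 (T (t * t') (T (rr c Q π m) (T (rr c Q π n) x))))) := by
    intro m n N hm hn
    rw [mem_lab] at hm hn
    have hu1 := u_lab c Q h.FG hπ hQ hm.1.1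
    rw [hm.2.1, hm.2.2, ← htd] at hu1
    have hu2 := u_lab c Q h.FG hπ hQ hn.1.1
    rw [hn.2.1, hn.2.2, ← htd'] at hu2
    have hmm := (h.mp _ (hr m)).measurable
    have hmn := (h.mp _ (hr n)).measurable
    have e1 := ae_of_u h hm.1.1 ht (hr m) (by rw [hu1, h.FG.comm ht (hr m)]) h1
    have e2 := ae_of_u h hn.1.1 ht' (hr n) (by rw [hu2, h.FG.comm ht' (hr n)]) h2
    have hu3 : koop μ T (m * n) = koop μ T (rr c Q π m * rr c Q π n) * koop μ T (t * t') := by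
      rw [h.FG.mul m n hm.1.1 hn.1.1, hu1, hu2, h.FG.mul _ _ (hr m) (hr n),
        h.FG.mul _ _ ht ht']
      have c1 := h.FG.comm ht (hr m)
      have c2 := h.FG.comm ht' (hr n)
      have c3 := h.FG.comm ht (hr n)
      calc koop μ T t * koop μ T (rr c Q π m) * (koop μ T t' * koop μ T (rr c Q π n))
          = (koop μ T t * koop μ T (rr c Q π m)) * (koop μ T t' * koop μ T (rr c Q π n)) := rfl
        _ = koop μ T (rr c Q π m) * (koop μ T t * koop μ T (rr c Q π n)) * koop μ T t' := by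
            rw [c1, c2]; noncomm_ring
        _ = _ := by rw [c3]; noncomm_ring
    have e3 := ae_of_u h (Nat.mul_pos hm.1.1 hn.1.1) (Nat.mul_pos ht ht')
      (Nat.mul_pos (hr m) (hr n)) hu3 h4
    have e4 := h.mul _ _ (hr m) (hr n)
    refine bl_congr (ww_BM h h1 h2 h4 hm.1.1 hn.1.1) ((hB1.comp hmm).mul ((hB2.comp hmn).mul
      ((hB4.comp hmm).comp hmn))) ?_
    filter_upwards [e1, e2, e3, e4] with x e1 e2 e3 e4
    unfold ww
    rw [e1, e2, e3, e4]
  have hCN : ∀ N : ℕ, ((N : ℂ)⁻¹ * (N : ℂ)⁻¹) • ∑ m ∈ lab c Q N s g, ∑ n ∈ lab c Q N s' g',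
      bl μ (ww T F1 F2 F4 m n) = CN μ T (fun N => lab c Q N s g) (rr c Q π)
        (fun N => lab c Q N s' g') (rr c Q π) (fun x => F1 (T t x)) (fun x => F2 (T t' x))
        (fun x => F4 (T (t * t') x)) N := by
    intro N
    unfold CN avg
    rw [mul_smul]
    congr 1
    rw [Finset.smul_sum]
    refine Finset.sum_congr rfl fun m hm => ?_
    rw [_root_.smul_apply, map_smul, _root_.sum_apply, map_sum]
    congr 1
    refine Finset.sum_congr rfl fun n hn => ?_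
    have hmm := (h.mp _ (hr m)).measurable
    have hmn := (h.mp _ (hr n)).measurable
    unfold gv
    rw [hid m n N hm hn, koop_bl (h.mp _ (hr n)) (hB2.mul (hB4.comp hmm)),
      mulB_bl (hB1.comp hmm) ((hB2.comp hmn).mul ((hB4.comp hmm).comp hmn))]
  -- conclusion by density
  refine ConvSub_closed (C := C1 * (C2 * C4)) (fun N f => OP_norm h h1 h2 h4 (by positivity)
    (ww_bound hF1 hF2 hF4 hC1 hC2) (hsub s g) (hsub s' g') N f) ?_
  rw [Metric.mem_closure_iff]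
  intro ε hε
  obtain ⟨G, hG, hGd⟩ := bl_dense f (ε / 2) (by positivity)
  refine ⟨bl μ G, ⟨mulB μ G V, ?_⟩, ?_⟩
  · have h5 := ((mulB μ G).continuous.tendsto V).comp hV
    refine h5.congr fun N => ?_
    simp only [Function.comp_def]
    rw [← hCN N, map_smul, map_sum]
    unfold OP
    rw [_root_.smul_apply, _root_.sum_apply]
    congr 1
    refine Finset.sum_congr rfl fun m hm => ?_
    rw [map_sum, _root_.sum_apply]
    refine Finset.sum_congr rfl fun n hn => ?_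
    have hw := ww_BM h h1 h2 h4 ((mem_lab c Q).1 hm).1.1 ((mem_lab c Q).1 hn).1.1
    rw [mulB_bl hG hw, mulB_bl hw hG]
    congr 1
    funext x
    ring
  · rw [dist_eq_norm]
    linarith

end Pool.Agent.K7.H83.MA
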