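import Pool.Agent.K7.H83.MA.Asm

/-! Convergence of the averages with a periodic last factor. -/

set_option autoImplicit false
set_option linter.unusedSectionVars false

namespace Pool.Agent.K7.H83.MA

open Finset Filter Topology MeasureTheory ProbabilityTheory
open scoped InnerProductSpace ENNReal

/-- splitting of double sums -/
theorem double_split {M : Type*} [AddCommGroup M] (s : Finset ℕ) (P : ℕ → Prop) [DecidablePred P]
    (f : ℕ → ℕ → M) : ∑ m ∈ s, ∑ n ∈ s, f m n - ∑ m ∈ s.filter P, ∑ n ∈ s.filter P, f m n =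
      ∑ m ∈ s.filter (fun m => ¬ P m), ∑ n ∈ s, f m n +
      ∑ m ∈ s.filter P, ∑ n ∈ s.filter (fun n => ¬ P n), f m n := by
  rw [← Finset.sum_filter_add_sum_filter_not s P (fun m => ∑ n ∈ s, f m n)]
  have h1 : ∀ m ∈ s.filter P, ∑ n ∈ s, f m n = ∑ n ∈ s.filter P, f m n +
      ∑ n ∈ s.filter (fun n => ¬ P n), f m n := fun m _ =>
    (Finset.sum_filter_add_sum_filter_not s P (fun n => f m n)).symm
  rw [Finset.sum_congr rfl h1, Finset.sum_add_distrib]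
  abel

theorem sum_norm_le' {E : Type*} [SeminormedAddCommGroup E] (s t : Finset ℕ) (f : ℕ → ℕ → E) {C : ℝ}
    (h : ∀ m ∈ s, ∀ n ∈ t, ‖f m n‖ ≤ C) :
    ‖∑ m ∈ s, ∑ n ∈ t, f m n‖ ≤ s.card * (t.card * C) := by
  refine (norm_sum_le _ _).trans ?_
  refine (Finset.sum_le_sum fun m hm => (norm_sum_le _ _).trans
    (Finset.sum_le_sum fun n hn => h m hm n hn)).trans ?_
  rw [Finset.sum_const, Finset.sum_const, nsmul_eq_mul, nsmul_eq_mul]

variable {X : Type*} [MeasurableSpace X] [StandardBorelSpace X] {μ : Measure X}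
  [IsProbabilityMeasure μ]
variable {r : ℕ} {c : ℕ → Fin r} {T : ℕ → X → X}

theorem OP_per (h : Sys c μ T) {Q : ℕ} (hQ : 0 < Q) {F1 F2 F4 : X → ℂ} (h1 : BM F1) (h2 : BM F2)
    (h4 : BM F4) (G : ZMod Q → Lp ℂ 2 μ) :
    ∃ V : Lp ℂ 2 μ, Tendsto (fun N : ℕ => ((N : ℂ)⁻¹ * (N : ℂ)⁻¹) •
      ∑ m ∈ Ioc 0 N, ∑ n ∈ Ioc 0 N, mulB μ (ww T F1 F2 F4 m n) (G ((m + n : ℕ) : ZMod Q)))
      atTop (𝓝 V) := by
  classical
  have : NeZero Q := ⟨hQ.ne'⟩
  have hD := Nat.totient_pos.2 hQ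
  have : NeZero (Nat.totient Q) := ⟨hD.ne'⟩
  obtain ⟨C1, hC1, hF1⟩ := h1.2
  obtain ⟨C2, hC2, hF2⟩ := h2.2
  obtain ⟨C4, hC4, hF4⟩ := h4.2
  obtain ⟨π, hπ⟩ := exists_rep c
  set B : ℝ := C1 * (C2 * C4) with hB
  have hB0 : 0 ≤ B := by positivity
  set Gm : ℝ := ∑ a, ‖G a‖ with hGm
  have hGm0 : 0 ≤ Gm := Finset.sum_nonneg fun _ _ => norm_nonneg _
  have hGle : ∀ a, ‖G a‖ ≤ Gm := fun a =>
    Finset.single_le_sum (f := fun a => ‖G a‖) (fun _ _ => norm_nonneg _) (Finset.mem_univ a)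
  have hterm : ∀ m n, 0 < m → 0 < n →
      ‖mulB μ (ww T F1 F2 F4 m n) (G ((m + n : ℕ) : ZMod Q))‖ ≤ B * Gm := by
    intro m n hm hn
    refine (mulB_norm (ww_BM h h1 h2 h4 hm hn) (ww_bound hF1 hF2 hF4 hC1 hC2 m n) _).trans ?_
    exact mul_le_mul_of_nonneg_left (hGle _) hB0
  refine conv_of_approx _ fun ε hε => ?_
  obtain ⟨M, hM0, _, hMc⟩ := good (spa_Sp c Q hQ) (ε / (2 * (B * Gm) + 1)) (by positivity)
  set Λ : Finset (ℕ × GG r Q) := M.divisors ×ˢ (Finset.univ : Finset (GG r Q)) with hΛ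
  let val : ℕ × GG r Q → ZMod Q := fun ℓ => (ℓ.1 : ZMod Q) * ((Additive.toMul ℓ.2.1 : (ZMod Q)ˣ) : ZMod Q)
  refine ⟨fun N => ∑ ℓ ∈ Λ, ∑ ℓ' ∈ Λ, OP μ T F1 F2 F4 (fun N => lab c Q N ℓ.1 ℓ.2)
    (fun N => lab c Q N ℓ'.1 ℓ'.2) N (G (val ℓ + val ℓ')), ?_, ?_⟩
  · have h5 : ∀ ℓ ℓ' : ℕ × GG r Q, ∃ V, Tendsto (fun N => OP μ T F1 F2 F4
        (fun N => lab c Q N ℓ.1 ℓ.2) (fun N => lab c Q N ℓ'.1 ℓ'.2) N (G (val ℓ + val ℓ')))
        atTop (𝓝 V) := fun ℓ ℓ' => OP_lab h hQ hπ ℓ.1 ℓ'.1 ℓ.2 ℓ'.2 h1 h2 h4 _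
    choose V hV using h5
    exact ⟨∑ ℓ ∈ Λ, ∑ ℓ' ∈ Λ, V ℓ ℓ', tendsto_finsetSum _ fun ℓ _ =>
      tendsto_finsetSum _ fun ℓ' _ => hV ℓ ℓ'⟩
  · refine Eventually.of_forall fun N => ?_
    -- rewrite the second sum over the good integers
    have hfib : ∀ {E : Type _} [AddCommMonoid E] (f : ℕ → E),
        ∑ n ∈ (Ioc 0 N).filter (fun n => prt (Sp c Q) n ∣ M), f n =
        ∑ ℓ ∈ Λ, ∑ n ∈ lab c Q N ℓ.1 ℓ.2, f n := by
      intro E _ f
      have hmaps : ∀ n ∈ (Ioc 0 N).filter (fun n => prt (Sp c Q) n ∣ M),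
          (sp c Q n, gam c Q n) ∈ Λ := by
        intro n hn
        rw [mem_filter] at hn
        rw [hΛ, Finset.mem_product]
        exact ⟨Nat.mem_divisors.2 ⟨hn.2, hM0.ne'⟩, Finset.mem_univ _⟩
      rw [← Finset.sum_fiberwise_of_maps_to hmaps]
      refine Finset.sum_congr rfl fun ℓ hℓ => ?_
      rw [hΛ, Finset.mem_product] at hℓ
      refine Finset.sum_congr ?_ fun _ _ => rfl
      ext n
      rw [mem_filter, mem_filter, mem_lab, mem_Ioc]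
      constructor
      · rintro ⟨⟨h5, h6⟩, h7⟩
        have h8 := Prod.ext_iff.1 h7
        exact ⟨h5, h8.1, h8.2⟩
      · rintro ⟨h5, h6, h7⟩
        refine ⟨⟨h5, ?_⟩, Prod.ext h6 h7⟩
        rw [← sp_eq_prt, h6]
        exact (Nat.mem_divisors.1 hℓ.1).1
    have hy : ∑ ℓ ∈ Λ, ∑ ℓ' ∈ Λ, OP μ T F1 F2 F4 (fun N => lab c Q N ℓ.1 ℓ.2)
        (fun N => lab c Q N ℓ'.1 ℓ'.2) N (G (val ℓ + val ℓ')) =
        ((N : ℂ)⁻¹ * (N : ℂ)⁻¹) • ∑ m ∈ (Ioc 0 N).filter (fun n => prt (Sp c Q) n ∣ M),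
          ∑ n ∈ (Ioc 0 N).filter (fun n => prt (Sp c Q) n ∣ M),
            mulB μ (ww T F1 F2 F4 m n) (G ((m + n : ℕ) : ZMod Q)) := by
      rw [hfib, Finset.smul_sum]
      refine Finset.sum_congr rfl fun ℓ _ => ?_
      have h5 : ∀ m ∈ lab c Q N ℓ.1 ℓ.2,
          ∑ n ∈ (Ioc 0 N).filter (fun n => prt (Sp c Q) n ∣ M),
            mulB μ (ww T F1 F2 F4 m n) (G ((m + n : ℕ) : ZMod Q)) =
          ∑ ℓ' ∈ Λ, ∑ n ∈ lab c Q N ℓ'.1 ℓ'.2,
            mulB μ (ww T F1 F2 F4 m n) (G (val ℓ + val ℓ')) := by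
        intro m hm
        rw [hfib]
        refine Finset.sum_congr rfl fun ℓ' _ => Finset.sum_congr rfl fun n hn => ?_
        rw [mem_lab] at hm hn
        have e1 : (m : ZMod Q) = val ℓ := by
          rw [res_eq c Q hm.1.1, hm.2.1]
          simp only [val]
          rw [← hm.2.2]
          rfl
        have e2 : (n : ZMod Q) = val ℓ' := by
          rw [res_eq c Q hn.1.1, hn.2.1]
          simp only [val]
          rw [← hn.2.2]
          rfl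
        rw [Nat.cast_add, e1, e2]
      rw [Finset.sum_congr rfl h5, Finset.sum_comm, Finset.smul_sum]
      refine Finset.sum_congr rfl fun ℓ' _ => ?_
      unfold OP
      rw [_root_.smul_apply, _root_.sum_apply]
      congr 1
      refine Finset.sum_congr rfl fun m _ => ?_
      rw [_root_.sum_apply]
    beta_reduce
    rw [hy, ← smul_sub, double_split, norm_smul, norm_mul, norm_inv, Complex.norm_natCast]
    have hbad := hMc N
    have hb1 := sum_norm_le' ((Ioc 0 N).filter (fun n => ¬ prt (Sp c Q) n ∣ M)) (Ioc 0 N)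
      (fun m n => mulB μ (ww T F1 F2 F4 m n) (G ((m + n : ℕ) : ZMod Q))) (C := B * Gm)
      (fun m hm n hn => hterm m n (mem_Ioc.1 (mem_filter.1 hm).1).1 (mem_Ioc.1 hn).1)
    have hb2 := sum_norm_le' ((Ioc 0 N).filter (fun n => prt (Sp c Q) n ∣ M))
      ((Ioc 0 N).filter (fun n => ¬ prt (Sp c Q) n ∣ M))
      (fun m n => mulB μ (ww T F1 F2 F4 m n) (G ((m + n : ℕ) : ZMod Q))) (C := B * Gm)
      (fun m hm n hn => hterm m n (mem_Ioc.1 (mem_filter.1 hm).1).1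
        (mem_Ioc.1 (mem_filter.1 hn).1).1)
    rcases Nat.eq_zero_or_pos N with h0 | h0
    · subst h0; simp; exact hε.le
    have hN : (0 : ℝ) < N := by exact_mod_cast h0
    have hcard : (((Ioc 0 N).filter (fun n => prt (Sp c Q) n ∣ M)).card : ℝ) ≤ N := by
      have := Finset.card_filter_le (Ioc 0 N) (fun n => prt (Sp c Q) n ∣ M)
      rw [Nat.card_Ioc] at this
      exact_mod_cast this
    have hI : ((Ioc 0 N).card : ℝ) = N := by rw [Nat.card_Ioc]; simp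
    rw [hI] at hb1
    have hBG : 0 ≤ B * Gm := mul_nonneg hB0 hGm0
    have hb1' : ‖∑ m ∈ (Ioc 0 N).filter (fun m => ¬ prt (Sp c Q) m ∣ M), ∑ n ∈ Ioc 0 N,
        mulB μ (ww T F1 F2 F4 m n) (G ((m + n : ℕ) : ZMod Q))‖ ≤
        (ε / (2 * (B * Gm) + 1) * N) * (N * (B * Gm)) :=
      hb1.trans (mul_le_mul_of_nonneg_right hbad (by positivity))
    have hb2' : ‖∑ m ∈ (Ioc 0 N).filter (fun m => prt (Sp c Q) m ∣ M),
        ∑ n ∈ (Ioc 0 N).filter (fun n => ¬ prt (Sp c Q) n ∣ M),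
        mulB μ (ww T F1 F2 F4 m n) (G ((m + n : ℕ) : ZMod Q))‖ ≤
        N * ((ε / (2 * (B * Gm) + 1) * N) * (B * Gm)) :=
      hb2.trans (mul_le_mul hcard (mul_le_mul_of_nonneg_right hbad hBG) (by positivity) hN.le)
    calc _ ≤ ((N : ℝ)⁻¹ * (N : ℝ)⁻¹) * ((ε / (2 * (B * Gm) + 1) * N) * (N * (B * Gm)) +
          N * ((ε / (2 * (B * Gm) + 1) * N) * (B * Gm))) := by
          refine mul_le_mul_of_nonneg_left ?_ (by positivity)
          exact (norm_add_le _ _).trans (add_le_add hb1' hb2')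
      _ = ε * (2 * (B * Gm)) / (2 * (B * Gm) + 1) := by
          field_simp; ring
      _ ≤ ε := by
          rw [div_le_iff₀ (by positivity)]
          nlinarith

end Pool.Agent.K7.H83.MA
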