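import Pool.Agent.K7.H83.MA.Rel

/-! Cube averages along asymptotically invariant sequences: the quadratic forms. -/

set_option autoImplicit false
set_option linter.unusedSectionVars false

namespace Pool.Agent.K7.H83.MA

open Finset Filter Topology MeasureTheory ProbabilityTheory
open scoped InnerProductSpace ENNReal

variable {X : Type*} [MeasurableSpace X] [StandardBorelSpace X] {μ : Measure X}
  [IsProbabilityMeasure μ]
variable {r : ℕ} {c : ℕ → Fin r} {T : ℕ → X → X} {q : Fin r → ℕ}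

/-- tensor products of bounded functions -/
noncomputable def tp (μ : Measure X) [IsProbabilityMeasure μ] (T : ℕ → X → X) (q : Fin r → ℕ)
    (a b : X → ℂ) : Lp ℂ 2 (rel μ T q) := bl (rel μ T q) (fun z => a z.1 * b z.2)

theorem tp_BM {a b : X → ℂ} (ha : BM a) (hb : BM b) : BM (fun z : X × X => a z.1 * b z.2) :=
  (ha.comp measurable_fst).mul (hb.comp measurable_snd)

/-- the graph vectors -/
noncomputable def gv (μ : Measure X) [IsProbabilityMeasure μ] (T : ℕ → X → X) (s : ℕ)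
    (a b : X → ℂ) : Lp ℂ 2 μ := bl μ (fun x => a x * b (T s x))

theorem gv_BM (h : Sys c μ T) {s : ℕ} (hs : 0 < s) {a b : X → ℂ} (ha : BM a) (hb : BM b) :
    BM (fun x => a x * b (T s x)) := ha.mul (hb.comp (h.mp s hs).measurable)

theorem Sys.comm (h : Sys c μ T) {m n : ℕ} (hm : 0 < m) (hn : 0 < n) :
    ∀ᵐ x ∂μ, T m (T n x) = T n (T m x) := by
  filter_upwards [h.mul m n hm hn, h.mul n m hn hm] with x h1 h2
  rw [← h1, ← h2, mul_comm]

theorem koop_gv (h : Sys c μ T) {s t : ℕ} (hs : 0 < s) (ht : 0 < t) {a b : X → ℂ} (ha : BM a)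
    (hb : BM b) : koop μ T t (gv μ T s a b) =
      gv μ T s (fun x => a (T t x)) (fun x => b (T t x)) := by
  unfold gv
  rw [koop_bl (h.mp t ht) (gv_BM h hs ha hb)]
  refine bl_congr ((gv_BM h hs ha hb).comp (h.mp t ht).measurable)
    (gv_BM h hs (ha.comp (h.mp t ht).measurable) (hb.comp (h.mp t ht).measurable)) ?_
  filter_upwards [h.comm hs ht] with x hx
  rw [hx]

theorem koop_tp (h : Sys c μ T) (hq : ∀ i, 0 < q i) {t : ℕ} (ht : 0 < t) {a b : X → ℂ}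
    (ha : BM a) (hb : BM b) : koop (rel μ T q) (T2 T) t (tp μ T q a b) =
      tp μ T q (fun x => a (T t x)) (fun x => b (T t x)) := by
  unfold tp
  rw [koop_bl (rel_mp h hq ht) (tp_BM ha hb)]
  rfl

theorem inner_gv (h : Sys c μ T) {s : ℕ} (hs : 0 < s) {a b a' b' : X → ℂ} (ha : BM a)
    (hb : BM b) (ha' : BM a') (hb' : BM b') :
    ⟪gv μ T s a b, gv μ T s a' b'⟫_ℂ =
      ⟪bl μ (fun x => a x * (starRingEnd ℂ) (a' x)),
        koop μ T s (bl μ fun x => (starRingEnd ℂ) (b x) * b' x)⟫_ℂ := by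
  unfold gv
  rw [inner_bl (gv_BM h hs ha hb) (gv_BM h hs ha' hb'), koop_bl (h.mp s hs) (hb.conj.mul hb'),
    inner_bl (ha.mul ha'.conj) ((hb.conj.mul hb').comp (h.mp s hs).measurable)]
  congr 1
  funext x
  simp only [map_mul, Complex.conj_conj]
  ring

theorem inner_tp (h : Sys c μ T) (hq : ∀ i, 0 < q i) {a b a' b' : X → ℂ} (ha : BM a)
    (hb : BM b) (ha' : BM a') (hb' : BM b') :
    ⟪tp μ T q a b, tp μ T q a' b'⟫_ℂ =
      ⟪bl μ (fun x => a x * (starRingEnd ℂ) (a' x)),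
        PI (koop μ T) q (bl μ fun x => (starRingEnd ℂ) (b x) * b' x)⟫_ℂ := by
  unfold tp
  rw [inner_bl (tp_BM ha hb) (tp_BM ha' hb')]
  have h1 := rel_int_bl h hq (ha.conj.mul ha') (hb.conj.mul hb')
  have e1 : (fun x => (starRingEnd ℂ) ((starRingEnd ℂ) (a x) * a' x)) =
      fun x => a x * (starRingEnd ℂ) (a' x) := by
    funext x; simp only [map_mul, Complex.conj_conj]
  rw [e1] at h1
  rw [← h1]
  congr 1
  funext z
  simp only [map_mul]
  ring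

section

variable {L : ℕ → Finset ℕ} {ρ : ℕ → ℕ} {d : ℝ}

/-- correlations of the graph vectors converge -/
theorem lim_inner (h : Sys c μ T) (hs : Seq q L ρ d) (hI : Inv1 (koop μ T) q L ρ)
    {a b a' b' : X → ℂ} (ha : BM a) (hb : BM b) (ha' : BM a') (hb' : BM b') :
    Tendsto (fun N : ℕ => (N : ℂ)⁻¹ * ∑ n ∈ L N, ⟪gv μ T (ρ n) a b, gv μ T (ρ n) a' b'⟫_ℂ) atTop
      (𝓝 (d * ⟪tp μ T q a b, tp μ T q a' b'⟫_ℂ)) := by
  have h1 := mean_erg h.FG hs hI (bl μ fun x => (starRingEnd ℂ) (b x) * b' x)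
  have h2 := (Tendsto.inner (𝕜 := ℂ) (tendsto_const_nhds
    (x := bl μ (fun x => a x * (starRingEnd ℂ) (a' x)))) h1)
  rw [inner_smul_right] at h2
  rw [inner_tp h hs.qpos ha hb ha' hb']
  refine h2.congr fun N => ?_
  unfold avg
  rw [_root_.smul_apply, inner_smul_right, _root_.sum_apply, inner_sum]
  congr 1
  refine Finset.sum_congr rfl fun n _ => ?_
  rw [inner_gv h (hs.pos n) ha hb ha' hb']

/-- mean squares of finite sums of graph vectors converge -/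
theorem lim_sq {κ : Type*} (J : Finset κ) (h : Sys c μ T) (hs : Seq q L ρ d)
    (hI : Inv1 (koop μ T) q L ρ) {a b : κ → X → ℂ} (ha : ∀ j ∈ J, BM (a j))
    (hb : ∀ j ∈ J, BM (b j)) :
    Tendsto (fun N : ℕ => (N : ℝ)⁻¹ * ∑ n ∈ L N, ‖∑ j ∈ J, gv μ T (ρ n) (a j) (b j)‖ ^ 2) atTop
      (𝓝 (d * ‖∑ j ∈ J, tp μ T q (a j) (b j)‖ ^ 2)) := by
  have h1 : Tendsto (fun N : ℕ => ∑ j ∈ J, ∑ l ∈ J, ((N : ℂ)⁻¹ * ∑ n ∈ L N,
      ⟪gv μ T (ρ n) (a j) (b j), gv μ T (ρ n) (a l) (b l)⟫_ℂ)) atTop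
      (𝓝 (∑ j ∈ J, ∑ l ∈ J, (d * ⟪tp μ T q (a j) (b j), tp μ T q (a l) (b l)⟫_ℂ))) :=
    tendsto_finsetSum _ fun j hj => tendsto_finsetSum _ fun l hl =>
      lim_inner h hs hI (ha j hj) (hb j hj) (ha l hl) (hb l hl)
  have h2 := (Complex.continuous_re.tendsto _).comp h1
  have e2 : (∑ j ∈ J, ∑ l ∈ J, ((d : ℂ) * ⟪tp μ T q (a j) (b j), tp μ T q (a l) (b l)⟫_ℂ)).re =
      d * ‖∑ j ∈ J, tp μ T q (a j) (b j)‖ ^ 2 := by
    have h3 : ∑ j ∈ J, ∑ l ∈ J, ((d : ℂ) * ⟪tp μ T q (a j) (b j), tp μ T q (a l) (b l)⟫_ℂ) =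
        d * ⟪∑ j ∈ J, tp μ T q (a j) (b j), ∑ j ∈ J, tp μ T q (a j) (b j)⟫_ℂ := by
      rw [sum_inner, Finset.mul_sum]
      refine Finset.sum_congr rfl fun j _ => ?_
      rw [inner_sum, Finset.mul_sum]
    rw [h3, inner_self_eq_norm_sq_to_K]
    norm_cast
    rw [Complex.re_ofReal_mul]
    exact congrArg (fun x => d * x) (Complex.ofReal_re _)
  rw [e2] at h2
  refine h2.congr fun N => ?_
  simp only [Function.comp_def]
  have h4 : ∑ j ∈ J, ∑ l ∈ J, ((N : ℂ)⁻¹ * ∑ n ∈ L N,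
      ⟪gv μ T (ρ n) (a j) (b j), gv μ T (ρ n) (a l) (b l)⟫_ℂ) =
      (((N : ℝ)⁻¹ * ∑ n ∈ L N, ‖∑ j ∈ J, gv μ T (ρ n) (a j) (b j)‖ ^ 2 : ℝ) : ℂ) := by
    push_cast
    have h5 : ∀ n, ((‖∑ j ∈ J, gv μ T (ρ n) (a j) (b j)‖ : ℂ)) ^ 2 =
        ∑ j ∈ J, ∑ l ∈ J, ⟪gv μ T (ρ n) (a j) (b j), gv μ T (ρ n) (a l) (b l)⟫_ℂ := by
      intro n
      have h6 := inner_self_eq_norm_sq_to_K (𝕜 := ℂ) (∑ j ∈ J, gv μ T (ρ n) (a j) (b j))
      rw [sum_inner] at h6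
      rw [← Complex.coe_algebraMap, ← h6]
      refine Finset.sum_congr rfl fun j _ => ?_
      rw [inner_sum]
    simp only [h5]
    simp only [Finset.mul_sum]
    rw [Finset.sum_comm' (s := L N) (t := fun _ => J) (t' := J) (s' := fun _ => L N) (by tauto)]
    refine Finset.sum_congr rfl fun j _ => ?_
    rw [Finset.sum_comm]
  rw [h4, Complex.ofReal_re]

/-- the quadruple form -/
noncomputable def QQ (μ : Measure X) [IsProbabilityMeasure μ] (T : ℕ → X → X) (q : Fin r → ℕ)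
    (a b a' b' : X → ℂ) : ℂ :=
  ⟪tp μ T q a b, PI (koop (rel μ T q) (T2 T)) q (tp μ T q a' b')⟫_ℂ

/-- conjugate -/
noncomputable def cj (a : X → ℂ) : X → ℂ := fun x => (starRingEnd ℂ) (a x)

theorem cj_BM {a : X → ℂ} (ha : BM a) : BM (cj a) := ha.conj

theorem cj_cj (a : X → ℂ) : cj (cj a) = a := by
  funext x; unfold cj; simp

/-- mean squares of the projections -/
theorem lim_proj {κ : Type*} (J : Finset κ) (h : Sys c μ T) (hs : Seq q L ρ d)
    (hI2 : Inv1 (koop (rel μ T q) (T2 T)) q L ρ) {a b : κ → X → ℂ} (ha : ∀ j ∈ J, BM (a j))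
    (hb : ∀ j ∈ J, BM (b j)) :
    Tendsto (fun N : ℕ => (N : ℝ)⁻¹ * ∑ n ∈ L N,
      ‖PI (koop μ T) q (∑ j ∈ J, gv μ T (ρ n) (a j) (b j))‖ ^ 2) atTop
      (𝓝 (d * (∑ j ∈ J, ∑ l ∈ J, QQ μ T q (a j) (cj (a l)) (cj (b j)) (b l)).re)) := by
  have h1 : Tendsto (fun N : ℕ => ∑ j ∈ J, ∑ l ∈ J, ⟪tp μ T q (a j) (cj (a l)),
      avg (koop (rel μ T q) (T2 T)) L ρ N (tp μ T q (cj (b j)) (b l))⟫_ℂ) atTop
      (𝓝 (∑ j ∈ J, ∑ l ∈ J, (d * QQ μ T q (a j) (cj (a l)) (cj (b j)) (b l)))) := by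
    refine tendsto_finsetSum _ fun j hj => tendsto_finsetSum _ fun l hl => ?_
    have h2 := mean_erg (h.prod hs.qpos).FG hs hI2 (tp μ T q (cj (b j)) (b l))
    have h3 := (Tendsto.inner (𝕜 := ℂ) (tendsto_const_nhds
      (x := tp μ T q (a j) (cj (a l)))) h2)
    rw [inner_smul_right] at h3
    exact h3
  have h2 := (Complex.continuous_re.tendsto _).comp h1
  have e2 : (∑ j ∈ J, ∑ l ∈ J, ((d : ℂ) * QQ μ T q (a j) (cj (a l)) (cj (b j)) (b l))).re =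
      d * (∑ j ∈ J, ∑ l ∈ J, QQ μ T q (a j) (cj (a l)) (cj (b j)) (b l)).re := by
    simp only [← Finset.mul_sum]
    rw [Complex.re_ofReal_mul]
  rw [e2] at h2
  refine h2.congr fun N => ?_
  simp only [Function.comp_def]
  have h3 : ∀ n, ∀ j ∈ J, ∀ l ∈ J,
      ⟪tp μ T q (a j) (cj (a l)), koop (rel μ T q) (T2 T) (ρ n) (tp μ T q (cj (b j)) (b l))⟫_ℂ =
      ⟪gv μ T (ρ n) (a j) (b j), PI (koop μ T) q (gv μ T (ρ n) (a l) (b l))⟫_ℂ := by
    intro n j hj l hl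
    have hρ := hs.pos n
    rw [koop_tp h hs.qpos hρ (cj_BM (hb j hj)) (hb l hl)]
    have hm := (h.mp _ hρ).measurable
    unfold tp
    rw [inner_bl (tp_BM (ha j hj) (cj_BM (ha l hl)))
      (tp_BM ((cj_BM (hb j hj)).comp hm) ((hb l hl).comp hm))]
    have h4 := rel_int_bl h hs.qpos (gv_BM h hρ (ha j hj) (hb j hj)).conj
      (gv_BM h hρ (ha l hl) (hb l hl))
    have e1 : (fun x => (starRingEnd ℂ) ((starRingEnd ℂ) (a j x * b j (T (ρ n) x)))) =
        fun x => a j x * b j (T (ρ n) x) := by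
      funext x; simp only [Complex.conj_conj]
    rw [e1] at h4
    change _ = ⟪bl μ (fun x => a j x * b j (T (ρ n) x)),
      PI (koop μ T) q (bl μ (fun x => a l x * b l (T (ρ n) x)))⟫_ℂ
    rw [← h4]
    congr 1
    funext z
    simp only [cj, map_mul, Complex.conj_conj]
    ring
  have h4 : ∑ j ∈ J, ∑ l ∈ J, ⟪tp μ T q (a j) (cj (a l)),
      avg (koop (rel μ T q) (T2 T)) L ρ N (tp μ T q (cj (b j)) (b l))⟫_ℂ =
      (((N : ℝ)⁻¹ * ∑ n ∈ L N,
      ‖PI (koop μ T) q (∑ j ∈ J, gv μ T (ρ n) (a j) (b j))‖ ^ 2 : ℝ) : ℂ) := by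
    push_cast
    have h5 : ∀ n, ((‖PI (koop μ T) q (∑ j ∈ J, gv μ T (ρ n) (a j) (b j))‖ : ℂ)) ^ 2 =
        ∑ j ∈ J, ∑ l ∈ J, ⟪tp μ T q (a j) (cj (a l)),
          koop (rel μ T q) (T2 T) (ρ n) (tp μ T q (cj (b j)) (b l))⟫_ℂ := by
      intro n
      have h6 := inner_self_eq_norm_sq_to_K (𝕜 := ℂ)
        (PI (koop μ T) q (∑ j ∈ J, gv μ T (ρ n) (a j) (b j)))
      rw [PI_self, PI_of_mem (PI_mem _ _), sum_inner] at h6
      rw [← Complex.coe_algebraMap, ← h6]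
      refine Finset.sum_congr rfl fun j hj => ?_
      rw [map_sum, inner_sum]
      exact Finset.sum_congr rfl fun l hl => (h3 n j hj l hl).symm
    simp only [h5]
    unfold avg
    simp only [_root_.smul_apply, inner_smul_right, _root_.sum_apply, inner_sum, Finset.mul_sum]
    symm
    rw [Finset.sum_comm' (s := L N) (t := fun _ => J) (t' := J) (s' := fun _ => L N) (by tauto)]
    refine Finset.sum_congr rfl fun j _ => ?_
    rw [Finset.sum_comm]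
  rw [h4, Complex.ofReal_re]

end

end Pool.Agent.K7.H83.MA
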