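import Pool.Agent.K7.H83.MA.Cube

/-! Cube averages: the symmetry of the quadruple form, and the main estimate. -/

set_option autoImplicit false
set_option linter.unusedSectionVars false

namespace Pool.Agent.K7.H83.MA

open Finset Filter Topology MeasureTheory ProbabilityTheory
open scoped InnerProductSpace ENNReal

variable {X : Type*} [MeasurableSpace X] [StandardBorelSpace X] {μ : Measure X}
  [IsProbabilityMeasure μ]
variable {r : ℕ} {c : ℕ → Fin r} {T : ℕ → X → X} {q : Fin r → ℕ}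
variable {L : ℕ → Finset ℕ} {ρ : ℕ → ℕ} {d : ℝ} {L' : ℕ → Finset ℕ} {ρ' : ℕ → ℕ} {d' : ℝ}

section hilbert
variable {H : Type*} [NormedAddCommGroup H] [InnerProductSpace ℂ H] [CompleteSpace H]

/-- the averages on the invariant vectors -/
theorem avg_IV {u : ℕ → H →L[ℂ] H} (hu : FG c u) (hs : Seq q L ρ d) (N : ℕ) {x : H}
    (hx : x ∈ IV u q) : avg u L ρ N x = ((((L N).card : ℝ) / N : ℝ) : ℂ) • x := by
  unfold avg
  rw [_root_.smul_apply, _root_.sum_apply]
  rw [Finset.sum_congr rfl fun n _ => IV_fix hu hs.qpos (hs.form n) hx, Finset.sum_const,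
    ← Nat.cast_smul_eq_nsmul ℂ, smul_smul]
  congr 1
  push_cast
  ring

theorem PI_avg {u : ℕ → H →L[ℂ] H} (hu : FG c u) (hs : Seq q L ρ d) (N : ℕ) (x : H) :
    PI u q (avg u L ρ N x) = ((((L N).card : ℝ) / N : ℝ) : ℂ) • PI u q x := by
  rw [← avg_IV hu hs N (PI_mem u x)]
  unfold avg
  rw [_root_.smul_apply, _root_.sum_apply, _root_.smul_apply, _root_.sum_apply, map_smul, map_sum]
  congr 1
  exact Finset.sum_congr rfl fun n _ => PI_comm hu hs.qpos (hs.pos n) x

end hilbert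

/-- positivity -/
theorem pos_form {κ : Type*} (J : Finset κ) (h : Sys c μ T) (hs : Seq q L ρ d)
    (hI : Inv1 (koop μ T) q L ρ) (hI2 : Inv1 (koop (rel μ T q) (T2 T)) q L ρ) (hd : 0 < d)
    {a b : κ → X → ℂ} (ha : ∀ j ∈ J, BM (a j)) (hb : ∀ j ∈ J, BM (b j)) :
    (∑ j ∈ J, ∑ l ∈ J, QQ μ T q (a j) (cj (a l)) (cj (b j)) (b l)).re ≤
      (∑ j ∈ J, ∑ l ∈ J, QQ μ T q (a j) (b j) (a l) (b l)).re := by
  set R : ℝ := (∑ j ∈ J, ∑ l ∈ J, QQ μ T q (a j) (cj (a l)) (cj (b j)) (b l)).re with hR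
  set t : Lp ℂ 2 (rel μ T q) := ∑ j ∈ J, tp μ T q (a j) (b j) with ht
  have hF2 := (h.prod hs.qpos).FG
  have hS : (∑ j ∈ J, ∑ l ∈ J, QQ μ T q (a j) (b j) (a l) (b l)).re =
      ‖PI (koop (rel μ T q) (T2 T)) q t‖ ^ 2 := by
    have h1 := inner_self_eq_norm_sq_to_K (𝕜 := ℂ) (PI (koop (rel μ T q) (T2 T)) q t)
    rw [PI_self, PI_of_mem (PI_mem _ _)] at h1
    have h2 : ∑ j ∈ J, ∑ l ∈ J, QQ μ T q (a j) (b j) (a l) (b l) =
        ⟪t, PI (koop (rel μ T q) (T2 T)) q t⟫_ℂ := by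
      rw [ht, sum_inner]
      refine Finset.sum_congr rfl fun j _ => ?_
      rw [map_sum, inner_sum]
      rfl
    rw [h2, h1]
    norm_cast
  rw [hS]
  -- for fixed K
  have hK : ∀ K : ℕ, (((L K).card : ℝ) / K) ^ 2 * (d * R) ≤
      d * ‖avg (koop (rel μ T q) (T2 T)) L ρ K t‖ ^ 2 := by
    intro K
    -- expand the average as a finite sum of tensors
    have hmeas : ∀ k, Measurable (T (ρ k)) := fun k => (h.mp _ (hs.pos k)).measurable
    have e1 : ∀ n, avg (koop μ T) L ρ K (∑ j ∈ J, gv μ T (ρ n) (a j) (b j)) =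
        ∑ x ∈ (L K) ×ˢ J, gv μ T (ρ n) (fun y => (K : ℂ)⁻¹ * a x.2 (T (ρ x.1) y))
          (fun y => b x.2 (T (ρ x.1) y)) := by
      intro n
      unfold avg
      rw [_root_.smul_apply, _root_.sum_apply, Finset.sum_product, Finset.smul_sum]
      refine Finset.sum_congr rfl fun k _ => ?_
      rw [map_sum, Finset.smul_sum]
      refine Finset.sum_congr rfl fun j hj => ?_
      rw [koop_gv h (hs.pos n) (hs.pos k) (ha j hj) (hb j hj)]
      unfold gv
      rw [← bl_smul (((ha j hj).comp (hmeas k)).mul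
        (((hb j hj).comp (hmeas k)).comp (hmeas n)))]
      congr 1
      funext y
      ring
    have e2 : avg (koop (rel μ T q) (T2 T)) L ρ K t =
        ∑ x ∈ (L K) ×ˢ J, tp μ T q (fun y => (K : ℂ)⁻¹ * a x.2 (T (ρ x.1) y))
          (fun y => b x.2 (T (ρ x.1) y)) := by
      unfold avg
      rw [_root_.smul_apply, _root_.sum_apply, Finset.sum_product, Finset.smul_sum]
      refine Finset.sum_congr rfl fun k _ => ?_
      rw [ht, map_sum, Finset.smul_sum]
      refine Finset.sum_congr rfl fun j hj => ?_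
      rw [koop_tp h hs.qpos (hs.pos k) (ha j hj) (hb j hj)]
      unfold tp
      rw [← bl_smul (tp_BM ((ha j hj).comp (hmeas k)) ((hb j hj).comp (hmeas k)))]
      congr 1
      funext y
      ring
    have h1 := lim_sq ((L K) ×ˢ J) h hs hI
      (a := fun x y => (K : ℂ)⁻¹ * a x.2 (T (ρ x.1) y)) (b := fun x y => b x.2 (T (ρ x.1) y))
      (fun x hx => (BM.const _).mul ((ha x.2 (Finset.mem_product.1 hx).2).comp (hmeas _)))
      (fun x hx => (hb x.2 (Finset.mem_product.1 hx).2).comp (hmeas _))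
    rw [← e2] at h1
    have h2 := (lim_proj J h hs hI2 ha hb).const_mul ((((L K).card : ℝ) / K) ^ 2)
    refine le_of_tendsto_of_tendsto' h2 h1 fun N => ?_
    rw [← mul_assoc, mul_comm ((((L K).card : ℝ) / K) ^ 2), mul_assoc, Finset.mul_sum]
    refine mul_le_mul_of_nonneg_left ?_ (by positivity)
    refine Finset.sum_le_sum fun n _ => ?_
    rw [← e1 n]
    have h3 := PI_norm (q := q) (koop μ T)
      (avg (koop μ T) L ρ K (∑ j ∈ J, gv μ T (ρ n) (a j) (b j)))
    rw [PI_avg h.FG hs, norm_smul, Complex.norm_real] at h3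
    have h4 := pow_le_pow_left₀ (by positivity) h3 2
    rw [mul_pow, Real.norm_eq_abs, sq_abs] at h4
    exact h4
  have h3 : Tendsto (fun K : ℕ => (((L K).card : ℝ) / K) ^ 2 * (d * R)) atTop
      (𝓝 (d ^ 2 * (d * R))) := (hs.dens.pow 2).mul_const _
  have h4 := (mean_erg hF2 hs hI2 t).norm.pow 2 |>.const_mul d
  have h5 := le_of_tendsto_of_tendsto' h3 h4 hK
  rw [norm_smul, Complex.norm_real, Real.norm_of_nonneg hd.le, mul_pow] at h5
  have h6 : d ^ 3 * R ≤ d ^ 3 * ‖PI (koop (rel μ T q) (T2 T)) q t‖ ^ 2 := by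
    calc d ^ 3 * R = d ^ 2 * (d * R) := by ring
      _ ≤ _ := h5
      _ = _ := by ring
  exact le_of_mul_le_mul_left h6 (by positivity)

/-- the symmetry of the quadruple form -/
theorem sym_form (h : Sys c μ T) (hs : Seq q L ρ d)
    (hI : Inv1 (koop μ T) q L ρ) (hI2 : Inv1 (koop (rel μ T q) (T2 T)) q L ρ) (hd : 0 < d)
    {a b : X → ℂ} (ha : BM a) (hb : BM b) :
    (QQ μ T q a b a b).re = (QQ μ T q a (cj a) (cj b) b).re := by
  -- the vectors `e`
  let e : Fin 2 → X → ℂ := fun j => if j = 0 then a else cj b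
  have he : ∀ j, BM (e j) := by
    intro j
    simp only [e]
    split_ifs
    exacts [ha, cj_BM hb]
  have h1 : ∀ j l : Fin 2, (QQ μ T q (e j) (cj (e j)) (e l) (cj (e l))).re ≤
      (QQ μ T q (e j) (cj (e l)) (e j) (cj (e l))).re := by
    intro j l
    have := pos_form (Finset.univ : Finset (Fin 1)) h hs hI hI2 hd (a := fun _ => e j)
      (b := fun _ => cj (e l)) (fun _ _ => he j) (fun _ _ => cj_BM (he l))
    simpa [cj_cj] using this
  have h2 := pos_form (Finset.univ : Finset (Fin 2)) h hs hI hI2 hd (a := e)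
      (b := fun j => cj (e j)) (fun j _ => he j) (fun j _ => cj_BM (he j))
  simp only [cj_cj, Fin.sum_univ_two, Complex.add_re] at h2
  have h00 := h1 0 0
  have h01 := h1 0 1
  have h10 := h1 1 0
  have h11 := h1 1 1
  have e0 : e 0 = a := by simp [e]
  have e1 : e 1 = cj b := by simp [e]
  have h3 : (QQ μ T q (e 0) (cj (e 1)) (e 0) (cj (e 1))).re ≤
      (QQ μ T q (e 0) (cj (e 0)) (e 1) (cj (e 1))).re := by linarith
  have h4 := le_antisymm h3 h01
  rw [e0, e1, cj_cj] at h4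
  exact h4

end Pool.Agent.K7.H83.MA
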