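import Pool.Agent.K7.H83.MA.Cube2

/-! Cube averages: convergence. -/

set_option autoImplicit false
set_option linter.unusedSectionVars false

namespace Pool.Agent.K7.H83.MA

open Finset Filter Topology MeasureTheory ProbabilityTheory
open scoped InnerProductSpace ENNReal

variable {X : Type*} [MeasurableSpace X] [StandardBorelSpace X] {μ : Measure X}
  [IsProbabilityMeasure μ]
variable {r : ℕ} {c : ℕ → Fin r} {T : ℕ → X → X} {q : Fin r → ℕ}
variable {L : ℕ → Finset ℕ} {ρ : ℕ → ℕ} {d : ℝ} {L' : ℕ → Finset ℕ} {ρ' : ℕ → ℕ} {d' : ℝ}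

theorem avg_gv (h : Sys c μ T) (hs' : Seq q L' ρ' d') {s : ℕ} (hs : 0 < s) (K : ℕ) {a b : X → ℂ}
    (ha : BM a) (hb : BM b) : avg (koop μ T) L' ρ' K (gv μ T s a b) =
      ∑ k ∈ L' K, gv μ T s (fun y => (K : ℂ)⁻¹ * a (T (ρ' k) y)) (fun y => b (T (ρ' k) y)) := by
  have hmeas : ∀ k, Measurable (T (ρ' k)) := fun k => (h.mp _ (hs'.pos k)).measurable
  unfold avg
  rw [_root_.smul_apply, _root_.sum_apply, Finset.smul_sum]
  refine Finset.sum_congr rfl fun k _ => ?_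
  rw [koop_gv h hs (hs'.pos k) ha hb]
  unfold gv
  rw [← bl_smul ((ha.comp (hmeas k)).mul ((hb.comp (hmeas k)).comp (h.mp s hs).measurable))]
  congr 1
  funext y
  ring

theorem avg_tp (h : Sys c μ T) (hs' : Seq q L' ρ' d') (K : ℕ) {a b : X → ℂ}
    (ha : BM a) (hb : BM b) : avg (koop (rel μ T q) (T2 T)) L' ρ' K (tp μ T q a b) =
      ∑ k ∈ L' K, tp μ T q (fun y => (K : ℂ)⁻¹ * a (T (ρ' k) y)) (fun y => b (T (ρ' k) y)) := by
  have hmeas : ∀ k, Measurable (T (ρ' k)) := fun k => (h.mp _ (hs'.pos k)).measurable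
  unfold avg
  rw [_root_.smul_apply, _root_.sum_apply, Finset.smul_sum]
  refine Finset.sum_congr rfl fun k _ => ?_
  rw [koop_tp h hs'.qpos (hs'.pos k) ha hb]
  unfold tp
  rw [← bl_smul (tp_BM (ha.comp (hmeas k)) (hb.comp (hmeas k)))]
  congr 1
  funext y
  ring

/-- the mean square defect for a fixed inner average -/
theorem lim_defect (h : Sys c μ T) (hs : Seq q L ρ d) (hI : Inv1 (koop μ T) q L ρ)
    (hI2 : Inv1 (koop (rel μ T q) (T2 T)) q L ρ) (hd : 0 < d) (hs' : Seq q L' ρ' d') (K : ℕ)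
    {a b : X → ℂ} (ha : BM a) (hb : BM b) :
    Tendsto (fun N : ℕ => (N : ℝ)⁻¹ * ∑ n ∈ L N, ‖avg (koop μ T) L' ρ' K
      (gv μ T (ρ n) a b - PI (koop μ T) q (gv μ T (ρ n) a b))‖ ^ 2) atTop
      (𝓝 (d * (‖avg (koop (rel μ T q) (T2 T)) L' ρ' K (tp μ T q a b)‖ ^ 2 -
        (((L' K).card : ℝ) / K) ^ 2 * ‖PI (koop (rel μ T q) (T2 T)) q (tp μ T q a b)‖ ^ 2))) := by
  have hmeas : ∀ k, Measurable (T (ρ' k)) := fun k => (h.mp _ (hs'.pos k)).measurable
  have h1 := lim_sq (L' K) h hs hI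
      (a := fun k y => (K : ℂ)⁻¹ * a (T (ρ' k) y)) (b := fun k y => b (T (ρ' k) y))
      (fun k _ => (BM.const _).mul (ha.comp (hmeas _))) (fun k _ => hb.comp (hmeas _))
  rw [← avg_tp h hs' K ha hb] at h1
  have h2 := lim_proj (Finset.univ : Finset (Fin 1)) h hs hI2 (a := fun _ => a) (b := fun _ => b)
    (fun _ _ => ha) (fun _ _ => hb)
  simp only [Finset.univ_unique, Fin.default_eq_zero, Finset.sum_singleton] at h2
  rw [← sym_form h hs hI hI2 hd ha hb] at h2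
  have e1 : (QQ μ T q a b a b).re =
      ‖PI (koop (rel μ T q) (T2 T)) q (tp μ T q a b)‖ ^ 2 := by
    have h3 := inner_self_eq_norm_sq_to_K (𝕜 := ℂ)
      (PI (koop (rel μ T q) (T2 T)) q (tp μ T q a b))
    rw [PI_self, PI_of_mem (PI_mem _ _)] at h3
    unfold QQ
    rw [h3]
    norm_cast
  rw [e1] at h2
  have h3 := h1.sub (h2.const_mul ((((L' K).card : ℝ) / K) ^ 2))
  have e2 : d * ‖avg (koop (rel μ T q) (T2 T)) L' ρ' K (tp μ T q a b)‖ ^ 2 -
      (((L' K).card : ℝ) / K) ^ 2 * (d * ‖PI (koop (rel μ T q) (T2 T)) q (tp μ T q a b)‖ ^ 2) =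
      d * (‖avg (koop (rel μ T q) (T2 T)) L' ρ' K (tp μ T q a b)‖ ^ 2 -
        (((L' K).card : ℝ) / K) ^ 2 * ‖PI (koop (rel μ T q) (T2 T)) q (tp μ T q a b)‖ ^ 2) := by
    ring
  rw [e2] at h3
  refine h3.congr fun N => ?_
  have h5 : ∀ n, ‖avg (koop μ T) L' ρ' K
      (gv μ T (ρ n) a b - PI (koop μ T) q (gv μ T (ρ n) a b))‖ ^ 2 =
      ‖∑ k ∈ L' K, gv μ T (ρ n) (fun y => (K : ℂ)⁻¹ * a (T (ρ' k) y))
        (fun y => b (T (ρ' k) y))‖ ^ 2 -
      (((L' K).card : ℝ) / K) ^ 2 * ‖PI (koop μ T) q (gv μ T (ρ n) a b)‖ ^ 2 := by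
    intro n
    rw [← avg_gv h hs' (hs.pos n) K ha hb]
    have h4 : avg (koop μ T) L' ρ' K (gv μ T (ρ n) a b - PI (koop μ T) q (gv μ T (ρ n) a b)) =
        avg (koop μ T) L' ρ' K (gv μ T (ρ n) a b) -
          PI (koop μ T) q (avg (koop μ T) L' ρ' K (gv μ T (ρ n) a b)) := by
      rw [map_sub, avg_IV h.FG hs' K (PI_mem _ _), PI_avg h.FG hs']
    rw [h4, PI_pyth, PI_avg h.FG hs', norm_smul, Complex.norm_real, mul_pow, Real.norm_eq_abs,
      sq_abs]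
  simp only [h5, Finset.sum_sub_distrib, ← Finset.mul_sum]
  ring

/-- the limit of the defects -/
theorem defect_zero (h : Sys c μ T) (hs' : Seq q L' ρ' d')
    (hI2' : Inv1 (koop (rel μ T q) (T2 T)) q L' ρ') (t : Lp ℂ 2 (rel μ T q)) :
    Tendsto (fun K : ℕ => ‖avg (koop (rel μ T q) (T2 T)) L' ρ' K t‖ ^ 2 -
        (((L' K).card : ℝ) / K) ^ 2 * ‖PI (koop (rel μ T q) (T2 T)) q t‖ ^ 2) atTop (𝓝 0) := by
  have h1 := (mean_erg (h.prod hs'.qpos).FG hs' hI2' t).norm.pow 2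
  have h2 := (hs'.dens.pow 2).mul_const (‖PI (koop (rel μ T q) (T2 T)) q t‖ ^ 2)
  have h3 := h1.sub h2
  rw [norm_smul, Complex.norm_real, mul_pow, Real.norm_eq_abs, sq_abs, sub_self] at h3
  exact h3

/-- the inner average is almost absorbed -/
theorem absorb {H : Type*} [NormedAddCommGroup H] [InnerProductSpace ℂ H] [CompleteSpace H]
    {u : ℕ → H →L[ℂ] H} (hu : FG c u) (hs' : Seq q L' ρ' d') (hI' : Inv1 u q L' ρ') (K : ℕ)
    (hK : 0 < ((L' K).card : ℝ) / K) :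
    ∃ δ : ℕ → ℝ, Tendsto δ atTop (𝓝 0) ∧ ∀ N, ∀ y : H,
      ‖avg u L' ρ' N y‖ ≤ δ N * ‖y‖ + (((L' K).card : ℝ) / K)⁻¹ * ‖avg u L' ρ' K y‖ := by
  have hcard : 0 < (L' K).card := by
    rcases Nat.eq_zero_or_pos (L' K).card with h0 | h0
    · rw [h0] at hK; simp at hK
    · exact h0
  have hKpos : 0 < K := by
    rcases Nat.eq_zero_or_pos K with h0 | h0
    · rw [h0] at hK; simp at hK
    · exact h0
  refine ⟨fun N => ((L' K).card : ℝ)⁻¹ * ∑ k ∈ L' K, ‖avg u L' ρ' N * (1 - u (ρ' k))‖, ?_,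
    fun N y => ?_⟩
  · have h1 : Tendsto (fun N => ∑ k ∈ L' K, ‖avg u L' ρ' N * (1 - u (ρ' k))‖) atTop
        (𝓝 (∑ k ∈ L' K, (0 : ℝ))) :=
      tendsto_finsetSum _ fun k _ => avg_inv hu hs' hI' (ρ' k) (hs'.form k)
    rw [Finset.sum_const_zero] at h1
    have := h1.const_mul (((L' K).card : ℝ)⁻¹)
    rwa [mul_zero] at this
  · set e : ℂ := ((((L' K).card : ℝ) / K : ℝ) : ℂ) with he
    have he0 : e ≠ 0 := by rw [he]; exact_mod_cast hK.ne'
    have h1 : avg u L' ρ' N y = (((L' K).card : ℂ)⁻¹ •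
        ∑ k ∈ L' K, (avg u L' ρ' N * (1 - u (ρ' k)))) y +
        avg u L' ρ' N (e⁻¹ • avg u L' ρ' K y) := by
      have h2 : e⁻¹ • avg u L' ρ' K y = ((L' K).card : ℂ)⁻¹ • ∑ k ∈ L' K, u (ρ' k) y := by
        unfold avg
        rw [_root_.smul_apply, _root_.sum_apply, smul_smul]
        congr 1
        rw [he]
        push_cast
        have h3 : (K : ℂ) ≠ 0 := by exact_mod_cast hKpos.ne'
        have h4 : ((L' K).card : ℂ) ≠ 0 := by exact_mod_cast hcard.ne'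
        field_simp
      have h5 : (∑ k ∈ L' K, (avg u L' ρ' N * (1 - u (ρ' k)))) y =
          ((L' K).card : ℂ) • avg u L' ρ' N y - avg u L' ρ' N (∑ k ∈ L' K, u (ρ' k) y) := by
        rw [_root_.sum_apply]
        have h6 : ∀ k ∈ L' K, (avg u L' ρ' N * (1 - u (ρ' k))) y =
            avg u L' ρ' N y - avg u L' ρ' N (u (ρ' k) y) := by
          intro k _
          change avg u L' ρ' N (y - u (ρ' k) y) = _
          rw [map_sub]
        rw [Finset.sum_congr rfl h6, Finset.sum_sub_distrib, Finset.sum_const, map_sum,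
          Nat.cast_smul_eq_nsmul]
      have h7 : ((L' K).card : ℂ) ≠ 0 := by exact_mod_cast hcard.ne'
      rw [h2, _root_.smul_apply, h5, smul_sub, smul_smul, inv_mul_cancel₀ h7, one_smul, map_smul]
      abel
    rw [h1]
    refine (norm_add_le _ _).trans (add_le_add ?_ ?_)
    · refine (ContinuousLinearMap.le_opNorm _ _).trans ?_
      refine mul_le_mul_of_nonneg_right ?_ (norm_nonneg _)
      rw [norm_smul, norm_inv, Complex.norm_natCast]
      refine mul_le_mul_of_nonneg_left (norm_sum_le _ _) (by positivity)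
    · refine (ContinuousLinearMap.le_opNorm _ _).trans ?_
      have h8 : ‖e⁻¹ • avg u L' ρ' K y‖ = (((L' K).card : ℝ) / K)⁻¹ * ‖avg u L' ρ' K y‖ := by
        rw [norm_smul, norm_inv, he, Complex.norm_real, Real.norm_of_nonneg hK.le]
      rw [h8]
      calc _ ≤ 1 * ((((L' K).card : ℝ) / K)⁻¹ * ‖avg u L' ρ' K y‖) :=
            mul_le_mul_of_nonneg_right (avg_norm hu hs' N) (by positivity)
        _ = _ := one_mul _

/-- the double averages -/
noncomputable def CN (μ : Measure X) [IsProbabilityMeasure μ] (T : ℕ → X → X)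
    (L : ℕ → Finset ℕ) (ρ : ℕ → ℕ) (L' : ℕ → Finset ℕ) (ρ' : ℕ → ℕ) (F1 F2 F4 : X → ℂ) (N : ℕ) :
    Lp ℂ 2 μ :=
  (N : ℂ)⁻¹ • ∑ m ∈ L N, mulB μ (fun x => F1 (T (ρ m) x))
    (avg (koop μ T) L' ρ' N (gv μ T (ρ m) F2 F4))

/-- the limiting averages -/
noncomputable def VN (μ : Measure X) [IsProbabilityMeasure μ] (T : ℕ → X → X) (q : Fin r → ℕ)
    (L : ℕ → Finset ℕ) (ρ : ℕ → ℕ) (F1 F2 F4 : X → ℂ) (N : ℕ) : Lp ℂ 2 μ :=
  (N : ℂ)⁻¹ • ∑ m ∈ L N, mulB μ (fun x => F1 (T (ρ m) x))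
    (PI (koop μ T) q (gv μ T (ρ m) F2 F4))

theorem sq_avg_le {L : ℕ → Finset ℕ} (hL : ∀ N, L N ⊆ Ioc 0 N) (N : ℕ) (x : ℕ → ℝ) :
    ((N : ℝ)⁻¹ * ∑ m ∈ L N, x m) ^ 2 ≤ (N : ℝ)⁻¹ * ∑ m ∈ L N, x m ^ 2 := by
  rcases Nat.eq_zero_or_pos N with h0 | h0
  · subst h0; simp
  have hN : (0 : ℝ) < N := by exact_mod_cast h0
  have h1 := sq_sum_le_card_mul_sum_sq (s := L N) (f := x)
  have h2 : ((L N).card : ℝ) ≤ N := by
    have := Finset.card_le_card (hL N)
    rw [Nat.card_Ioc] at this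
    exact_mod_cast this
  have h3 : 0 ≤ ∑ m ∈ L N, x m ^ 2 := Finset.sum_nonneg fun _ _ => by positivity
  have h4 : (∑ m ∈ L N, x m) ^ 2 ≤ N * ∑ m ∈ L N, x m ^ 2 :=
    h1.trans (mul_le_mul_of_nonneg_right h2 h3)
  calc ((N : ℝ)⁻¹ * ∑ m ∈ L N, x m) ^ 2 = ((N : ℝ)⁻¹) ^ 2 * (∑ m ∈ L N, x m) ^ 2 := by ring
    _ ≤ ((N : ℝ)⁻¹) ^ 2 * (N * ∑ m ∈ L N, x m ^ 2) :=
        mul_le_mul_of_nonneg_left h4 (by positivity)
    _ = _ := by field_simp

theorem CN_VN (h : Sys c μ T) (hs : Seq q L ρ d) (hI : Inv1 (koop μ T) q L ρ)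
    (hI2 : Inv1 (koop (rel μ T q) (T2 T)) q L ρ) (hd : 0 < d) (hs' : Seq q L' ρ' d')
    (hI' : Inv1 (koop μ T) q L' ρ') (hI2' : Inv1 (koop (rel μ T q) (T2 T)) q L' ρ') (hd' : 0 < d')
    {F1 F2 F4 : X → ℂ} (h1 : BM F1) (h2 : BM F2) (h4 : BM F4) :
    Tendsto (fun N => CN μ T L ρ L' ρ' F1 F2 F4 N -
      ((((L' N).card : ℝ) / N : ℝ) : ℂ) • VN μ T q L ρ F1 F2 F4 N) atTop (𝓝 0) := by
  obtain ⟨C1, hC1, hF1⟩ := h1.2
  obtain ⟨C2, hC2, hF2⟩ := h2.2
  obtain ⟨C4, hC4, hF4⟩ := h4.2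
  set y : ℕ → Lp ℂ 2 μ := fun n => gv μ T (ρ n) F2 F4 - PI (koop μ T) q (gv μ T (ρ n) F2 F4)
    with hy
  have hyb : ∀ n, ‖y n‖ ≤ 2 * (C2 * C4) := by
    intro n
    have h5 : ‖gv μ T (ρ n) F2 F4‖ ≤ C2 * C4 := by
      unfold gv
      refine bl_norm_le (gv_BM h (hs.pos n) h2 h4) (by positivity) fun x => ?_
      rw [norm_mul]
      exact mul_le_mul (hF2 x) (hF4 _) (norm_nonneg _) hC2
    have h6 := PI_norm (q := q) (koop μ T) (gv μ T (ρ n) F2 F4)
    refine (norm_sub_le _ _).trans ?_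
    linarith
  rw [Metric.tendsto_atTop]
  intro ε hε
  -- choose `η`
  set η : ℝ := (ε * d' / (8 * (C1 + 1))) with hη
  have hη0 : 0 < η := by positivity
  -- choose `K`
  obtain ⟨K, hKd, hKdef⟩ : ∃ K : ℕ, d' / 2 < ((L' K).card : ℝ) / K ∧
      d * (‖avg (koop (rel μ T q) (T2 T)) L' ρ' K (tp μ T q F2 F4)‖ ^ 2 -
        (((L' K).card : ℝ) / K) ^ 2 * ‖PI (koop (rel μ T q) (T2 T)) q (tp μ T q F2 F4)‖ ^ 2)
        < η ^ 2 := by
    have h5 := (defect_zero h hs' hI2' (tp μ T q F2 F4)).const_mul d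
    rw [mul_zero] at h5
    have h6 := h5.eventually (gt_mem_nhds (show (0 : ℝ) < η ^ 2 by positivity))
    have h7 := hs'.dens.eventually (lt_mem_nhds (show d' / 2 < d' by linarith))
    exact (h7.and h6).exists
  have hK0 : 0 < ((L' K).card : ℝ) / K := by linarith
  obtain ⟨δ, hδ, habs⟩ := absorb h.FG hs' hI' K hK0
  have h5 := (lim_defect h hs hI hI2 hd hs' K h2 h4).eventually (gt_mem_nhds hKdef)
  have h6 : Tendsto (fun N => C1 * (|δ N| * (2 * (C2 * C4)))) atTop (𝓝 (C1 * (|(0 : ℝ)| * (2 * (C2 * C4))))) :=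
    (hδ.abs.mul_const _).const_mul _
  rw [abs_zero, zero_mul, mul_zero] at h6
  have h7 := h6.eventually (gt_mem_nhds (show (0 : ℝ) < ε / 2 by positivity))
  obtain ⟨N₀, hN₀⟩ := eventually_atTop.1 (h5.and h7)
  refine ⟨N₀ + 1, fun N hN => ?_⟩
  obtain ⟨h8, h9⟩ := hN₀ N (by omega)
  have hNpos : (0 : ℝ) < N := by exact_mod_cast (by omega : 0 < N)
  rw [dist_zero_right]
  have e1 : CN μ T L ρ L' ρ' F1 F2 F4 N -
      ((((L' N).card : ℝ) / N : ℝ) : ℂ) • VN μ T q L ρ F1 F2 F4 N =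
      (N : ℂ)⁻¹ • ∑ m ∈ L N, mulB μ (fun x => F1 (T (ρ m) x))
        (avg (koop μ T) L' ρ' N (y m)) := by
    unfold CN VN
    rw [smul_comm, ← smul_sub, Finset.smul_sum, ← Finset.sum_sub_distrib]
    congr 1
    refine Finset.sum_congr rfl fun m _ => ?_
    rw [← map_smul, ← map_sub]
    congr 1
    rw [hy]
    simp only
    rw [map_sub, avg_IV h.FG hs' N (PI_mem _ _)]
  rw [e1, norm_smul, norm_inv, Complex.norm_natCast]
  set S : ℝ := (N : ℝ)⁻¹ * ∑ m ∈ L N, ‖avg (koop μ T) L' ρ' K (y m)‖ with hS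
  have hS0 : 0 ≤ S := by positivity
  have hSη : S ≤ η := by
    have h10 := sq_avg_le hs.sub N (fun m => ‖avg (koop μ T) L' ρ' K (y m)‖)
    have h11 : S ^ 2 ≤ η ^ 2 := h10.trans h8.le
    exact (sq_le_sq₀ hS0 hη0.le).1 h11
  have h12 : ‖∑ m ∈ L N, mulB μ (fun x => F1 (T (ρ m) x)) (avg (koop μ T) L' ρ' N (y m))‖ ≤
      ∑ m ∈ L N, (C1 * (|δ N| * (2 * (C2 * C4))) +
        C1 * ((d' / 2)⁻¹ * ‖avg (koop μ T) L' ρ' K (y m)‖)) := by
    refine (norm_sum_le _ _).trans (Finset.sum_le_sum fun m _ => ?_)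
    refine (mulB_norm (h1.comp (h.mp _ (hs.pos m)).measurable) (fun x => hF1 _) _).trans ?_
    rw [← mul_add]
    refine mul_le_mul_of_nonneg_left ?_ hC1
    refine (habs N (y m)).trans (add_le_add ?_ ?_)
    · exact mul_le_mul (le_abs_self _) (hyb m) (norm_nonneg _) (abs_nonneg _)
    · refine mul_le_mul_of_nonneg_right ?_ (norm_nonneg _)
      exact inv_anti₀ (by positivity) hKd.le
  have hcard : ((L N).card : ℝ) ≤ N := by
    have := Finset.card_le_card (hs.sub N)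
    rw [Nat.card_Ioc] at this
    exact_mod_cast this
  have h13 : (N : ℝ)⁻¹ * ∑ m ∈ L N, (C1 * (|δ N| * (2 * (C2 * C4))) +
        C1 * ((d' / 2)⁻¹ * ‖avg (koop μ T) L' ρ' K (y m)‖)) ≤
      C1 * (|δ N| * (2 * (C2 * C4))) + C1 * ((d' / 2)⁻¹ * S) := by
    rw [Finset.sum_add_distrib, Finset.sum_const, nsmul_eq_mul, mul_add]
    refine add_le_add ?_ (le_of_eq ?_)
    · have : (0 : ℝ) ≤ C1 * (|δ N| * (2 * (C2 * C4))) := by positivity
      calc _ ≤ (N : ℝ)⁻¹ * (N * (C1 * (|δ N| * (2 * (C2 * C4))))) :=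
            mul_le_mul_of_nonneg_left (mul_le_mul_of_nonneg_right hcard this) (by positivity)
        _ = _ := by field_simp
    · rw [hS, ← Finset.mul_sum, ← Finset.mul_sum]
      ring
  have h14 : C1 * ((d' / 2)⁻¹ * S) ≤ ε / 4 := by
    calc C1 * ((d' / 2)⁻¹ * S) ≤ (C1 + 1) * ((d' / 2)⁻¹ * η) := by
          refine mul_le_mul (by linarith) (mul_le_mul_of_nonneg_left hSη (by positivity))
            (by positivity) (by positivity)
      _ = ε / 4 := by rw [hη]; field_simp; ring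
  calc _ ≤ (N : ℝ)⁻¹ * ∑ m ∈ L N, (C1 * (|δ N| * (2 * (C2 * C4))) +
        C1 * ((d' / 2)⁻¹ * ‖avg (koop μ T) L' ρ' K (y m)‖)) :=
        mul_le_mul_of_nonneg_left h12 (by positivity)
    _ ≤ _ := h13
    _ < ε := by linarith

/-- the embedding of the first coordinate -/
noncomputable def JJ (μ : Measure X) [IsProbabilityMeasure μ] (T : ℕ → X → X) (q : Fin r → ℕ) :
    Lp ℂ 2 μ →L[ℂ] Lp ℂ 2 (rel μ T q) :=
  (Lp.compMeasurePreservingₗᵢ ℂ Prod.fst (rel_fst (μ := μ) (T := T) (q := q))).toContinuousLinearMap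

theorem JJ_coe (f : Lp ℂ 2 μ) : JJ μ T q f =ᵐ[rel μ T q] fun z => f z.1 :=
  Lp.coeFn_compMeasurePreserving f rel_fst

theorem JJ_adj (h : Sys c μ T) (hq : ∀ i, 0 < q i) {a b : X → ℂ} (ha : BM a) (hb : BM b) :
    ContinuousLinearMap.adjoint (JJ μ T q) (tp μ T q a b) =
      mulB μ a (PI (koop μ T) q (bl μ b)) := by
  refine ext_inner_left ℂ fun f => ?_
  rw [ContinuousLinearMap.adjoint_inner_right, L2.inner_def, L2.inner_def]
  have h1 : Integrable (fun x => (starRingEnd ℂ) (f x) * a x) μ := by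
    obtain ⟨ham, C, hC, haC⟩ := ha
    have h2 : Integrable (fun x => f x) μ := (Lp.memLp f).integrable (by norm_num)
    have h3 : Integrable (fun x => (starRingEnd ℂ) (f x)) μ := by
      refine h2.mono (Complex.continuous_conj.comp_aestronglyMeasurable h2.1)
        (Eventually.of_forall fun x => ?_)
      rw [RCLike.norm_conj]
    have h4 := h3.bdd_mul (f := a) (c := C) ham.aestronglyMeasurable (Eventually.of_forall haC)
    refine h4.congr (Eventually.of_forall fun x => ?_)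
    simp only [mul_comm]
  have h2 := rel_int h hq h1 hb
  have h3 : ∫ z, ⟪JJ μ T q f z, tp μ T q a b z⟫_ℂ ∂(rel μ T q) =
      ∫ z, (starRingEnd ℂ) (f z.1) * a z.1 * b z.2 ∂(rel μ T q) := by
    refine integral_congr_ae ?_
    filter_upwards [JJ_coe (T := T) (q := q) f, bl_coe (tp_BM ha hb)] with z hz1 hz2
    have hz2' : tp μ T q a b z = a z.1 * b z.2 := hz2
    rw [RCLike.inner_apply, hz1, hz2']
    ring
  rw [h3, h2]
  refine integral_congr_ae ?_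
  filter_upwards [mulB_coe ha (PI (koop μ T) q (bl μ b))] with x hx
  rw [RCLike.inner_apply, hx]
  ring

theorem VN_lim (h : Sys c μ T) (hs : Seq q L ρ d)
    (hI2 : Inv1 (koop (rel μ T q) (T2 T)) q L ρ)
    {F1 F2 F4 : X → ℂ} (h1 : BM F1) (h2 : BM F2) (h4 : BM F4) :
    ∃ V : Lp ℂ 2 μ, Tendsto (fun N => VN μ T q L ρ F1 F2 F4 N) atTop (𝓝 V) := by
  have h5 := mean_erg (h.prod hs.qpos).FG hs hI2 (tp μ T q F1 F4)
  have h6 := ((ContinuousLinearMap.adjoint (JJ μ T q)).continuous.tendsto _).comp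
    (((mulB (rel μ T q) (fun z => F2 z.2)).continuous.tendsto _).comp h5)
  refine ⟨_, h6.congr fun N => ?_⟩
  simp only [Function.comp_def]
  unfold VN avg
  rw [_root_.smul_apply, _root_.sum_apply, map_smul, map_smul, map_sum, map_sum]
  congr 1
  refine Finset.sum_congr rfl fun m _ => ?_
  have hm := (h.mp _ (hs.pos m)).measurable
  rw [koop_tp h hs.qpos (hs.pos m) h1 h4]
  have e1 : mulB (rel μ T q) (fun z => F2 z.2)
      (tp μ T q (fun x => F1 (T (ρ m) x)) (fun x => F4 (T (ρ m) x))) =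
      tp μ T q (fun x => F1 (T (ρ m) x)) (fun x => F2 x * F4 (T (ρ m) x)) := by
    unfold tp
    rw [mulB_bl (h2.comp measurable_snd) (tp_BM (h1.comp hm) (h4.comp hm))]
    congr 1
    funext z
    ring
  rw [e1, JJ_adj h hs.qpos (h1.comp hm) (h2.mul (h4.comp hm))]
  rfl

/-- convergence of the cube averages -/
theorem cube (h : Sys c μ T) (hs : Seq q L ρ d) (hI : Inv1 (koop μ T) q L ρ)
    (hI2 : Inv1 (koop (rel μ T q) (T2 T)) q L ρ) (hs' : Seq q L' ρ' d')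
    (hI' : Inv1 (koop μ T) q L' ρ') (hI2' : Inv1 (koop (rel μ T q) (T2 T)) q L' ρ')
    {F1 F2 F4 : X → ℂ} (h1 : BM F1) (h2 : BM F2) (h4 : BM F4) :
    ∃ V : Lp ℂ 2 μ, Tendsto (fun N => CN μ T L ρ L' ρ' F1 F2 F4 N) atTop (𝓝 V) := by
  obtain ⟨C1, hC1, hF1⟩ := h1.2
  obtain ⟨C2, hC2, hF2⟩ := h2.2
  obtain ⟨C4, hC4, hF4⟩ := h4.2
  have hgv : ∀ n, ‖gv μ T (ρ n) F2 F4‖ ≤ C2 * C4 := by
    intro n
    unfold gv
    refine bl_norm_le (gv_BM h (hs.pos n) h2 h4) (by positivity) fun x => ?_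
    rw [norm_mul]
    exact mul_le_mul (hF2 x) (hF4 _) (norm_nonneg _) hC2
  have hCN : ∀ N, ‖CN μ T L ρ L' ρ' F1 F2 F4 N‖ ≤
      ((L N).card : ℝ) / N * (C1 * ((((L' N).card : ℝ) / N) * (C2 * C4))) := by
    intro N
    unfold CN
    rw [norm_smul, norm_inv, Complex.norm_natCast]
    have h5 : ‖∑ m ∈ L N, mulB μ (fun x => F1 (T (ρ m) x))
        (avg (koop μ T) L' ρ' N (gv μ T (ρ m) F2 F4))‖ ≤
        ∑ m ∈ L N, (C1 * ((((L' N).card : ℝ) / N) * (C2 * C4))) := by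
      refine (norm_sum_le _ _).trans (Finset.sum_le_sum fun m _ => ?_)
      refine (mulB_norm (h1.comp (h.mp _ (hs.pos m)).measurable) (fun x => hF1 _) _).trans ?_
      refine mul_le_mul_of_nonneg_left ?_ hC1
      unfold avg
      rw [_root_.smul_apply, norm_smul, norm_inv, Complex.norm_natCast, _root_.sum_apply]
      have h6 : ‖∑ n ∈ L' N, koop μ T (ρ' n) (gv μ T (ρ m) F2 F4)‖ ≤
          ∑ n ∈ L' N, (C2 * C4) := by
        refine (norm_sum_le _ _).trans (Finset.sum_le_sum fun n _ => ?_)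
        rw [koop_norm (h.mp _ (hs'.pos n))]
        exact hgv m
      rw [Finset.sum_const, nsmul_eq_mul] at h6
      calc _ ≤ (N : ℝ)⁻¹ * ((L' N).card * (C2 * C4)) :=
            mul_le_mul_of_nonneg_left h6 (by positivity)
        _ = _ := by ring
    rw [Finset.sum_const, nsmul_eq_mul] at h5
    calc _ ≤ (N : ℝ)⁻¹ * ((L N).card * (C1 * ((((L' N).card : ℝ) / N) * (C2 * C4)))) :=
          mul_le_mul_of_nonneg_left h5 (by positivity)
      _ = _ := by ring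
  have hlim : Tendsto (fun N : ℕ => ((L N).card : ℝ) / N *
      (C1 * ((((L' N).card : ℝ) / N) * (C2 * C4)))) atTop (𝓝 (d * (C1 * (d' * (C2 * C4))))) :=
    hs.dens.mul ((hs'.dens.mul_const _).const_mul _)
  have hd0 : 0 ≤ d := ge_of_tendsto' hs.dens fun N => by positivity
  have hd0' : 0 ≤ d' := ge_of_tendsto' hs'.dens fun N => by positivity
  rcases hd0.eq_or_lt with hd | hd
  · refine ⟨0, squeeze_zero_norm hCN ?_⟩
    rw [← hd, zero_mul] at hlim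
    exact hlim
  rcases hd0'.eq_or_lt with hd' | hd'
  · refine ⟨0, squeeze_zero_norm hCN ?_⟩
    rw [← hd', zero_mul, mul_zero, mul_zero] at hlim
    exact hlim
  obtain ⟨V, hV⟩ := VN_lim h hs hI2 h1 h2 h4
  have h5 := CN_VN h hs hI hI2 hd hs' hI' hI2' hd' h1 h2 h4
  have h6 : Tendsto (fun N : ℕ => ((((L' N).card : ℝ) / N : ℝ) : ℂ) • VN μ T q L ρ F1 F2 F4 N)
      atTop (𝓝 ((d' : ℂ) • V)) :=
    ((Complex.continuous_ofReal.tendsto _).comp hs'.dens).smul hV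
  refine ⟨(d' : ℂ) • V, ?_⟩
  have h7 := h5.add h6
  rw [zero_add] at h7
  refine h7.congr fun N => ?_
  abel

end Pool.Agent.K7.H83.MA
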