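import Pool.Agent.K7.H83.MA.Gel

/-! Mean ergodic theorems in Hilbert space. -/

set_option autoImplicit false

namespace Pool.Agent.K7.H83.MA

open Finset Filter Topology
open scoped InnerProductSpace

variable {H : Type*} [NormedAddCommGroup H] [InnerProductSpace ℂ H] [CompleteSpace H]

/-- a bounded sequence of operators which kills the ranges of normal operators asymptotically
kills the orthogonal complement of the common kernel -/
theorem kerlem {ι : Type*} (B : ℕ → H →L[ℂ] H) (C : ℝ) (hB : ∀ N, ‖B N‖ ≤ C)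
    (T : ι → H →L[ℂ] H) (hT : ∀ i, IsStarNormal (T i))
    (hk : ∀ i, ∀ x, Tendsto (fun N => B N (T i x)) atTop (𝓝 0)) (F : H)
    (hF : ∀ y : H, (∀ i, T i y = 0) → ⟪y, F⟫_ℂ = 0) :
    Tendsto (fun N => B N F) atTop (𝓝 0) := by
  have hC0 : 0 ≤ C := (norm_nonneg _).trans (hB 0)
  set R : Submodule ℂ H := ⨆ i, (T i).range with hR
  have h1 : F ∈ Rᗮᗮ := by
    rw [Submodule.mem_orthogonal]
    intro y hy
    apply hF
    intro i
    have h2 : Rᗮ ≤ ((T i).range)ᗮ := Submodule.orthogonal_le (le_iSup (fun i => (T i).range) i)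
    have h3 := h2 hy
    rw [ContinuousLinearMap.IsStarNormal.orthogonal_range (hT i)] at h3
    exact h3
  rw [Submodule.orthogonal_orthogonal_eq_closure] at h1
  have hsub : ∀ x ∈ R, Tendsto (fun N => B N x) atTop (𝓝 0) := by
    intro x hx
    refine Submodule.iSup_induction (fun i => (T i).range)
      (motive := fun x => Tendsto (fun N => B N x) atTop (𝓝 0)) hx ?_ ?_ ?_
    · rintro i _ ⟨y, rfl⟩
      exact hk i y
    · simp only [map_zero]; exact tendsto_const_nhds
    · intro x y h2 h3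
      simp only [map_add]
      simpa using h2.add h3
  rw [Metric.tendsto_atTop]
  intro ε hε
  have h4 : F ∈ closure (R : Set H) := by
    rw [← Submodule.topologicalClosure_coe]; exact h1
  obtain ⟨x, hx, hxd⟩ := Metric.mem_closure_iff.1 h4 (ε / (2 * (C + 1))) (by positivity)
  obtain ⟨N₀, hN₀⟩ := (Metric.tendsto_atTop.1 (hsub x hx)) (ε / 2) (by positivity)
  refine ⟨N₀, fun N hN => ?_⟩
  have h5 := hN₀ N hN
  rw [dist_zero_right] at h5 ⊢
  have h6 : B N F = B N (F - x) + B N x := by rw [map_sub]; abel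
  rw [h6]
  refine (norm_add_le _ _).trans_lt ?_
  have h7 : ‖B N (F - x)‖ ≤ C * (ε / (2 * (C + 1))) := by
    refine ((B N).le_opNorm _).trans ?_
    refine mul_le_mul (hB N) ?_ (norm_nonneg _) hC0
    rw [← dist_eq_norm]; exact hxd.le
  have h8 : C * (ε / (2 * (C + 1))) ≤ ε / 2 := by
    rw [mul_div_assoc', div_le_div_iff₀ (by positivity) (by norm_num)]
    nlinarith
  linarith

theorem normal_one_sub {A : Type*} [CStarAlgebra A] {u : A} (hu : u ∈ unitary A) (θ : ℂ) :
    IsStarNormal (1 - θ • u) := by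
  have h1 : star u * u = 1 := Unitary.star_mul_self_of_mem hu
  have h2 : u * star u = 1 := Unitary.mul_star_self_of_mem hu
  constructor
  unfold Commute SemiconjBy
  rw [star_sub, star_one, star_smul]
  simp only [sub_mul, mul_sub, one_mul, mul_one, smul_mul_assoc, mul_smul_comm, h1, h2]
  simp only [smul_sub, smul_smul]
  rw [mul_comm θ (star θ)]
  abel

/-- the weighted averages -/
noncomputable def avg {A : Type*} [CStarAlgebra A] (u : ℕ → A) (L : ℕ → Finset ℕ) (ρ : ℕ → ℕ)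
    (N : ℕ) : A := ((N : ℂ)⁻¹) • ∑ n ∈ L N, u (ρ n)

/-- sequences of labels with invariance -/
structure Seq {r : ℕ} (q : Fin r → ℕ) (L : ℕ → Finset ℕ) (ρ : ℕ → ℕ) (d : ℝ) : Prop where
  sub : ∀ N, L N ⊆ Ioc 0 N
  qpos : ∀ i, 0 < q i
  form : ∀ n, ∃ k : Fin r → ℕ, ρ n = ∏ i, q i ^ k i
  dens : Tendsto (fun N : ℕ => ((L N).card : ℝ) / N) atTop (𝓝 d)

/-- asymptotic invariance -/
def Inv1 {A : Type*} [CStarAlgebra A] (u : ℕ → A) {r : ℕ} (q : Fin r → ℕ) (L : ℕ → Finset ℕ)
    (ρ : ℕ → ℕ) : Prop :=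
  ∀ i, ∀ ε : ℝ, 0 < ε → ∃ N₀ : ℕ, ∀ N : ℕ, N₀ ≤ N →
    ‖∑ n ∈ L N, u (ρ n) * (1 - u (q i))‖ ≤ ε * N

section

variable {r : ℕ} {c : ℕ → Fin r} {q : Fin r → ℕ} {L : ℕ → Finset ℕ} {ρ : ℕ → ℕ} {d : ℝ}

theorem Seq.pos (h : Seq q L ρ d) (n : ℕ) : 0 < ρ n := by
  obtain ⟨k, hk⟩ := h.form n
  rw [hk]
  exact Finset.prod_pos fun i _ => pow_pos (h.qpos i) _

theorem FG.pow {A : Type*} [CStarAlgebra A] {u : ℕ → A} (hu : FG c u) {n : ℕ} (hn : 0 < n)
    (k : ℕ) : u (n ^ k) = u n ^ k := by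
  induction k with
  | zero => rw [pow_zero, pow_zero, hu.one]
  | succ k ih => rw [pow_succ, hu.mul _ _ (pow_pos hn k) hn, ih, pow_succ]

/-- invariance under all the elements of the monoid -/
theorem inv_all {A : Type*} [CStarAlgebra A] {u : ℕ → A} (hu : FG c u) (h : Seq q L ρ d)
    (hI : Inv1 u q L ρ) (s : ℕ) (hs : ∃ k : Fin r → ℕ, s = ∏ i, q i ^ k i) (ε : ℝ) (hε : 0 < ε) :
    ∃ N₀ : ℕ, ∀ N : ℕ, N₀ ≤ N → ‖∑ n ∈ L N, u (ρ n) * (1 - u s)‖ ≤ ε * N := by
  classical
  -- the set of good integers is closed under multiplication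
  let P : ℕ → Prop := fun s => 0 < s ∧ ∀ ε : ℝ, 0 < ε → ∃ N₀ : ℕ, ∀ N : ℕ, N₀ ≤ N →
    ‖∑ n ∈ L N, u (ρ n) * (1 - u s)‖ ≤ ε * N
  have hmul : ∀ s t, P s → P t → P (s * t) := by
    rintro s t ⟨hs0, hs⟩ ⟨ht0, ht⟩
    refine ⟨Nat.mul_pos hs0 ht0, fun ε hε => ?_⟩
    obtain ⟨N₁, h1⟩ := hs (ε / 2) (by positivity)
    obtain ⟨N₂, h2⟩ := ht (ε / 2) (by positivity)
    refine ⟨max N₁ N₂, fun N hN => ?_⟩
    have h3 : ∑ n ∈ L N, u (ρ n) * (1 - u (s * t)) = (∑ n ∈ L N, u (ρ n) * (1 - u s)) +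
        u s * ∑ n ∈ L N, u (ρ n) * (1 - u t) := by
      rw [Finset.mul_sum, ← Finset.sum_add_distrib]
      refine Finset.sum_congr rfl fun n _ => ?_
      rw [hu.mul s t hs0 ht0, ← mul_assoc (u s), hu.comm hs0 (h.pos n)]
      noncomm_ring
    rw [h3]
    refine (norm_add_le _ _).trans ?_
    rw [CStarRing.norm_mem_unitary_mul _ (hu.uni s hs0)]
    have := h1 N ((le_max_left _ _).trans hN)
    have := h2 N ((le_max_right _ _).trans hN)
    linarith
  have hone : P 1 := by
    refine ⟨one_pos, fun ε hε => ⟨0, fun N _ => ?_⟩⟩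
    rw [hu.one, sub_self]
    simp only [mul_zero, Finset.sum_const_zero, norm_zero]
    positivity
  have hq : ∀ i, P (q i) := fun i => ⟨h.qpos i, hI i⟩
  have hpow : ∀ i k, P (q i ^ k) := by
    intro i k
    induction k with
    | zero => rw [pow_zero]; exact hone
    | succ k ih => rw [pow_succ]; exact hmul _ _ ih (hq i)
  obtain ⟨k, rfl⟩ := hs
  have hprod : ∀ U : Finset (Fin r), P (∏ i ∈ U, q i ^ k i) := by
    intro U
    induction U using Finset.induction_on with
    | empty => rw [Finset.prod_empty]; exact hone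
    | insert i U hi ih => rw [Finset.prod_insert hi]; exact hmul _ _ (hpow i _) ih
  exact (hprod Finset.univ).2 ε hε

theorem avg_norm {A : Type*} [CStarAlgebra A] {u : ℕ → A} (hu : FG c u) (h : Seq q L ρ d)
    (N : ℕ) : ‖avg u L ρ N‖ ≤ 1 := by
  unfold avg
  rw [norm_smul, norm_inv, Complex.norm_natCast]
  have h1 : ‖∑ n ∈ L N, u (ρ n)‖ ≤ N := by
    refine (norm_sum_le _ _).trans ?_
    have h2 : ∀ n ∈ L N, ‖u (ρ n)‖ ≤ 1 := by
      intro n _
      have := CStarRing.norm_mem_unitary_mul (1 : A) (hu.uni _ (h.pos n))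
      rw [mul_one] at this
      rw [this]
      rcases subsingleton_or_nontrivial A with hA | hA
      · rw [Subsingleton.elim (1 : A) 0, norm_zero]; exact zero_le_one
      · exact CStarRing.norm_one.le
    refine (Finset.sum_le_sum h2).trans ?_
    rw [Finset.sum_const, nsmul_eq_mul, mul_one]
    have := Finset.card_le_card (h.sub N)
    rw [Nat.card_Ioc] at this
    exact_mod_cast this
  rcases Nat.eq_zero_or_pos N with h0 | h0
  · subst h0; simp
  · have : (0 : ℝ) < N := by exact_mod_cast h0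
    calc (N : ℝ)⁻¹ * _ ≤ (N : ℝ)⁻¹ * N := mul_le_mul_of_nonneg_left h1 (by positivity)
      _ = 1 := inv_mul_cancel₀ this.ne'

theorem avg_inv {A : Type*} [CStarAlgebra A] {u : ℕ → A} (hu : FG c u) (h : Seq q L ρ d)
    (hI : Inv1 u q L ρ) (s : ℕ) (hs : ∃ k : Fin r → ℕ, s = ∏ i, q i ^ k i) :
    Tendsto (fun N => ‖avg u L ρ N * (1 - u s)‖) atTop (𝓝 0) := by
  rw [Metric.tendsto_atTop]
  intro ε hε
  obtain ⟨N₀, h1⟩ := inv_all hu h hI s hs (ε / 2) (by positivity)
  refine ⟨max N₀ 1, fun N hN => ?_⟩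
  have h2 := h1 N ((le_max_left _ _).trans hN)
  have hN1 : (0 : ℝ) < N := by exact_mod_cast ((le_max_right _ _).trans hN : 1 ≤ N)
  rw [Real.dist_0_eq_abs, abs_of_nonneg (norm_nonneg _)]
  unfold avg
  rw [smul_mul_assoc, Finset.sum_mul, norm_smul, norm_inv, Complex.norm_natCast]
  calc (N : ℝ)⁻¹ * _ ≤ (N : ℝ)⁻¹ * (ε / 2 * N) := mul_le_mul_of_nonneg_left h2 (by positivity)
    _ = ε / 2 := by field_simp
    _ < ε := by linarith

/-- the space of the invariant vectors -/
def IV (u : ℕ → H →L[ℂ] H) (q : Fin r → ℕ) : Submodule ℂ H := ⨅ i, (1 - u (q i)).ker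

omit [CompleteSpace H] in
theorem mem_IV {u : ℕ → H →L[ℂ] H} {x : H} : x ∈ IV u q ↔ ∀ i, u (q i) x = x := by
  unfold IV
  rw [Submodule.mem_iInf]
  refine forall_congr' fun i => ?_
  rw [LinearMap.mem_ker]
  change x - u (q i) x = 0 ↔ _
  rw [sub_eq_zero, eq_comm]

theorem IV_closed (u : ℕ → H →L[ℂ] H) (q : Fin r → ℕ) : IsClosed (IV u q : Set H) := by
  have : (IV u q : Set H) = ⋂ i, {x | u (q i) x = x} := by
    ext x
    rw [SetLike.mem_coe, mem_IV, Set.mem_iInter]
    rfl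
  rw [this]
  exact isClosed_iInter fun i => isClosed_eq (u (q i)).continuous continuous_id

instance IV_complete (u : ℕ → H →L[ℂ] H) (q : Fin r → ℕ) : CompleteSpace (IV u q) :=
  (IV_closed u q).completeSpace_coe

theorem IV_fix {u : ℕ → H →L[ℂ] H} (hu : FG c u) (hq : ∀ i, 0 < q i) {s : ℕ}
    (hs : ∃ k : Fin r → ℕ, s = ∏ i, q i ^ k i) {x : H} (hx : x ∈ IV u q) : u s x = x := by
  rw [mem_IV] at hx
  let P : ℕ → Prop := fun s => 0 < s ∧ u s x = x
  have hmul : ∀ s t, P s → P t → P (s * t) := by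
    rintro s t ⟨hs0, hs⟩ ⟨ht0, ht⟩
    refine ⟨Nat.mul_pos hs0 ht0, ?_⟩
    rw [hu.mul s t hs0 ht0]
    change u s (u t x) = x
    rw [ht, hs]
  have hone : P 1 := ⟨one_pos, by rw [hu.one]; rfl⟩
  have hpow : ∀ i k, P (q i ^ k) := by
    intro i k
    induction k with
    | zero => rw [pow_zero]; exact hone
    | succ k ih => rw [pow_succ]; exact hmul _ _ ih ⟨hq i, hx i⟩
  obtain ⟨k, rfl⟩ := hs
  have hprod : ∀ U : Finset (Fin r), P (∏ i ∈ U, q i ^ k i) := by
    classical
    intro U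
    induction U using Finset.induction_on with
    | empty => rw [Finset.prod_empty]; exact hone
    | insert i U hi ih => rw [Finset.prod_insert hi]; exact hmul _ _ (hpow i _) ih
  exact (hprod Finset.univ).2

/-- the projection onto the invariant vectors -/
noncomputable def PI (u : ℕ → H →L[ℂ] H) (q : Fin r → ℕ) : H →L[ℂ] H :=
  (IV u q).starProjection

/-- mean ergodic theorem -/
theorem mean_erg {u : ℕ → H →L[ℂ] H} (hu : FG c u) (h : Seq q L ρ d)
    (hI : Inv1 u q L ρ) (g : H) :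
    Tendsto (fun N => avg u L ρ N g) atTop (𝓝 ((d : ℂ) • PI u q g)) := by
  set x : H := PI u q g with hx
  have hxm : x ∈ IV u q := (IV u q).starProjection_apply_mem g
  have h1 : Tendsto (fun N => avg u L ρ N (g - x)) atTop (𝓝 0) := by
    refine kerlem (avg u L ρ) 1 (avg_norm hu h) (fun i => 1 - u (q i))
      (fun i => by
        have := normal_one_sub (hu.uni (q i) (h.qpos i)) 1
        rwa [one_smul] at this) (fun i y => ?_) _ (fun y hy => ?_)
    · have h2 := avg_inv hu h hI (q i) ⟨Pi.single i 1, by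
        classical
        rw [Finset.prod_eq_single i]
        · simp
        · intro j _ hj; rw [Pi.single_eq_of_ne hj, pow_zero]
        · intro h3; exact absurd (Finset.mem_univ i) h3⟩
      have h3 : Tendsto (fun N => ‖avg u L ρ N * (1 - u (q i))‖ * ‖y‖) atTop (𝓝 (0 * ‖y‖)) :=
        h2.mul_const _
      rw [zero_mul] at h3
      refine squeeze_zero_norm (fun N => ?_) h3
      exact ContinuousLinearMap.le_opNorm (avg u L ρ N * (1 - u (q i))) y
    · have hy' : y ∈ IV u q := by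
        rw [mem_IV]; intro i
        have := hy i
        change y - u (q i) y = 0 at this
        exact (sub_eq_zero.1 this).symm
      have := (IV u q).sub_starProjection_mem_orthogonal g
      exact (Submodule.mem_orthogonal _ _).1 this y hy'
  have h2 : ∀ N, avg u L ρ N x = (((L N).card : ℝ) / N : ℝ) • x := by
    intro N
    unfold avg
    rw [_root_.smul_apply, _root_.sum_apply]
    rw [Finset.sum_congr rfl fun n _ => IV_fix hu h.qpos (h.form n) hxm, Finset.sum_const,
      ← Nat.cast_smul_eq_nsmul ℂ, smul_smul, ← Complex.coe_smul]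
    congr 1
    push_cast
    ring
  have h3 : Tendsto (fun N => avg u L ρ N x) atTop (𝓝 ((d : ℂ) • x)) := by
    simp only [h2]
    have := h.dens.smul_const x
    rwa [← Complex.coe_smul] at this
  have h4 := h1.add h3
  rw [zero_add] at h4
  refine h4.congr fun N => ?_
  rw [map_sub]; abel

end

end Pool.Agent.K7.H83.MA
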