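import Pool.Agent.K7.H83.MA.Hal2

/-! Finite valued functions on the primes are non-pretentious as soon as they differ from one on a
large set of primes. -/

set_option autoImplicit false

namespace Pool.Agent.K7.H83.MA

open Finset Filter Topology
open Pool.Agent.Y290.LT.Sup (K pt pt_re pt_ne norm_pow rpow_le_inv cpow_split norm_u zeta_up upper
  lower summ_re)
open Pool.Agent.Y868.VR

/-- `∑ (1 - cos (y log p)) / p` has size at least `(3/4) ∑ 1/p` -/
theorem no_sum {y : ℝ} (hy : y ≠ 0) (h : Nat.Primes → ℝ) (hs : Summable h) (C : ℝ)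
    (hle : ∀ (p : Nat.Primes) (δ : ℝ), 0 ≤ δ →
      ((p : ℕ) : ℝ) ^ (-(1 + δ)) - (((p : ℕ) : ℂ) ^ (-(pt δ y))).re ≤
        C * h p + (1 / 4) * ((p : ℕ) : ℝ) ^ (-(1 + δ))) : False := by
  set B : ℝ := ∑' p : Nat.Primes, h p with hB
  have hpt : pt 0 y ≠ 1 := by
    intro h1
    have h2 := congrArg Complex.im h1
    simp [pt] at h2
    exact hy h2
  have hcont : ContinuousAt (fun δ : ℝ => ‖riemannZeta (pt δ y)‖) 0 := by
    have h1 : ContinuousAt riemannZeta (pt 0 y) :=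
      (differentiableAt_riemannZeta hpt).continuousAt
    have h2 : Continuous (fun δ : ℝ => pt δ y) := by
      unfold pt
      fun_prop
    exact (ContinuousAt.comp (f := fun δ : ℝ => pt δ y) h1 h2.continuousAt).norm
  obtain ⟨D, hD1, hD⟩ : ∃ D : ℝ, 1 ≤ D ∧
      ∀ᶠ δ : ℝ in 𝓝[>] 0, ‖riemannZeta (pt δ y)‖ ≤ D := by
    refine ⟨‖riemannZeta (pt 0 y)‖ + 1, by
      have := norm_nonneg (riemannZeta (pt 0 y))
      linarith, ?_⟩
    have h3 := hcont.eventually (ge_mem_nhds (lt_add_one _))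
    exact h3.filter_mono nhdsWithin_le_nhds
  have key : ∀ᶠ δ : ℝ in 𝓝[>] 0,
      ∑' p : Nat.Primes, ((p : ℕ) : ℝ) ^ (-(1 + δ)) ≤ (4 / 3) * (C * B + (Real.log D + K)) := by
    filter_upwards [hD, self_mem_nhdsWithin] with δ h1 hδ
    have hδ' : (0 : ℝ) < δ := hδ
    have hs1 : 1 < (pt δ y).re := by rw [pt_re]; linarith
    have hbd : ∀ p : ℕ, p.Prime →
        ‖riemannZetaSummandHom (Complex.ne_zero_of_one_lt_re hs1) p‖ ≤ 1 / (p : ℝ) := by
      intro p hp
      show ‖(p : ℂ) ^ (-(pt δ y))‖ ≤ 1 / (p : ℝ)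
      rw [norm_pow δ _ hp.pos]
      exact rpow_le_inv hδ'.le hp
    have h5 := lower (riemannZetaSummandHom (Complex.ne_zero_of_one_lt_re hs1))
      (summable_riemannZetaSummand hs1) hbd
    have h6 := summ_re (riemannZetaSummandHom (Complex.ne_zero_of_one_lt_re hs1))
      (summable_riemannZetaSummand hs1) hbd
    rw [tsum_riemannZetaSummand hs1] at h5
    have h7 : Real.exp (∑' p : Nat.Primes,
        (riemannZetaSummandHom (Complex.ne_zero_of_one_lt_re hs1) (p : ℕ)).re - K) ≤ D := h5.trans h1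
    have h8 := Real.log_le_log (Real.exp_pos _) h7
    rw [Real.log_exp] at h8
    have hsP : Summable (fun p : Nat.Primes => ((p : ℕ) : ℝ) ^ (-(1 + δ))) :=
      Nat.Primes.summable_rpow.2 (by linarith)
    have h9 : ∑' p : Nat.Primes, (((p : ℕ) : ℝ) ^ (-(1 + δ)) -
        (riemannZetaSummandHom (Complex.ne_zero_of_one_lt_re hs1) (p : ℕ)).re) ≤
        ∑' p : Nat.Primes, (C * h p + (1 / 4) * ((p : ℕ) : ℝ) ^ (-(1 + δ))) := by
      refine (hsP.sub h6).tsum_le_tsum (fun p => ?_) ((hs.mul_left C).add (hsP.mul_left _))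
      exact hle p δ hδ'.le
    rw [hsP.tsum_sub h6, (hs.mul_left C).tsum_add (hsP.mul_left _), tsum_mul_left,
      tsum_mul_left] at h9
    linarith
  have hfin : ∀ S : Finset Nat.Primes,
      ∑ p ∈ S, (1 / ((p : ℕ) : ℝ)) ≤ (4 / 3) * (C * B + (Real.log D + K)) := by
    intro S
    have h1 : Tendsto (fun δ : ℝ => ∑ p ∈ S, ((p : ℕ) : ℝ) ^ (-(1 + δ))) (𝓝[>] 0)
        (𝓝 (∑ p ∈ S, (1 / ((p : ℕ) : ℝ)))) := by
      have h2 : Continuous (fun δ : ℝ => ∑ p ∈ S, ((p : ℕ) : ℝ) ^ (-(1 + δ))) := by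
        refine continuous_finsetSum _ fun p _ => ?_
        refine Continuous.rpow continuous_const (by fun_prop) (fun x => ?_)
        left
        exact_mod_cast p.2.ne_zero
      have h3 := h2.tendsto 0
      have h4 : ∑ p ∈ S, ((p : ℕ) : ℝ) ^ (-(1 + (0 : ℝ))) = ∑ p ∈ S, (1 / ((p : ℕ) : ℝ)) := by
        refine sum_congr rfl fun p _ => ?_
        rw [add_zero, Real.rpow_neg_one, one_div]
      rw [h4] at h3
      exact h3.mono_left nhdsWithin_le_nhds
    refine le_of_tendsto h1 ?_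
    filter_upwards [key, self_mem_nhdsWithin] with δ h2 hδ
    have hδ' : (0 : ℝ) < δ := hδ
    refine le_trans ?_ h2
    exact (Nat.Primes.summable_rpow.2 (by linarith)).sum_le_tsum S (fun p _ => by positivity)
  exact Nat.Primes.not_summable_one_div
    (summable_of_sum_le (fun p => by positivity) hfin)

/-- simultaneous return -/
theorem ret (V : Finset ℂ) (hV : ∀ v ∈ V, ‖v‖ = 1) :
    ∃ J : ℕ, 1 ≤ J ∧ ∀ v ∈ V, ‖v ^ J - 1‖ ≤ 1 / 4 := by
  -- the powers in the compact space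
  let x : ℕ → (V → Circle) := fun n v => (⟨(v : ℂ), by
    rw [Submonoid.unitSphere, ← SetLike.mem_coe]; simpa using hV v v.2⟩ : Circle) ^ n
  obtain ⟨a, φ, hφ, hlim⟩ := CompactSpace.tendsto_subseq x
  obtain ⟨N, hN⟩ := (Metric.tendsto_atTop.1 hlim) (1 / 8) (by norm_num)
  have h1 : dist (x (φ (N + 1))) (x (φ N)) < 1 / 4 := by
    have h1 := hN (N + 1) (by omega)
    have h2 := hN N le_rfl
    simp only [Function.comp_def] at h1 h2
    have := dist_triangle_right (x (φ (N + 1))) (x (φ N)) a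
    linarith
  have h2 : φ N < φ (N + 1) := hφ (by omega)
  refine ⟨φ (N + 1) - φ N, by omega, fun v hv => ?_⟩
  have h3 := (dist_pi_lt_iff (by norm_num : (0 : ℝ) < 1 / 4)).1 h1 ⟨v, hv⟩
  simp only [x] at h3
  have h4 : dist ((v : ℂ) ^ φ (N + 1)) (v ^ φ N) < 1 / 4 := by
    exact h3
  rw [dist_eq_norm] at h4
  have h5 : v ^ φ (N + 1) - v ^ φ N = (v ^ (φ (N + 1) - φ N) - 1) * v ^ φ N := by
    rw [sub_mul, one_mul, ← pow_add, Nat.sub_add_cancel h2.le]
  rw [h5, norm_mul, _root_.norm_pow, hV v hv, one_pow, mul_one] at h4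
  exact h4.le

theorem pow_sub_le {w : ℂ} (hw : ‖w‖ ≤ 1) (J : ℕ) : ‖1 - w ^ J‖ ≤ J * ‖1 - w‖ := by
  induction J with
  | zero => simp
  | succ J ih =>
    have e : 1 - w ^ (J + 1) = (1 - w ^ J) + w ^ J * (1 - w) := by ring
    rw [e]
    refine (norm_add_le _ _).trans ?_
    rw [norm_mul, _root_.norm_pow]
    have h1 : ‖w‖ ^ J ≤ 1 := pow_le_one₀ (norm_nonneg _) hw
    have h2 := mul_le_mul_of_nonneg_right h1 (norm_nonneg (1 - w))
    push_cast
    linarith

theorem sq_one_sub {w : ℂ} (hw : ‖w‖ ≤ 1) : ‖1 - w‖ ^ 2 ≤ 2 * (1 - w.re) := by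
  have h1 : w.re ^ 2 + w.im ^ 2 ≤ 1 := by
    have := Complex.sq_norm w
    rw [Complex.normSq_apply] at this
    have h2 : ‖w‖ ^ 2 ≤ 1 := pow_le_one₀ (norm_nonneg _) hw
    nlinarith
  rw [Complex.sq_norm, Complex.normSq_apply]
  simp only [Complex.sub_re, Complex.one_re, Complex.sub_im, Complex.one_im]
  nlinarith

theorem eq_sq_one_sub {w : ℂ} (hw : ‖w‖ = 1) : 1 - w.re = ‖1 - w‖ ^ 2 / 2 := by
  have h1 : w.re ^ 2 + w.im ^ 2 = 1 := by
    have := Complex.sq_norm w
    rw [Complex.normSq_apply, hw] at this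
    nlinarith
  rw [Complex.sq_norm, Complex.normSq_apply]
  simp only [Complex.sub_re, Complex.one_re, Complex.sub_im, Complex.one_im]
  nlinarith

/-- a finite valued function on the primes which differs from one on a large set of primes is
non-pretentious -/
theorem np_of_fin {b : ℕ → ℂ} (hb : ∀ n, ‖b n‖ ≤ 1) (V : Finset ℂ)
    (hV : ∀ p : ℕ, p.Prime → b p ∈ V)
    (hdiv : ¬ Summable (fun p : Nat.Primes => if b p ≠ 1 then 1 / ((p : ℕ) : ℝ) else 0)) :
    NP b := by
  classical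
  intro y hs
  by_cases hy : y = 0
  · subst hy
    -- constant
    obtain ⟨c, hc0, hc⟩ : ∃ c : ℝ, 0 < c ∧ ∀ v ∈ V, ‖v‖ ≤ 1 → v ≠ 1 → c ≤ 1 - v.re := by
      have hfin : ∀ W : Finset ℂ, ∃ c : ℝ, 0 < c ∧ ∀ v ∈ W, ‖v‖ ≤ 1 → v ≠ 1 → c ≤ 1 - v.re := by
        intro W
        induction W using Finset.induction_on with
        | empty => exact ⟨1, one_pos, by simp⟩
        | insert v W _ ih =>
          obtain ⟨c, hc0, hc⟩ := ih
          by_cases hv : ‖v‖ ≤ 1 ∧ v ≠ 1
          · have h1 : 0 < 1 - v.re := by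
              have h2 := sq_one_sub hv.1
              have h3 : 0 < ‖1 - v‖ := norm_pos_iff.2 (sub_ne_zero.2 (Ne.symm hv.2))
              have h4 : 0 < ‖1 - v‖ ^ 2 := by positivity
              linarith
            refine ⟨min c (1 - v.re), lt_min hc0 h1, ?_⟩
            intro w hw hw1 hw2
            rcases Finset.mem_insert.1 hw with rfl | hw
            · exact min_le_right _ _
            · exact (min_le_left _ _).trans (hc w hw hw1 hw2)
          · refine ⟨c, hc0, ?_⟩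
            intro w hw hw1 hw2
            rcases Finset.mem_insert.1 hw with rfl | hw
            · exact absurd ⟨hw1, hw2⟩ hv
            · exact hc w hw hw1 hw2
      exact hfin V
    apply hdiv
    refine Summable.of_nonneg_of_le (fun p => by positivity) (fun p => ?_) (hs.mul_left (1 / c))
    have e : gg b p 0 0 = (1 / ((p : ℕ) : ℝ)) * (1 - (b p).re) := by
      unfold gg
      rw [add_zero, Real.rpow_neg_one, one_div]
      simp
    rw [e]
    have hp : (0 : ℝ) < 1 / ((p : ℕ) : ℝ) := by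
      have : (0 : ℝ) < ((p : ℕ) : ℝ) := by exact_mod_cast p.2.pos
      positivity
    split_ifs with h1
    · have h2 := hc (b p) (hV p p.2) (hb p) h1
      have h3 : 1 ≤ (1 / c) * (1 - (b p).re) := by
        rw [one_div, inv_mul_eq_div, le_div_iff₀ hc0]; linarith
      have h4 := mul_le_mul_of_nonneg_left h3 hp.le
      calc 1 / ((p : ℕ) : ℝ) = 1 / ((p : ℕ) : ℝ) * 1 := by ring
        _ ≤ _ := h4
        _ = _ := by ring
    · have h2 : 0 ≤ 1 - (b p).re := by
        have := (Complex.re_le_norm (b p)).trans (hb p)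
        linarith
      positivity
  · obtain ⟨J, hJ1, hJ⟩ := ret (V.filter fun v => ‖v‖ = 1) (fun v hv => (mem_filter.1 hv).2)
    obtain ⟨c, hc0, hc⟩ : ∃ c : ℝ, 0 < c ∧ ∀ v ∈ V, ‖v‖ < 1 → c ≤ 1 - ‖v‖ := by
      have hfin : ∀ W : Finset ℂ, ∃ c : ℝ, 0 < c ∧ ∀ v ∈ W, ‖v‖ < 1 → c ≤ 1 - ‖v‖ := by
        intro W
        induction W using Finset.induction_on with
        | empty => exact ⟨1, one_pos, by simp⟩
        | insert v W _ ih =>
          obtain ⟨c, hc0, hc⟩ := ih
          by_cases hv : ‖v‖ < 1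
          · refine ⟨min c (1 - ‖v‖), lt_min hc0 (by linarith), ?_⟩
            intro w hw hw1
            rcases Finset.mem_insert.1 hw with rfl | hw
            · exact min_le_right _ _
            · exact (min_le_left _ _).trans (hc w hw hw1)
          · refine ⟨c, hc0, ?_⟩
            intro w hw hw1
            rcases Finset.mem_insert.1 hw with rfl | hw
            · exact absurd hw1 hv
            · exact hc w hw hw1
      exact hfin V
    have hyJ : (J : ℝ) * y ≠ 0 := mul_ne_zero (by exact_mod_cast (by omega : J ≠ 0)) hy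
    set C : ℝ := max (2 * (J : ℝ) ^ 2) (2 / c) with hC
    have hC0 : 0 ≤ C := le_max_of_le_left (by positivity)
    refine no_sum hyJ (fun p => gg b p 0 y) hs C fun p δ hδ => ?_
    have hp0 := p.2.pos
    set u : ℂ := ((p : ℕ) : ℂ) ^ (-(y * Complex.I)) with hu
    have hu1 : ‖u‖ = 1 := norm_u hp0 y
    have hw1 : ‖b p * u‖ ≤ 1 := by rw [norm_mul, hu1, mul_one]; exact hb p
    have eJ : ((p : ℕ) : ℂ) ^ (-((((J : ℝ) * y : ℝ) : ℂ) * Complex.I)) = u ^ J := by
      rw [hu, ← Complex.cpow_nat_mul]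
      congr 1
      push_cast
      ring
    have e1 : (((p : ℕ) : ℂ) ^ (-(pt δ (J * y)))).re =
        ((p : ℕ) : ℝ) ^ (-(1 + δ)) * (u ^ J).re := by
      rw [cpow_split hp0, eJ, Complex.re_ofReal_mul]
    rw [e1]
    have hre : 0 ≤ 1 - (b p * u).re := by
      have := (Complex.re_le_norm (b p * u)).trans hw1
      linarith
    have hmain : 1 - (u ^ J).re ≤ C * (1 - (b p * u).re) + 1 / 4 := by
      have huJ : ‖u ^ J‖ = 1 := by rw [_root_.norm_pow, hu1, one_pow]
      by_cases hbp : ‖b p‖ = 1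
      · have h1 := hJ (b p) (mem_filter.2 ⟨hV p p.2, hbp⟩)
        have h2 : ‖1 - u ^ J‖ ≤ J * ‖1 - b p * u‖ + 1 / 4 := by
          have e2 : 1 - u ^ J = (1 - (b p * u) ^ J) + ((b p) ^ J - 1) * u ^ J := by
            rw [mul_pow]; ring
          rw [e2]
          refine (norm_add_le _ _).trans (add_le_add (pow_sub_le hw1 J) ?_)
          rw [norm_mul, huJ, mul_one]
          exact h1
        rw [eq_sq_one_sub huJ]
        have h3 := sq_one_sub hw1
        have h4 : ‖1 - u ^ J‖ ^ 2 ≤ (J * ‖1 - b p * u‖ + 1 / 4) ^ 2 :=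
          pow_le_pow_left₀ (norm_nonneg _) h2 2
        have h5 : (J * ‖1 - b p * u‖ + 1 / 4) ^ 2 ≤ 2 * (J ^ 2 * ‖1 - b p * u‖ ^ 2) + 2 * (1 / 16) := by
          nlinarith [sq_nonneg (J * ‖1 - b p * u‖ - 1 / 4)]
        have h6 : (J : ℝ) ^ 2 * ‖1 - b p * u‖ ^ 2 ≤ (J : ℝ) ^ 2 * (2 * (1 - (b p * u).re)) :=
          mul_le_mul_of_nonneg_left h3 (by positivity)
        have h7 : 2 * (J : ℝ) ^ 2 * (1 - (b p * u).re) ≤ C * (1 - (b p * u).re) :=
          mul_le_mul_of_nonneg_right (le_max_left _ _) hre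
        linarith
      · have h0 : ‖b p‖ < 1 := lt_of_le_of_ne (hb p) hbp
        have h1 := hc (b p) (hV p p.2) h0
        have h2 : (b p * u).re ≤ ‖b p‖ := by
          refine (Complex.re_le_norm _).trans ?_
          rw [norm_mul, hu1, mul_one]
        have h3 : 1 - (u ^ J).re ≤ 2 := by
          have := (Complex.abs_re_le_norm (u ^ J))
          rw [huJ] at this
          have := (abs_le.1 this).1
          linarith
        have h4 : c ≤ 1 - (b p * u).re := by linarith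
        have h5 : 2 / c * c ≤ C * (1 - (b p * u).re) :=
          mul_le_mul (le_max_right _ _) h4 hc0.le hC0
        rw [div_mul_cancel₀ _ hc0.ne'] at h5
        linarith
    have hP : (0 : ℝ) ≤ ((p : ℕ) : ℝ) ^ (-(1 + δ)) := by positivity
    have hPle : ((p : ℕ) : ℝ) ^ (-(1 + δ)) ≤ ((p : ℕ) : ℝ) ^ (-(1 + (0 : ℝ))) := by
      refine Real.rpow_le_rpow_of_exponent_le ?_ (by linarith)
      exact_mod_cast p.2.one_lt.le
    have e3 : gg b p 0 y = ((p : ℕ) : ℝ) ^ (-(1 + (0 : ℝ))) * (1 - (b p * u).re) := rfl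
    beta_reduce
    rw [e3]
    calc ((p : ℕ) : ℝ) ^ (-(1 + δ)) - ((p : ℕ) : ℝ) ^ (-(1 + δ)) * (u ^ J).re
        = ((p : ℕ) : ℝ) ^ (-(1 + δ)) * (1 - (u ^ J).re) := by ring
      _ ≤ ((p : ℕ) : ℝ) ^ (-(1 + δ)) * (C * (1 - (b p * u).re) + 1 / 4) :=
          mul_le_mul_of_nonneg_left hmain hP
      _ = C * (((p : ℕ) : ℝ) ^ (-(1 + δ)) * (1 - (b p * u).re)) +
          1 / 4 * ((p : ℕ) : ℝ) ^ (-(1 + δ)) := by ring
      _ ≤ C * (((p : ℕ) : ℝ) ^ (-(1 + (0 : ℝ))) * (1 - (b p * u).re)) +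
          1 / 4 * ((p : ℕ) : ℝ) ^ (-(1 + δ)) := by
          have h9 := mul_le_mul_of_nonneg_left (mul_le_mul_of_nonneg_right hPle hre) hC0
          exact add_le_add h9 le_rfl

end Pool.Agent.K7.H83.MA
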