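import Mathlib

/-! Norm bound for polynomials in commuting unitaries, through the Gelfand transform. -/

set_option autoImplicit false

namespace Pool.Agent.K7.H83.MA

open Finset Filter Topology

/-- completely multiplicative unitary valued function with few values at the primes;
`c` is the colouring of the primes -/
structure FG {A : Type*} [CStarAlgebra A] {r : ℕ} (c : ℕ → Fin r) (u : ℕ → A) : Prop where
  one : u 1 = 1
  mul : ∀ m n, 0 < m → 0 < n → u (m * n) = u m * u n
  uni : ∀ n, 0 < n → u n ∈ unitary A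
  fg : ∀ p q, p.Prime → q.Prime → c p = c q → u p = u q

theorem FG.comm {A : Type*} [CStarAlgebra A] {r : ℕ} {c : ℕ → Fin r} {u : ℕ → A} (h : FG c u)
    {m n : ℕ} (hm : 0 < m) (hn : 0 < n) : u m * u n = u n * u m := by
  rw [← h.mul m n hm hn, mul_comm, h.mul n m hn hm]

theorem FG.comm_star {A : Type*} [CStarAlgebra A] {r : ℕ} {c : ℕ → Fin r} {u : ℕ → A} (h : FG c u)
    {m n : ℕ} (hm : 0 < m) (hn : 0 < n) : u m * star (u n) = star (u n) * u m := by
  have h1 := (h.uni n hn)
  have h2 : star (u n) * u n = 1 := Unitary.star_mul_self_of_mem h1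
  have h3 : u n * star (u n) = 1 := Unitary.mul_star_self_of_mem h1
  calc u m * star (u n) = (star (u n) * u n) * (u m * star (u n)) := by rw [h2, one_mul]
    _ = star (u n) * (u n * u m) * star (u n) := by simp only [mul_assoc]
    _ = star (u n) * (u m * u n) * star (u n) := by rw [h.comm hn hm]
    _ = star (u n) * u m * (u n * star (u n)) := by simp only [mul_assoc]
    _ = star (u n) * u m := by rw [h3, mul_one]

/-- scalar valued -/
structure SC {r : ℕ} (c : ℕ → Fin r) (f : ℕ → ℂ) : Prop where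
  one : f 1 = 1
  mul : ∀ m n, 0 < m → 0 < n → f (m * n) = f m * f n
  uni : ∀ n, 0 < n → ‖f n‖ = 1
  fg : ∀ p q, p.Prime → q.Prime → c p = c q → f p = f q

open StarAlgebra StarSubalgebra in
theorem gel_bound {A : Type*} [CStarAlgebra A] {r : ℕ} {c : ℕ → Fin r} {u : ℕ → A} (h : FG c u)
    {κ : Type*} (J : Finset κ) (n : κ → ℕ) (hn : ∀ j ∈ J, 0 < n j) (a : κ → ℂ) (C : ℝ)
    (hC : ∀ f : ℕ → ℂ, SC c f → ‖∑ j ∈ J, a j * f (n j)‖ ≤ C) :
    ‖∑ j ∈ J, a j • u (n j)‖ ≤ C := by
  classical
  have hC0 : 0 ≤ C := (norm_nonneg _).trans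
    (hC (fun _ => 1) ⟨rfl, by simp, by simp, by simp⟩)
  set s : Set A := {x | ∃ n, 0 < n ∧ u n = x} with hs
  have h1 : ∀ a ∈ s, ∀ b ∈ s, a * b = b * a := by
    rintro _ ⟨m, hm, rfl⟩ _ ⟨k, hk, rfl⟩
    exact h.comm hm hk
  have h2 : ∀ a ∈ s, ∀ b ∈ s, a * star b = star b * a := by
    rintro _ ⟨m, hm, rfl⟩ _ ⟨k, hk, rfl⟩
    exact h.comm_star hm hk
  let S : StarSubalgebra ℂ A := (adjoin ℂ s).topologicalClosure
  have hScl : IsClosed (S : Set A) := (adjoin ℂ s).isClosed_topologicalClosure
  let _ : CommRing (adjoin ℂ s) := StarAlgebra.adjoinCommRingOfComm ℂ h1 h2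
  let _ : CommRing S := (adjoin ℂ s).commRingTopologicalClosure mul_comm
  let _ : CommCStarAlgebra S := { (inferInstance : CommRing S), (StarSubalgebra.cstarAlgebra S (h_closed := hScl)) with }
  have hus : ∀ m, 0 < m → u m ∈ S := fun m hm =>
    (adjoin ℂ s).le_topologicalClosure (subset_adjoin ℂ s ⟨m, hm, rfl⟩)
  let us : ℕ → S := fun m => if hm : 0 < m then ⟨u m, hus m hm⟩ else 0
  have hus' : ∀ m, 0 < m → (us m : A) = u m := fun m hm => by
    simp only [us]; rw [dif_pos hm]
  let x : S := ∑ j ∈ J, a j • us (n j)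
  have hx : (x : A) = ∑ j ∈ J, a j • u (n j) := by
    simp only [x]
    rw [AddSubmonoidClass.coe_finsetSum]
    refine sum_congr rfl fun j hj => ?_
    change (a j • (us (n j) : A)) = _
    rw [hus' _ (hn j hj)]
  rw [← hx]
  change ‖x‖ ≤ C
  have hiso := (gelfandTransform_isometry S).norm_map_of_map_zero (map_zero _) x
  rw [← hiso, ContinuousMap.norm_le _ hC0]
  intro φ
  have e1 : WeakDual.gelfandTransform ℂ S x φ = ∑ j ∈ J, a j * φ (us (n j)) := by
    change φ x = _
    simp only [x]
    rw [map_sum]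
    refine sum_congr rfl fun j _ => ?_
    rw [map_smul, smul_eq_mul]
  rw [e1]
  have husm : ∀ m k, 0 < m → 0 < k → us (m * k) = us m * us k := by
    intro m k hm hk
    apply Subtype.ext
    change (us (m * k) : A) = us m * us k
    rw [hus' _ (Nat.mul_pos hm hk), hus' _ hm, hus' _ hk, h.mul m k hm hk]
  have hus1 : us 1 = 1 := by
    apply Subtype.ext
    rw [hus' _ one_pos, h.one]; rfl
  refine hC (fun m => φ (us m)) ⟨?_, ?_, ?_, ?_⟩
  · change φ (us 1) = 1
    rw [hus1, map_one]
  · intro m k hm hk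
    change φ (us (m * k)) = φ (us m) * φ (us k)
    rw [husm m k hm hk, map_mul]
  · intro m hm
    have h3 : star (us m) * us m = 1 := by
      apply Subtype.ext
      change star (us m : A) * (us m : A) = 1
      rw [hus' _ hm]
      exact Unitary.star_mul_self_of_mem (h.uni m hm)
    have h4 : star (φ (us m)) * φ (us m) = 1 := by
      rw [← map_star, ← map_mul, h3, map_one]
    have h5 : ‖φ (us m)‖ * ‖φ (us m)‖ = 1 := by
      have := congrArg norm h4
      rwa [norm_mul, norm_star, norm_one] at this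
    nlinarith [norm_nonneg (φ (us m))]
  · intro p q hp hq hpq
    have : us p = us q := by
      apply Subtype.ext
      rw [hus' _ hp.pos, hus' _ hq.pos]
      exact h.fg p q hp hq hpq
    change φ (us p) = φ (us q)
    rw [this]

end Pool.Agent.K7.H83.MA
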