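import Pool.Agent.K7.H83.MA.Lab2

/-! For a sparse set of primes, most integers have a small part made of these primes. -/

set_option autoImplicit false

namespace Pool.Agent.K7.H83.MA

open Finset Filter Topology

open scoped Classical in
/-- the part of `n` made of the primes satisfying `E` -/
noncomputable def prt (E : ℕ → Prop) (n : ℕ) : ℕ := ext (fun p => if E p then p else 1) n

theorem sp_eq_prt {r : ℕ} (c : ℕ → Fin r) (Q n : ℕ) : sp c Q n = prt (Sp c Q) n := rfl

/-- sparse sets of primes -/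
def Spa (E : ℕ → Prop) : Prop :=
  haveI : DecidablePred E := Classical.decPred E
  Summable (fun p : Nat.Primes => if E p then 1 / ((p : ℕ) : ℝ) else 0)

theorem cnt_dvd (N d : ℕ) : (((Ioc 0 N).filter fun n => d ∣ n).card : ℝ) ≤ N / d := by
  rw [Nat.Ioc_filter_dvd_card_eq_div]
  exact Nat.cast_div_le

/-- a prime as an element of the type of primes -/
def mkP (p : ℕ) (h : p.Prime) : Nat.Primes := ⟨p, h⟩

theorem mkP_coe (p : ℕ) (h : p.Prime) : ((mkP p h : Nat.Primes) : ℕ) = p := rfl

open scoped Classical in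
theorem good {E : ℕ → Prop} (hE : Spa E) (ε : ℝ) (hε : 0 < ε) :
    ∃ M : ℕ, 0 < M ∧ prt E M = M ∧ ∀ N : ℕ,
      (((Ioc 0 N).filter fun n => ¬ prt E n ∣ M).card : ℝ) ≤ ε * N := by
  classical
  unfold Spa at hE
  -- tail of the sum
  obtain ⟨S, hS⟩ : ∃ S : Finset Nat.Primes, ∀ T : Finset Nat.Primes, Disjoint T S →
      ∑ p ∈ T, (if E p then 1 / ((p : ℕ) : ℝ) else 0) ≤ ε / 2 := by
    have h1 := (summable_iff_vanishing_norm.1 hE) (ε / 2) (by positivity)
    obtain ⟨S, hS⟩ := h1
    refine ⟨S, fun T hT => ?_⟩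
    have := hS T hT
    exact (le_abs_self _).trans this.le
  obtain ⟨P, hP⟩ : ∃ P : ℕ, ∀ p ∈ S, (p : ℕ) ≤ P :=
    ⟨S.sup (fun p => (p : ℕ)), fun p hp => Finset.le_sup (f := fun p : Nat.Primes => (p : ℕ)) hp⟩
  obtain ⟨a, ha⟩ : ∃ a : ℕ, ((P + 1 : ℕ) : ℝ) * (1 / 2) ^ a ≤ ε / 2 := by
    have h1 : Tendsto (fun a : ℕ => ((P + 1 : ℕ) : ℝ) * (1 / 2) ^ a) atTop (𝓝 (((P + 1 : ℕ) : ℝ) * 0)) :=
      (tendsto_pow_atTop_nhds_zero_of_lt_one (by norm_num) (by norm_num)).const_mul _
    rw [mul_zero] at h1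
    exact (h1.eventually (ge_mem_nhds (by positivity : (0 : ℝ) < ε / 2))).exists
  set PP : Finset ℕ := (Finset.range (P + 1)).filter fun p => p.Prime ∧ E p with hPP
  set M : ℕ := ∏ p ∈ PP, p ^ a with hM
  have hM0 : 0 < M := Finset.prod_pos fun p hp => pow_pos (mem_filter.1 hp).2.1.pos _
  refine ⟨M, hM0, ?_, fun N => ?_⟩
  · -- M is its own part
    have h1 : ∀ U : Finset ℕ, U ⊆ PP → prt E (∏ p ∈ U, p ^ a) = ∏ p ∈ U, p ^ a := by
      intro U
      induction U using Finset.induction_on with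
      | empty => intro _; unfold prt; simp [ext_one]
      | insert p U hpU ih =>
        intro hU
        have h2 : p.Prime ∧ E p := (mem_filter.1 (hU (mem_insert_self p U))).2
        have h3 : U ⊆ PP := fun x hx => hU (mem_insert_of_mem hx)
        have h4 : 0 < ∏ x ∈ U, x ^ a :=
          Finset.prod_pos fun x hx => pow_pos (mem_filter.1 (h3 hx)).2.1.pos _
        rw [Finset.prod_insert hpU]
        unfold prt
        rw [ext_mul _ (pow_pos h2.1.pos a) h4]
        have h5 : ∀ k : ℕ, ext (fun p => if E p then p else 1) (p ^ k) = p ^ k := by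
          intro k
          induction k with
          | zero => rw [pow_zero, ext_one]
          | succ k ih2 =>
            rw [pow_succ, ext_mul _ (pow_pos h2.1.pos k) h2.1.pos, ih2, ext_prime _ h2.1,
              if_pos h2.2]
        rw [h5]
        congr 1
        exact ih h3
    exact h1 PP (Finset.Subset.refl _)
  · -- counting
    have hsub : (Ioc 0 N).filter (fun n => ¬ prt E n ∣ M) ⊆
        (((Finset.Ioc P N).filter fun p => p.Prime ∧ E p).biUnion fun p =>
          (Ioc 0 N).filter fun n => p ∣ n) ∪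
        ((Finset.Ioc 1 P).biUnion fun p => (Ioc 0 N).filter fun n => p ^ a ∣ n) := by
      intro n hn
      rw [mem_filter, mem_Ioc] at hn
      by_contra hcon
      rw [mem_union, not_or, mem_biUnion, mem_biUnion] at hcon
      obtain ⟨hc1, hc2⟩ := hcon
      push Not at hc1 hc2
      apply hn.2
      have h1 : prt E n = ∏ p ∈ n.primeFactors.filter E, p ^ n.factorization p := by
        unfold prt ext Finsupp.prod
        rw [Nat.support_factorization, Finset.prod_filter]
        refine Finset.prod_congr rfl fun p _ => ?_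
        by_cases hpE : E p <;> simp [hpE]
      rw [h1]
      refine dvd_trans (Finset.prod_dvd_prod_of_dvd _ (fun p => p ^ a) fun p hp => ?_)
        (Finset.prod_dvd_prod_of_subset _ _ _ ?_)
      · rw [mem_filter, Nat.mem_primeFactors] at hp
        obtain ⟨⟨hp1, hp2, hp3⟩, hpE⟩ := hp
        have hpP : p ≤ P := by
          by_contra h2
          push Not at h2
          refine hc1 p (mem_filter.2 ⟨mem_Ioc.2 ⟨h2, (Nat.le_of_dvd hn.1.1 hp2).trans hn.1.2⟩,
            hp1, hpE⟩) (mem_filter.2 ⟨mem_Ioc.2 hn.1, hp2⟩)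
        refine pow_dvd_pow p ?_
        by_contra h2
        push Not at h2
        refine hc2 p (mem_Ioc.2 ⟨hp1.one_lt, hpP⟩) (mem_filter.2 ⟨mem_Ioc.2 hn.1, ?_⟩)
        exact (pow_dvd_pow p h2.le).trans (Nat.ordProj_dvd n p)
      · intro p hp
        rw [mem_filter, Nat.mem_primeFactors] at hp
        obtain ⟨⟨hp1, hp2, hp3⟩, hpE⟩ := hp
        have hpP : p ≤ P := by
          by_contra h2
          push Not at h2
          refine hc1 p (mem_filter.2 ⟨mem_Ioc.2 ⟨h2, (Nat.le_of_dvd hn.1.1 hp2).trans hn.1.2⟩,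
            hp1, hpE⟩) (mem_filter.2 ⟨mem_Ioc.2 hn.1, hp2⟩)
        exact mem_filter.2 ⟨mem_range.2 (by omega), hp1, hpE⟩
    have hc1 : ((((Finset.Ioc P N).filter fun p => p.Prime ∧ E p).biUnion fun p =>
          (Ioc 0 N).filter fun n => p ∣ n).card : ℝ) ≤ ε / 2 * N := by
      have h1 : ((((Finset.Ioc P N).filter fun p => p.Prime ∧ E p).biUnion fun p =>
          (Ioc 0 N).filter fun n => p ∣ n).card : ℝ) ≤
          ∑ p ∈ (Finset.Ioc P N).filter (fun p => p.Prime ∧ E p), (N / p : ℝ) := by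
        refine le_trans (Nat.cast_le.2 Finset.card_biUnion_le) ?_
        push_cast
        exact Finset.sum_le_sum fun p _ => cnt_dvd N p
      refine h1.trans ?_
      set F : Finset ℕ := (Finset.Ioc P N).filter (fun p => p.Prime ∧ E p) with hF
      set T : Finset Nat.Primes := F.attach.image
        (fun x => mkP x.1 (mem_filter.1 x.2).2.1) with hT
      have h2 : ∑ p ∈ F, (N / p : ℝ) =
          N * ∑ p ∈ T, (if E p then 1 / ((p : ℕ) : ℝ) else 0) := by
        have h3 : ∑ p ∈ T, (if E p then 1 / ((p : ℕ) : ℝ) else 0) =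
            ∑ p ∈ F, 1 / (p : ℝ) := by
          rw [hT, Finset.sum_image, ← Finset.sum_attach F]
          · refine Finset.sum_congr rfl fun p _ => ?_
            rw [mkP_coe, if_pos (mem_filter.1 p.2).2.2]
          · intro x _ y _ hxy
            exact Subtype.ext (congrArg (fun p : Nat.Primes => (p : ℕ)) hxy)
        rw [h3, Finset.mul_sum]
        refine Finset.sum_congr rfl fun p _ => ?_
        ring
      rw [h2]
      have h4 := hS T (by
        rw [Finset.disjoint_left]
        intro p hp hpS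
        rw [hT, Finset.mem_image] at hp
        obtain ⟨x, _, rfl⟩ := hp
        have h5 := mem_Ioc.1 (mem_filter.1 x.2).1
        have h6 : (x : ℕ) ≤ P := hP _ hpS
        omega)
      calc (N : ℝ) * _ ≤ N * (ε / 2) := mul_le_mul_of_nonneg_left h4 (Nat.cast_nonneg _)
        _ = ε / 2 * N := by ring
    have hc2 : (((Finset.Ioc 1 P).biUnion fun p => (Ioc 0 N).filter fun n => p ^ a ∣ n).card : ℝ) ≤
        ε / 2 * N := by
      have h1 : (((Finset.Ioc 1 P).biUnion fun p => (Ioc 0 N).filter fun n => p ^ a ∣ n).card : ℝ) ≤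
          ∑ p ∈ Finset.Ioc 1 P, (N / ((p ^ a : ℕ) : ℝ) : ℝ) := by
        refine le_trans (Nat.cast_le.2 Finset.card_biUnion_le) ?_
        push_cast
        refine Finset.sum_le_sum fun p _ => ?_
        have := cnt_dvd N (p ^ a)
        push_cast at this
        exact this
      refine h1.trans ?_
      have h2 : ∀ p ∈ Finset.Ioc 1 P, (N / ((p ^ a : ℕ) : ℝ) : ℝ) ≤ N * (1 / 2) ^ a := by
        intro p hp
        rw [mem_Ioc] at hp
        rw [div_eq_mul_inv]
        refine mul_le_mul_of_nonneg_left ?_ (Nat.cast_nonneg _)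
        push_cast
        rw [one_div, inv_pow]
        refine inv_anti₀ (by positivity) ?_
        refine pow_le_pow_left₀ (by norm_num) ?_ a
        exact_mod_cast hp.1
      refine (Finset.sum_le_sum h2).trans ?_
      rw [Finset.sum_const, nsmul_eq_mul, Nat.card_Ioc]
      have h3 : ((P - 1 : ℕ) : ℝ) ≤ ((P + 1 : ℕ) : ℝ) := by exact_mod_cast (by omega : P - 1 ≤ P + 1)
      have h4 : (0 : ℝ) ≤ N * (1 / 2) ^ a := by positivity
      calc ((P - 1 : ℕ) : ℝ) * (N * (1 / 2) ^ a) ≤ ((P + 1 : ℕ) : ℝ) * (N * (1 / 2) ^ a) :=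
            mul_le_mul_of_nonneg_right h3 h4
        _ = N * (((P + 1 : ℕ) : ℝ) * (1 / 2) ^ a) := by ring
        _ ≤ N * (ε / 2) := mul_le_mul_of_nonneg_left ha (Nat.cast_nonneg _)
        _ = ε / 2 * N := by ring
    have h5 : (((Ioc 0 N).filter fun n => ¬ prt E n ∣ M).card : ℝ) ≤
        ((((Finset.Ioc P N).filter fun p => p.Prime ∧ E p).biUnion fun p =>
          (Ioc 0 N).filter fun n => p ∣ n).card : ℝ) +
        (((Finset.Ioc 1 P).biUnion fun p => (Ioc 0 N).filter fun n => p ^ a ∣ n).card : ℝ) := by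
      have := (Finset.card_le_card hsub).trans (Finset.card_union_le _ _)
      exact_mod_cast this
    linarith

theorem prt_pos (E : ℕ → Prop) {n : ℕ} (hn : 0 < n) : 0 < prt E n := by
  classical
  induction n using Nat.recOnMul with
  | zero => omega
  | one => unfold prt; rw [ext_one]; exact one_pos
  | prime p h => unfold prt; rw [ext_prime _ h]; split_ifs; exacts [h.pos, one_pos]
  | mul a b ha hb =>
    have h1 : 0 < a := Nat.pos_of_mul_pos_right hn
    have h2 : 0 < b := Nat.pos_of_mul_pos_left hn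
    unfold prt at *
    rw [ext_mul _ h1 h2]
    exact Nat.mul_pos (ha h1) (hb h2)

end Pool.Agent.K7.H83.MA
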