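import Pool.Agent.K7.H83.MA.Hal

/-! Uniform Halasz theorem over compact families of completely multiplicative functions. -/

set_option autoImplicit false

namespace Pool.Agent.K7.H83.MA

open Finset Filter Topology
open Pool.Agent.Y122.LT (CMC HF DS tw DS_eq)
open Pool.Agent.Y290.LT.Sup (K pt pt_re pt_ne norm_pow rpow_le_inv cpow_split norm_u zeta_up upper
  summ_re)
open Pool.Agent.Y868.VR

theorem gg_cont_u {Z : Type*} [TopologicalSpace Z] (b : Z → ℕ → ℂ) {p : ℕ} (hp : 0 < p)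
    (hc : Continuous fun z => b z p) :
    Continuous (fun x : ℝ × (Z × ℝ) => gg (b x.2.1) p x.1 x.2.2) := by
  have hp' : (p : ℝ) ≠ 0 := by exact_mod_cast hp.ne'
  have hp'' : (p : ℂ) ≠ 0 := by exact_mod_cast hp.ne'
  unfold gg
  refine Continuous.mul ?_ ?_
  · exact Continuous.rpow continuous_const (by fun_prop) (fun x => Or.inl hp')
  · refine continuous_const.sub (Complex.continuous_re.comp ((hc.comp (by fun_prop)).mul ?_))
    refine Continuous.const_cpow (by fun_prop) (Or.inl hp'')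

theorem uhf_of {Z : Type*} [TopologicalSpace Z] {KK : Set Z} (hK : IsCompact KK) (b : Z → ℕ → ℂ)
    (hb : ∀ z, CMC (b z)) (hc : ∀ p : ℕ, p.Prime → Continuous fun z => b z p)
    (hn : ∀ z ∈ KK, NP (b z)) : UHF (b '' KK) := by
  intro B η hη
  have hloc : ∀ x₀ ∈ KK ×ˢ Set.Icc (-B) B, ∀ᶠ w : ℝ × (Z × ℝ) in 𝓝 ((0 : ℝ), x₀),
      0 < w.1 → w.1 * ‖∑' n : ℕ, Ph (hb w.2.1) w.1 w.2.2 n‖ ≤ η := by
    rintro ⟨z₀, y₀⟩ hx
    have hns := hn z₀ hx.1 y₀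
    obtain ⟨M, hM⟩ : ∃ M : ℝ, 2 * Real.exp (2 * K - M) ≤ η := by
      refine ⟨2 * K - Real.log (η / 2), ?_⟩
      have : 2 * K - (2 * K - Real.log (η / 2)) = Real.log (η / 2) := by ring
      rw [this, Real.exp_log (by positivity)]
      linarith
    obtain ⟨S, hS⟩ : ∃ S : Finset Nat.Primes, M < ∑ p ∈ S, gg (b z₀) p 0 y₀ := by
      by_contra hcon
      push Not at hcon
      exact hns (summable_of_sum_le (fun p => gg_nonneg (hb z₀).bdd p.2.pos 0 y₀) hcon)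
    have hc' : Continuous (fun x : ℝ × (Z × ℝ) => ∑ p ∈ S, gg (b x.2.1) p x.1 x.2.2) :=
      continuous_finsetSum _ fun p _ => gg_cont_u b p.2.pos (hc p p.2)
    have h1 : ∀ᶠ w : ℝ × (Z × ℝ) in 𝓝 ((0 : ℝ), (z₀, y₀)),
        M < ∑ p ∈ S, gg (b w.2.1) p w.1 w.2.2 :=
      (hc'.tendsto ((0 : ℝ), (z₀, y₀))).eventually (lt_mem_nhds hS)
    have h2 : ∀ᶠ w : ℝ × (Z × ℝ) in 𝓝 ((0 : ℝ), (z₀, y₀)), 0 < w.1 →
        w.1 * Real.exp (∑' p : Nat.Primes, ((p : ℕ) : ℝ) ^ (-(1 + w.1)) - K) ≤ 2 := by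
      have h3 := eventually_nhdsWithin_iff.1 zeta_up
      have h4 : Tendsto (fun w : ℝ × (Z × ℝ) => w.1) (𝓝 ((0 : ℝ), (z₀, y₀))) (𝓝 0) :=
        continuous_fst.tendsto ((0 : ℝ), (z₀, y₀))
      exact h4.eventually h3
    filter_upwards [h1, h2] with w h3 h4 hz
    set h := hb w.2.1 with hh
    have h5 := upper (Ph h w.1 w.2.2) (Ph_summ h w.2.2 hz) (Ph_prime h w.2.2 hz)
    have h6 := summ_re (Ph h w.1 w.2.2) (Ph_summ h w.2.2 hz) (Ph_prime h w.2.2 hz)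
    have hsP : Summable (fun p : Nat.Primes => ((p : ℕ) : ℝ) ^ (-(1 + w.1))) :=
      Nat.Primes.summable_rpow.2 (by linarith)
    have e : ∀ p : Nat.Primes, gg (b w.2.1) p w.1 w.2.2 = ((p : ℕ) : ℝ) ^ (-(1 + w.1)) -
        (Ph h w.1 w.2.2 (p : ℕ)).re := fun p => gg_eq h p.2.pos _ _
    have h7 : Summable (fun p : Nat.Primes => gg (b w.2.1) p w.1 w.2.2) := by
      simp only [e]; exact hsP.sub h6
    have h8 : ∑' p : Nat.Primes, gg (b w.2.1) p w.1 w.2.2 =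
        ∑' p : Nat.Primes, ((p : ℕ) : ℝ) ^ (-(1 + w.1)) -
        ∑' p : Nat.Primes, (Ph h w.1 w.2.2 (p : ℕ)).re := by
      simp only [e]; exact hsP.tsum_sub h6
    have h9 : M < ∑' p : Nat.Primes, gg (b w.2.1) p w.1 w.2.2 :=
      h3.trans_le (h7.sum_le_tsum S (fun p _ => gg_nonneg h.bdd p.2.pos w.1 w.2.2))
    calc w.1 * ‖∑' n, Ph h w.1 w.2.2 n‖
          ≤ w.1 * Real.exp (∑' p : Nat.Primes, (Ph h w.1 w.2.2 (p : ℕ)).re + K) :=
            mul_le_mul_of_nonneg_left h5 hz.le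
        _ = (w.1 * Real.exp (∑' p : Nat.Primes, ((p : ℕ) : ℝ) ^ (-(1 + w.1)) - K)) *
            Real.exp (2 * K - ∑' p : Nat.Primes, gg (b w.2.1) p w.1 w.2.2) := by
            rw [mul_assoc, ← Real.exp_add]
            congr 2
            rw [h8]
            ring
        _ ≤ 2 * Real.exp (2 * K - ∑' p : Nat.Primes, gg (b w.2.1) p w.1 w.2.2) :=
            mul_le_mul_of_nonneg_right (h4 hz) (Real.exp_pos _).le
        _ ≤ 2 * Real.exp (2 * K - M) := by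
            have : Real.exp (2 * K - ∑' p : Nat.Primes, gg (b w.2.1) p w.1 w.2.2) ≤
                Real.exp (2 * K - M) := Real.exp_le_exp.2 (by linarith)
            linarith
        _ ≤ η := hM
  have hev : ∀ᶠ δ : ℝ in 𝓝 0, ∀ x ∈ KK ×ˢ Set.Icc (-B) B, 0 < δ →
      δ * ‖∑' n : ℕ, Ph (hb x.1) δ x.2 n‖ ≤ η :=
    IsCompact.eventually_forall_of_forall_eventually (x₀ := (0 : ℝ)) (K := KK ×ˢ Set.Icc (-B) B)
      (P := fun δ (x : Z × ℝ) => 0 < δ → δ * ‖∑' n : ℕ, Ph (hb x.1) δ x.2 n‖ ≤ η)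
      (hK.prod isCompact_Icc) hloc
  obtain ⟨r, hr, hball⟩ := Metric.eventually_nhds_iff.1 hev
  refine ⟨min r 1, lt_min hr one_pos, min_le_right _ _, ?_⟩
  rintro a ⟨z, hz, rfl⟩ δ hδ0 hδ y hy
  have h1 : dist δ 0 < r := by
    rw [Real.dist_eq, sub_zero, abs_of_pos hδ0]
    exact hδ.trans_le (min_le_left _ _)
  rw [DS_Ph (hb z)]
  exact hball h1 (z, y) ⟨hz, abs_le.1 hy⟩ hδ0

theorem cm_CMC {b : ℕ → ℂ} (hb : ∀ n, ‖b n‖ ≤ 1) : CMC (cm b) := by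
  have ha := cm_cma hb
  exact ⟨by simp, ha.one, ha.mul, ha.bdd⟩

theorem gg_congr {a b : ℕ → ℂ} {p : ℕ} (h : a p = b p) (δ y : ℝ) : gg a p δ y = gg b p δ y := by
  unfold gg; rw [h]

theorem NP_cm {b : ℕ → ℂ} (hn : NP b) : NP (cm b) := by
  intro y hy
  exact hn y (hy.congr fun p => gg_congr (cm_prime b p.2) 0 y)

/-- the uniform Halasz theorem -/
theorem halasz_u {Z : Type*} [TopologicalSpace Z] {KK : Set Z} (hK : IsCompact KK) (b : Z → ℕ → ℂ)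
    (hb : ∀ z n, ‖b z n‖ ≤ 1) (hc : ∀ p : ℕ, p.Prime → Continuous fun z => b z p)
    (hn : ∀ z ∈ KK, NP (b z)) (ε : ℝ) (hε : 0 < ε) :
    ∃ N₀ : ℕ, ∀ N : ℕ, N₀ ≤ N → ∀ z ∈ KK, ‖∑ n ∈ Ioc 0 N, cm (b z) n‖ ≤ ε * N := by
  have hU : UHF ((fun z => (cm (b z) : ℕ → ℂ)) '' KK) := by
    refine uhf_of hK (fun z => (cm (b z) : ℕ → ℂ)) (fun z => cm_CMC (hb z)) (fun p hp => ?_)
      fun z hz => NP_cm (hn z hz)
    refine (hc p hp).congr fun z => ?_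
    exact (cm_prime (b z) hp).symm
  obtain ⟨N₀, h⟩ := mean0_u (by rintro a ⟨z, _, rfl⟩; exact cm_CMC (hb z)) hU ε hε
  exact ⟨N₀, fun N hN z hz => h N hN _ ⟨z, hz, rfl⟩⟩

end Pool.Agent.K7.H83.MA
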