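import Pool.Agent.K7.H83.MA.Erg

/-! Koopman operators of multiplicative systems; multiplication by bounded functions. -/

set_option autoImplicit false

namespace Pool.Agent.K7.H83.MA

open Finset Filter Topology MeasureTheory
open scoped InnerProductSpace ENNReal

variable {X : Type*} [MeasurableSpace X]

/-- multiplicative measure preserving systems, with a colouring of the primes -/
structure Sys {r : ℕ} (c : ℕ → Fin r) (μ : Measure X) (T : ℕ → X → X) : Prop where
  mp : ∀ n, 0 < n → MeasurePreserving (T n) μ μ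
  inv : ∀ n, 0 < n → ∃ S : X → X, MeasurePreserving S μ μ ∧ (∀ᵐ x ∂μ, S (T n x) = x) ∧
    (∀ᵐ x ∂μ, T n (S x) = x)
  one : ∀ᵐ x ∂μ, T 1 x = x
  mul : ∀ m n, 0 < m → 0 < n → ∀ᵐ x ∂μ, T (m * n) x = T m (T n x)
  fg : ∀ p q, p.Prime → q.Prime → c p = c q → ∀ᵐ x ∂μ, T p x = T q x

open scoped Classical in
/-- the Koopman operators -/
noncomputable def koop (μ : Measure X) (T : ℕ → X → X) (n : ℕ) : Lp ℂ 2 μ →L[ℂ] Lp ℂ 2 μ :=
  if h : MeasurePreserving (T n) μ μ then
    (Lp.compMeasurePreservingₗᵢ ℂ (T n) h).toContinuousLinearMap else 1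

theorem koop_coe {μ : Measure X} {T : ℕ → X → X} {n : ℕ} (h : MeasurePreserving (T n) μ μ)
    (f : Lp ℂ 2 μ) : koop μ T n f =ᵐ[μ] fun x => f (T n x) := by
  unfold koop
  rw [dif_pos h]
  exact Lp.coeFn_compMeasurePreserving f h

theorem koop_norm {μ : Measure X} {T : ℕ → X → X} {n : ℕ} (h : MeasurePreserving (T n) μ μ)
    (f : Lp ℂ 2 μ) : ‖koop μ T n f‖ = ‖f‖ := by
  unfold koop
  rw [dif_pos h]
  exact (Lp.compMeasurePreservingₗᵢ ℂ (T n) h).norm_map f

theorem mem_uni {H : Type*} [NormedAddCommGroup H] [InnerProductSpace ℂ H] [CompleteSpace H]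
    (u : H →L[ℂ] H) (h1 : ∀ x, ‖u x‖ = ‖x‖) (h2 : Function.Surjective u) :
    u ∈ unitary (H →L[ℂ] H) := by
  have h3 : star u * u = 1 := by
    have := (ContinuousLinearMap.norm_map_iff_adjoint_comp_self u).1 h1
    exact this
  refine Unitary.mem_iff.2 ⟨h3, ?_⟩
  ext y
  obtain ⟨x, rfl⟩ := h2 y
  have h4 : (star u * u) x = x := by rw [h3]; rfl
  change u ((star u * u) x) = u x
  rw [h4]

theorem Sys.FG {r : ℕ} {c : ℕ → Fin r} {μ : Measure X} {T : ℕ → X → X} (h : Sys c μ T) :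
    FG c (koop μ T) := by
  refine ⟨?_, ?_, ?_, ?_⟩
  · ext1 f
    apply Lp.ext
    filter_upwards [koop_coe (h.mp 1 one_pos) f, h.one] with x h1 h2
    rw [h1, h2]; rfl
  · intro m n hm hn
    ext1 f
    apply Lp.ext
    have h1 := koop_coe (h.mp (m * n) (Nat.mul_pos hm hn)) f
    have h2 : ((koop μ T m * koop μ T n) f : Lp ℂ 2 μ) = koop μ T m (koop μ T n f) := rfl
    have h3 := koop_coe (h.mp m hm) (koop μ T n f)
    have h4 := (h.mp m hm).quasiMeasurePreserving.ae (koop_coe (h.mp n hn) f)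
    have h5 := h.mul n m hn hm
    filter_upwards [h1, h3, h4, h5] with x h1 h3 h4 h5
    rw [h1, h2, h3, h4, mul_comm, h5]
  · intro n hn
    refine mem_uni _ (koop_norm (h.mp n hn)) ?_
    intro f
    obtain ⟨S, hS, h1, h2⟩ := h.inv n hn
    refine ⟨Lp.compMeasurePreserving S hS f, ?_⟩
    apply Lp.ext
    have h3 := koop_coe (h.mp n hn) (Lp.compMeasurePreserving S hS f)
    have h4 := (h.mp n hn).quasiMeasurePreserving.ae (Lp.coeFn_compMeasurePreserving f hS)
    filter_upwards [h3, h4, h1] with x h3 h4 h1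
    rw [h3, h4]
    change f (S (T n x)) = f x
    rw [h1]
  · intro p q hp hq hpq
    ext1 f
    apply Lp.ext
    filter_upwards [koop_coe (h.mp p hp.pos) f, koop_coe (h.mp q hq.pos) f, h.fg p q hp hq hpq]
      with x h1 h2 h3
    rw [h1, h2, h3]

/-- bounded measurable functions -/
def BM (F : X → ℂ) : Prop := Measurable F ∧ ∃ C : ℝ, 0 ≤ C ∧ ∀ x, ‖F x‖ ≤ C

theorem BM.mul {F G : X → ℂ} (hF : BM F) (hG : BM G) : BM (fun x => F x * G x) := by
  obtain ⟨h1, C, hC, h2⟩ := hF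
  obtain ⟨h3, D, hD, h4⟩ := hG
  refine ⟨h1.mul h3, C * D, mul_nonneg hC hD, fun x => ?_⟩
  rw [norm_mul]
  exact mul_le_mul (h2 x) (h4 x) (norm_nonneg _) hC

theorem BM.comp {Y : Type*} [MeasurableSpace Y] {F : X → ℂ} (hF : BM F) {f : Y → X}
    (hf : Measurable f) : BM (fun x => F (f x)) := by
  obtain ⟨h1, C, hC, h2⟩ := hF
  exact ⟨h1.comp hf, C, hC, fun x => h2 _⟩

theorem BM.conj {F : X → ℂ} (hF : BM F) : BM (fun x => (starRingEnd ℂ) (F x)) := by
  obtain ⟨h1, C, hC, h2⟩ := hF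
  refine ⟨Complex.continuous_conj.measurable.comp h1, C, hC, fun x => ?_⟩
  rw [RCLike.norm_conj]; exact h2 x

theorem BM.const (a : ℂ) : BM (fun _ : X => a) :=
  ⟨measurable_const, ‖a‖, norm_nonneg _, fun _ => le_rfl⟩

theorem BM.add {F G : X → ℂ} (hF : BM F) (hG : BM G) : BM (fun x => F x + G x) := by
  obtain ⟨h1, C, hC, h2⟩ := hF
  obtain ⟨h3, D, hD, h4⟩ := hG
  refine ⟨h1.add h3, C + D, add_nonneg hC hD, fun x => ?_⟩
  exact (norm_add_le _ _).trans (add_le_add (h2 x) (h4 x))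

theorem BM.sum {κ : Type*} (J : Finset κ) {F : κ → X → ℂ} (hF : ∀ j ∈ J, BM (F j)) :
    BM (fun x => ∑ j ∈ J, F j x) := by
  classical
  induction J using Finset.induction_on with
  | empty => simpa using BM.const (X := X) 0
  | insert j J hj ih =>
    have e : (fun x => ∑ i ∈ insert j J, F i x) = fun x => F j x + ∑ i ∈ J, F i x := by
      funext x; rw [Finset.sum_insert hj]
    rw [e]
    exact (hF j (mem_insert_self j J)).add (ih fun i hi => hF i (mem_insert_of_mem hi))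

theorem BM.memLp {F : X → ℂ} (hF : BM F) (μ : Measure X) [IsFiniteMeasure μ] (p : ℝ≥0∞) :
    MemLp F p μ := by
  obtain ⟨h1, C, hC, h2⟩ := hF
  exact MemLp.of_bound h1.aestronglyMeasurable C (Eventually.of_forall h2)

theorem BM.integrable {F : X → ℂ} (hF : BM F) (μ : Measure X) [IsFiniteMeasure μ] :
    Integrable F μ := memLp_one_iff_integrable.1 (hF.memLp μ 1)

section

variable (μ : Measure X) [IsFiniteMeasure μ]

open scoped Classical in
/-- the class of a bounded function -/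
noncomputable def bl (F : X → ℂ) : Lp ℂ 2 μ :=
  if h : MemLp F 2 μ then h.toLp F else 0

variable {μ}

theorem bl_coe {F : X → ℂ} (hF : BM F) : bl μ F =ᵐ[μ] F := by
  unfold bl
  rw [dif_pos (hF.memLp μ 2)]
  exact MemLp.coeFn_toLp _

theorem bl_norm_le {F : X → ℂ} (hF : BM F) [IsProbabilityMeasure μ] {C : ℝ} (hC : 0 ≤ C)
    (h : ∀ x, ‖F x‖ ≤ C) : ‖bl μ F‖ ≤ C := by
  have := Lp.norm_le_of_ae_bound (p := 2) (f := bl μ F) hC (by
    filter_upwards [bl_coe hF] with x hx
    rw [hx]; exact h x)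
  have h1 : measureUnivNNReal μ = 1 := by
    unfold measureUnivNNReal; simp
  rw [h1] at this
  simpa using this

theorem inner_bl {F G : X → ℂ} (hF : BM F) (hG : BM G) :
    ⟪bl μ F, bl μ G⟫_ℂ = ∫ x, (starRingEnd ℂ) (F x) * G x ∂μ := by
  rw [L2.inner_def]
  refine integral_congr_ae ?_
  filter_upwards [bl_coe hF, bl_coe hG] with x h1 h2
  rw [h1, h2, RCLike.inner_apply, mul_comm]

theorem memLp_mul {F : X → ℂ} (hF : BM F) (f : Lp ℂ 2 μ) : MemLp (fun x => F x * f x) 2 μ := by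
  obtain ⟨h1, C, hC, h2⟩ := hF
  refine MemLp.of_le_mul (c := C) (Lp.memLp f) (h1.aestronglyMeasurable.mul
    (Lp.aestronglyMeasurable f)) (Eventually.of_forall fun x => ?_)
  rw [norm_mul]
  exact mul_le_mul_of_nonneg_right (h2 x) (norm_nonneg _)

variable (μ) in
open scoped Classical in
/-- multiplication by a bounded function -/
noncomputable def mulB (F : X → ℂ) : Lp ℂ 2 μ →L[ℂ] Lp ℂ 2 μ :=
  if h : BM F then
    LinearMap.mkContinuous
      { toFun := fun f => (memLp_mul h f).toLp _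
        map_add' := fun f g => by
          apply Lp.ext
          filter_upwards [MemLp.coeFn_toLp (memLp_mul h (f + g)), Lp.coeFn_add f g,
            MemLp.coeFn_toLp (memLp_mul h f), MemLp.coeFn_toLp (memLp_mul h g),
            Lp.coeFn_add ((memLp_mul h f).toLp _) ((memLp_mul h g).toLp _)] with x h1 h2 h3 h4 h5
          rw [h1, h5, Pi.add_apply, h3, h4, h2, Pi.add_apply, mul_add]
        map_smul' := fun a f => by
          apply Lp.ext
          filter_upwards [MemLp.coeFn_toLp (memLp_mul h (a • f)), Lp.coeFn_smul a f,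
            MemLp.coeFn_toLp (memLp_mul h f),
            Lp.coeFn_smul a ((memLp_mul h f).toLp _)] with x h1 h2 h3 h4
          rw [RingHom.id_apply, h1, h4, Pi.smul_apply, h3, h2, Pi.smul_apply, smul_eq_mul,
            smul_eq_mul]
          ring } h.2.choose (fun f => by
        refine Lp.norm_le_mul_norm_of_ae_le_mul ?_
        filter_upwards [MemLp.coeFn_toLp (memLp_mul h f)] with x h1
        change ‖((memLp_mul h f).toLp _ : Lp ℂ 2 μ) x‖ ≤ _
        rw [h1, norm_mul]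
        exact mul_le_mul_of_nonneg_right (h.2.choose_spec.2 x) (norm_nonneg _))
  else 0

theorem mulB_coe {F : X → ℂ} (hF : BM F) (f : Lp ℂ 2 μ) :
    mulB μ F f =ᵐ[μ] fun x => F x * f x := by
  unfold mulB
  rw [dif_pos hF]
  exact MemLp.coeFn_toLp (memLp_mul hF f)

theorem mulB_norm {F : X → ℂ} (hF : BM F) {C : ℝ} (h : ∀ x, ‖F x‖ ≤ C)
    (f : Lp ℂ 2 μ) : ‖mulB μ F f‖ ≤ C * ‖f‖ := by
  refine Lp.norm_le_mul_norm_of_ae_le_mul ?_
  filter_upwards [mulB_coe hF f] with x h1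
  rw [h1, norm_mul]
  exact mul_le_mul_of_nonneg_right (h x) (norm_nonneg _)

theorem mulB_bl {F G : X → ℂ} (hF : BM F) (hG : BM G) :
    mulB μ F (bl μ G) = bl μ (fun x => F x * G x) := by
  apply Lp.ext
  filter_upwards [mulB_coe hF (bl μ G), bl_coe hG, bl_coe (hF.mul hG)] with x h1 h2 h3
  rw [h1, h2, h3]

theorem mulB_mulB {F G : X → ℂ} (hF : BM F) (hG : BM G) (f : Lp ℂ 2 μ) :
    mulB μ F (mulB μ G f) = mulB μ (fun x => F x * G x) f := by
  apply Lp.ext
  filter_upwards [mulB_coe hF (mulB μ G f), mulB_coe hG f, mulB_coe (hF.mul hG) f] with x h1 h2 h3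
  rw [h1, h2, h3, mul_assoc]

theorem mulB_congr {F G : X → ℂ} (hF : BM F) (hG : BM G) (h : F =ᵐ[μ] G) :
    mulB μ F = mulB μ G := by
  ext1 f
  apply Lp.ext
  filter_upwards [mulB_coe hF f, mulB_coe hG f, h] with x h1 h2 h3
  rw [h1, h2, h3]

theorem bl_congr {F G : X → ℂ} (hF : BM F) (hG : BM G) (h : F =ᵐ[μ] G) : bl μ F = bl μ G := by
  apply Lp.ext
  filter_upwards [bl_coe hF, bl_coe hG, h] with x h1 h2 h3
  rw [h1, h2, h3]

theorem koop_bl {T : ℕ → X → X} {n : ℕ} (h : MeasurePreserving (T n) μ μ) {F : X → ℂ}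
    (hF : BM F) : koop μ T n (bl μ F) = bl μ (fun x => F (T n x)) := by
  apply Lp.ext
  filter_upwards [koop_coe h (bl μ F), bl_coe (hF.comp h.measurable),
    h.quasiMeasurePreserving.ae (bl_coe hF)] with x h1 h2 h3
  rw [h1, h2, h3]

theorem koop_mulB {T : ℕ → X → X} {n : ℕ} (h : MeasurePreserving (T n) μ μ) {F : X → ℂ}
    (hF : BM F) (f : Lp ℂ 2 μ) :
    koop μ T n (mulB μ F f) = mulB μ (fun x => F (T n x)) (koop μ T n f) := by
  apply Lp.ext
  filter_upwards [koop_coe h (mulB μ F f), mulB_coe (hF.comp h.measurable) (koop μ T n f),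
    h.quasiMeasurePreserving.ae (mulB_coe hF f), koop_coe h f] with x h1 h2 h3 h4
  rw [h1, h2, h3, h4]

theorem bl_add {F G : X → ℂ} (hF : BM F) (hG : BM G) :
    bl μ (fun x => F x + G x) = bl μ F + bl μ G := by
  apply Lp.ext
  filter_upwards [bl_coe hF, bl_coe hG, bl_coe (hF.add hG), Lp.coeFn_add (bl μ F) (bl μ G)]
    with x h1 h2 h3 h4
  rw [h3, h4, Pi.add_apply, h1, h2]

theorem bl_smul {F : X → ℂ} (hF : BM F) (a : ℂ) :
    bl μ (fun x => a * F x) = a • bl μ F := by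
  apply Lp.ext
  filter_upwards [bl_coe hF, bl_coe ((BM.const a).mul hF), Lp.coeFn_smul a (bl μ F)]
    with x h1 h3 h4
  rw [h3, h4, Pi.smul_apply, h1, smul_eq_mul]

theorem bl_zero : bl μ (fun _ => (0 : ℂ)) = 0 := by
  apply Lp.ext
  filter_upwards [bl_coe (μ := μ) (BM.const (X := X) 0), Lp.coeFn_zero ℂ 2 μ] with x h1 h2
  rw [h1, h2]; rfl

theorem bl_sum {κ : Type*} (J : Finset κ) {F : κ → X → ℂ} (hF : ∀ j ∈ J, BM (F j)) :
    bl μ (fun x => ∑ j ∈ J, F j x) = ∑ j ∈ J, bl μ (F j) := by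
  classical
  induction J using Finset.induction_on with
  | empty => simpa using bl_zero
  | insert j J hj ih =>
    have e : (fun x => ∑ i ∈ insert j J, F i x) = fun x => F j x + ∑ i ∈ J, F i x := by
      funext x; rw [Finset.sum_insert hj]
    rw [e, Finset.sum_insert hj, bl_add (hF j (mem_insert_self j J))
      (BM.sum J fun i hi => hF i (mem_insert_of_mem hi)), ih fun i hi => hF i (mem_insert_of_mem hi)]

end

end Pool.Agent.K7.H83.MA
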