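import Pool.Agent.K7.H83.MA.OH

/-! Labels of integers: special part, residue of the free part, numbers of prime factors of each
colour modulo `D`. -/

set_option autoImplicit false

namespace Pool.Agent.K7.H83.MA

open Finset Filter Topology
open Pool.Agent.Y868.VR

/-- completely multiplicative extension -/
noncomputable def ext {M : Type*} [CommMonoid M] (f : ℕ → M) (n : ℕ) : M :=
  n.factorization.prod fun p k => f p ^ k

theorem ext_one {M : Type*} [CommMonoid M] (f : ℕ → M) : ext f 1 = 1 := by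
  unfold ext; simp

theorem ext_mul {M : Type*} [CommMonoid M] (f : ℕ → M) {m n : ℕ} (hm : 0 < m) (hn : 0 < n) :
    ext f (m * n) = ext f m * ext f n := by
  unfold ext
  rw [Nat.factorization_mul hm.ne' hn.ne', Finsupp.prod_add_index']
  · intro p; simp
  · intro p i j; rw [pow_add]

theorem ext_prime {M : Type*} [CommMonoid M] (f : ℕ → M) {p : ℕ} (hp : p.Prime) :
    ext f p = f p := by
  unfold ext
  rw [hp.factorization, Finsupp.prod_single_index]
  · simp
  · simp

theorem mul_uniq {M : Type*} [Monoid M] {f g : ℕ → M} (hf1 : f 1 = 1) (hg1 : g 1 = 1)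
    (hf : ∀ m n, 0 < m → 0 < n → f (m * n) = f m * f n)
    (hg : ∀ m n, 0 < m → 0 < n → g (m * n) = g m * g n)
    (hp : ∀ p, p.Prime → f p = g p) {n : ℕ} (hn : 0 < n) : f n = g n := by
  induction n using Nat.recOnMul with
  | zero => omega
  | one => rw [hf1, hg1]
  | prime p h => exact hp p h
  | mul a b ha hb =>
    have h1 : 0 < a := Nat.pos_of_mul_pos_right hn
    have h2 : 0 < b := Nat.pos_of_mul_pos_left hn
    rw [hf a b h1 h2, hg a b h1 h2, ha h1, hb h2]

section

variable {r : ℕ} (c : ℕ → Fin r) (Q : ℕ)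

/-- the colour is large -/
def Big (i : Fin r) : Prop :=
  ¬ Summable (fun p : Nat.Primes => if c p = i then 1 / ((p : ℕ) : ℝ) else 0)

/-- special primes -/
def Sp (p : ℕ) : Prop := ¬ Big c (c p) ∨ p ∣ Q

open scoped Classical in
/-- the special part -/
noncomputable def sp (n : ℕ) : ℕ := ext (fun p => if Sp c Q p then p else 1) n

open scoped Classical in
/-- number of non-special prime factors of colour `i` -/
noncomputable def Om (i : Fin r) (n : ℕ) : ℕ :=
  Multiplicative.toAdd (ext (fun p => Multiplicative.ofAdd (if ¬ Sp c Q p ∧ c p = i then 1 else 0)) n)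

open scoped Classical in
/-- the residue of the free part -/
noncomputable def un (n : ℕ) : (ZMod Q)ˣ :=
  ext (fun p => if h : Nat.Coprime p Q ∧ ¬ Sp c Q p then ZMod.unitOfCoprime p h.1 else 1) n

/-- the group of the labels -/
abbrev GG (r Q : ℕ) : Type := Additive (ZMod Q)ˣ × (Fin r → ZMod (Nat.totient Q))

/-- the label -/
noncomputable def gam (n : ℕ) : GG r Q :=
  (Additive.ofMul (un c Q n), fun i => ((Om c Q i n : ℕ) : ZMod (Nat.totient Q)))

theorem sp_one : sp c Q 1 = 1 := ext_one _

theorem sp_mul {m n : ℕ} (hm : 0 < m) (hn : 0 < n) : sp c Q (m * n) = sp c Q m * sp c Q n :=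
  ext_mul _ hm hn

open scoped Classical in
theorem sp_prime {p : ℕ} (hp : p.Prime) : sp c Q p = if Sp c Q p then p else 1 := ext_prime _ hp

theorem sp_pos {n : ℕ} (hn : 0 < n) : 0 < sp c Q n := by
  classical
  induction n using Nat.recOnMul with
  | zero => omega
  | one => rw [sp_one]; exact one_pos
  | prime p h => rw [sp_prime c Q h]; split_ifs; exacts [h.pos, one_pos]
  | mul a b ha hb =>
    have h1 : 0 < a := Nat.pos_of_mul_pos_right hn
    have h2 : 0 < b := Nat.pos_of_mul_pos_left hn
    rw [sp_mul c Q h1 h2]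
    exact Nat.mul_pos (ha h1) (hb h2)

theorem sp_dvd {n : ℕ} (hn : 0 < n) : sp c Q n ∣ n := by
  classical
  induction n using Nat.recOnMul with
  | zero => omega
  | one => rw [sp_one]
  | prime p h => rw [sp_prime c Q h]; split_ifs; exacts [dvd_rfl, one_dvd _]
  | mul a b ha hb =>
    have h1 : 0 < a := Nat.pos_of_mul_pos_right hn
    have h2 : 0 < b := Nat.pos_of_mul_pos_left hn
    rw [sp_mul c Q h1 h2]
    exact Nat.mul_dvd_mul (ha h1) (hb h2)

theorem sp_sp {n : ℕ} (hn : 0 < n) : sp c Q (sp c Q n) = sp c Q n := by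
  classical
  induction n using Nat.recOnMul with
  | zero => omega
  | one => rw [sp_one, sp_one]
  | prime p h =>
    rw [sp_prime c Q h]; split_ifs with h1
    · rw [sp_prime c Q h, if_pos h1]
    · exact sp_one c Q
  | mul a b ha hb =>
    have h1 : 0 < a := Nat.pos_of_mul_pos_right hn
    have h2 : 0 < b := Nat.pos_of_mul_pos_left hn
    rw [sp_mul c Q h1 h2, sp_mul c Q (sp_pos c Q h1) (sp_pos c Q h2), ha h1, hb h2]

theorem Om_one (i : Fin r) : Om c Q i 1 = 0 := by
  unfold Om; rw [ext_one]; rfl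

theorem Om_mul (i : Fin r) {m n : ℕ} (hm : 0 < m) (hn : 0 < n) :
    Om c Q i (m * n) = Om c Q i m + Om c Q i n := by
  unfold Om; rw [ext_mul _ hm hn]; rfl

open scoped Classical in
theorem Om_prime (i : Fin r) {p : ℕ} (hp : p.Prime) :
    Om c Q i p = if ¬ Sp c Q p ∧ c p = i then 1 else 0 := by
  unfold Om; rw [ext_prime _ hp]; rfl

theorem un_one : un c Q 1 = 1 := ext_one _

theorem un_mul {m n : ℕ} (hm : 0 < m) (hn : 0 < n) : un c Q (m * n) = un c Q m * un c Q n :=
  ext_mul _ hm hn

open scoped Classical in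
theorem un_prime {p : ℕ} (hp : p.Prime) : un c Q p =
    if h : Nat.Coprime p Q ∧ ¬ Sp c Q p then ZMod.unitOfCoprime p h.1 else 1 := ext_prime _ hp

theorem gam_one : gam c Q 1 = 0 := by
  unfold gam
  rw [un_one]
  simp only [Om_one]
  ext <;> simp

theorem gam_mul {m n : ℕ} (hm : 0 < m) (hn : 0 < n) :
    gam c Q (m * n) = gam c Q m + gam c Q n := by
  unfold gam
  rw [un_mul c Q hm hn]
  simp only [Om_mul c Q _ hm hn]
  ext
  · simp
  · simp

theorem cop_of {p : ℕ} (hp : p.Prime) (h : ¬ Sp c Q p) : Nat.Coprime p Q := by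
  rw [Nat.Prime.coprime_iff_not_dvd hp]
  intro h1
  exact h (Or.inr h1)

/-- the residue of `n` is given by its label -/
theorem res_eq {n : ℕ} (hn : 0 < n) :
    (n : ZMod Q) = (sp c Q n : ZMod Q) * ((un c Q n : (ZMod Q)ˣ) : ZMod Q) := by
  classical
  refine mul_uniq (f := fun n : ℕ => (n : ZMod Q))
    (g := fun n => (sp c Q n : ZMod Q) * ((un c Q n : (ZMod Q)ˣ) : ZMod Q)) (by simp)
    (by rw [sp_one, un_one]; simp) (fun m n _ _ => by push_cast; ring) (fun m n hm hn => ?_)
    (fun p hp => ?_) hn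
  · simp only [sp_mul c Q hm hn, un_mul c Q hm hn]
    push_cast; ring
  · rw [sp_prime c Q hp, un_prime c Q hp]
    by_cases h : Sp c Q p
    · rw [if_pos h, dif_neg (fun h1 => h1.2 h)]; simp
    · rw [if_neg h, dif_pos ⟨cop_of c Q hp h, h⟩]; simp

theorem gam_sp {n : ℕ} (hn : 0 < n) : gam c Q (sp c Q n) = 0 := by
  classical
  induction n using Nat.recOnMul with
  | zero => omega
  | one => rw [sp_one, gam_one]
  | prime p h =>
    rw [sp_prime c Q h]; split_ifs with h1
    · unfold gam
      rw [un_prime c Q h, dif_neg (fun h2 => h2.2 h1)]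
      simp only [Om_prime c Q _ h]
      ext
      · simp
      · simp [h1]
    · exact gam_one c Q
  | mul a b ha hb =>
    have h1 : 0 < a := Nat.pos_of_mul_pos_right hn
    have h2 : 0 < b := Nat.pos_of_mul_pos_left hn
    rw [sp_mul c Q h1 h2, gam_mul c Q (sp_pos c Q h1) (sp_pos c Q h2), ha h1, hb h2, add_zero]

end

end Pool.Agent.K7.H83.MA
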