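import Pool.Agent.K7.H83.MA.Lab

/-! Labels: the operator averages over a label are asymptotically invariant. -/

set_option autoImplicit false

namespace Pool.Agent.K7.H83.MA

open Finset Filter Topology
open Pool.Agent.Y868.VR

section

variable {r : ℕ} (c : ℕ → Fin r) (Q : ℕ)

/-- representatives of the large colours -/
structure Rep (π : Fin r → ℕ) : Prop where
  pos : ∀ i, 0 < π i
  prime : ∀ i, Big c i → (π i).Prime
  col : ∀ i, Big c i → c (π i) = i

theorem exists_rep : ∃ π : Fin r → ℕ, Rep c π := by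
  classical
  have h : ∀ i : Fin r, ∃ p : ℕ, 0 < p ∧ (Big c i → p.Prime) ∧ (Big c i → c p = i) := by
    intro i
    by_cases hi : Big c i
    · by_contra hcon
      apply hi
      have : (fun p : Nat.Primes => if c p = i then 1 / ((p : ℕ) : ℝ) else 0) = fun _ => 0 := by
        funext p
        rw [if_neg]
        intro hp
        exact hcon ⟨p, p.2.pos, fun _ => p.2, fun _ => hp⟩
      rw [this]
      exact summable_zero
    · exact ⟨1, one_pos, fun h => absurd h hi, fun h => absurd h hi⟩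
  choose π h1 h2 h3 using h
  exact ⟨π, h1, h2, h3⟩

/-- the reduced free part -/
noncomputable def kap (π : Fin r → ℕ) (n : ℕ) : ℕ := ∏ i, π i ^ Om c Q i n

/-- the part of the reduced free part made of `D`-th powers -/
noncomputable def rr (π : Fin r → ℕ) (n : ℕ) : ℕ :=
  ∏ i, (π i ^ Nat.totient Q) ^ (Om c Q i n / Nat.totient Q)

/-- the residual part -/
noncomputable def tt (π : Fin r → ℕ) (g : GG r Q) : ℕ := ∏ i, π i ^ (g.2 i).val

theorem kap_pos {π : Fin r → ℕ} (hπ : ∀ i, 0 < π i) (n : ℕ) : 0 < kap c Q π n :=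
  Finset.prod_pos fun i _ => pow_pos (hπ i) _

theorem rr_pos {π : Fin r → ℕ} (hπ : ∀ i, 0 < π i) (n : ℕ) : 0 < rr c Q π n :=
  Finset.prod_pos fun i _ => pow_pos (pow_pos (hπ i) _) _

theorem tt_pos {π : Fin r → ℕ} (hπ : ∀ i, 0 < π i) (g : GG r Q) : 0 < tt Q π g :=
  Finset.prod_pos fun i _ => pow_pos (hπ i) _

theorem Om_small {i : Fin r} (hi : ¬ Big c i) {n : ℕ} (hn : 0 < n) : Om c Q i n = 0 := by
  classical
  induction n using Nat.recOnMul with
  | zero => omega
  | one => exact Om_one c Q i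
  | prime p h =>
    rw [Om_prime c Q i h, if_neg]
    rintro ⟨h1, h2⟩
    apply h1
    left
    rw [h2]; exact hi
  | mul a b ha hb =>
    have h1 : 0 < a := Nat.pos_of_mul_pos_right hn
    have h2 : 0 < b := Nat.pos_of_mul_pos_left hn
    rw [Om_mul c Q i h1 h2, ha h1, hb h2]

theorem kap_eq (π : Fin r → ℕ) (hQ : 0 < Q) (n : ℕ) :
    kap c Q π n = tt Q π (gam c Q n) * rr c Q π n := by
  have : NeZero (Nat.totient Q) := ⟨(Nat.totient_pos.2 hQ).ne'⟩
  unfold kap tt rr
  rw [← Finset.prod_mul_distrib]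
  refine Finset.prod_congr rfl fun i _ => ?_
  rw [← pow_mul, ← pow_add]
  congr 1
  have : ((gam c Q n).2 i).val = Om c Q i n % Nat.totient Q := by
    unfold gam
    exact ZMod.val_natCast _ _
  rw [this, Nat.mod_add_div]

theorem kap_one (π : Fin r → ℕ) : kap c Q π 1 = 1 := by
  unfold kap
  refine Finset.prod_eq_one fun i _ => ?_
  rw [Om_one, pow_zero]

theorem kap_mul (π : Fin r → ℕ) {m n : ℕ} (hm : 0 < m) (hn : 0 < n) :
    kap c Q π (m * n) = kap c Q π m * kap c Q π n := by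
  unfold kap
  rw [← Finset.prod_mul_distrib]
  refine Finset.prod_congr rfl fun i _ => ?_
  rw [Om_mul c Q i hm hn, pow_add]

theorem u_kap {A : Type*} [CStarAlgebra A] {u : ℕ → A} (h : FG c u) {π : Fin r → ℕ}
    (hπ : Rep c π) {n : ℕ} (hn : 0 < n) : u n = u (sp c Q n) * u (kap c Q π n) := by
  classical
  refine mul_uniq (f := u) (g := fun n => u (sp c Q n) * u (kap c Q π n)) h.one ?_ h.mul ?_ ?_ hn
  · rw [sp_one, kap_one, h.one, one_mul]
  · intro m n hm hn
    have hk := kap_pos c Q hπ.pos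
    rw [sp_mul c Q hm hn, kap_mul c Q π hm hn, h.mul _ _ (sp_pos c Q hm) (sp_pos c Q hn),
      h.mul _ _ (hk m) (hk n), mul_assoc, mul_assoc, ← mul_assoc (u (sp c Q n)),
      h.comm (sp_pos c Q hn) (hk m), mul_assoc]
  · intro p hp
    by_cases h1 : Sp c Q p
    · have e : kap c Q π p = 1 := by
        unfold kap
        refine Finset.prod_eq_one fun i _ => ?_
        rw [Om_prime c Q i hp, if_neg (fun h2 => h2.1 h1), pow_zero]
      rw [sp_prime c Q hp, if_pos h1, e, h.one, mul_one]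
    · have hb : Big c (c p) := by
        by_contra h2; exact h1 (Or.inl h2)
      have e : kap c Q π p = π (c p) := by
        unfold kap
        rw [Finset.prod_eq_single (c p)]
        · rw [Om_prime c Q _ hp, if_pos ⟨h1, rfl⟩, pow_one]
        · intro i _ hi
          rw [Om_prime c Q _ hp, if_neg (fun h2 => hi h2.2.symm), pow_zero]
        · intro h2; exact absurd (Finset.mem_univ _) h2
      rw [sp_prime c Q hp, if_neg h1, e, h.one, one_mul]
      exact h.fg p _ hp (hπ.prime _ hb) (hπ.col _ hb).symm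

/-- the factorisation over a label -/
theorem u_lab {A : Type*} [CStarAlgebra A] {u : ℕ → A} (h : FG c u) {π : Fin r → ℕ}
    (hπ : Rep c π) (hQ : 0 < Q) {n : ℕ} (hn : 0 < n) :
    u n = u (sp c Q n * tt Q π (gam c Q n)) * u (rr c Q π n) := by
  rw [u_kap c Q h hπ hn, kap_eq c Q π hQ n, h.mul _ _ (tt_pos Q hπ.pos _) (rr_pos c Q hπ.pos _),
    h.mul _ _ (sp_pos c Q hn) (tt_pos Q hπ.pos _), mul_assoc]

/-- the multiplicative function of a character of the group of labels -/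
noncomputable def bx (ξ : AddChar (GG r Q) ℂ) (n : ℕ) : ℂ :=
  haveI := Classical.dec (Sp c Q n)
  if Sp c Q n then 0 else ξ (gam c Q n)

theorem GG_kill (hQ : 0 < Q) (g : GG r Q) : (Nat.totient Q) • g = 0 := by
  refine Prod.ext ?_ ?_
  · change Additive.ofMul ((Additive.toMul g.1) ^ Nat.totient Q) = 0
    have : NeZero Q := ⟨hQ.ne'⟩
    have h2 : ∀ x : (ZMod Q)ˣ, x ^ Nat.totient Q = 1 := fun x => ZMod.pow_totient x
    rw [h2]; rfl
  · funext i
    simp

theorem cm_bx (ξ : AddChar (GG r Q) ℂ) {n : ℕ} (hn : 0 < n) :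
    cm (bx c Q ξ) n = if sp c Q n = 1 then ξ (gam c Q n) else 0 := by
  classical
  refine mul_uniq (f := fun n => cm (bx c Q ξ) n)
    (g := fun n => if sp c Q n = 1 then ξ (gam c Q n) else 0) (cm_one _) ?_
    (fun m n _ _ => cm_mul _ m n) ?_ ?_ hn
  · rw [if_pos (sp_one c Q), gam_one, AddChar.map_zero_eq_one]
  · intro m n hm hn
    rw [sp_mul c Q hm hn, gam_mul c Q hm hn, AddChar.map_add_eq_mul]
    by_cases h1 : sp c Q m = 1
    · by_cases h2 : sp c Q n = 1
      · simp [h1, h2]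
      · simp [h1, h2]
    · have : ¬ (sp c Q m * sp c Q n = 1) := fun h3 => h1 (Nat.dvd_one.1 (h3 ▸ Dvd.intro _ rfl))
      simp [h1, this]
  · intro p hp
    rw [cm_prime _ hp, sp_prime c Q hp]
    unfold bx
    by_cases h1 : Sp c Q p
    · rw [if_pos h1, if_pos h1, if_neg hp.ne_one]
    · rw [if_neg h1, if_neg h1, if_pos rfl]

theorem bx_le (hQ : 0 < Q) (ξ : AddChar (GG r Q) ℂ) (n : ℕ) : ‖bx c Q ξ n‖ ≤ 1 := by
  have : NeZero Q := ⟨hQ.ne'⟩
  have : NeZero (Nat.totient Q) := ⟨(Nat.totient_pos.2 hQ).ne'⟩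
  unfold bx
  split_ifs
  · simp
  · exact (AddChar.norm_apply _ _).le

open scoped Classical in
theorem lab_E1_free (hQ : 0 < Q) {A : Type*} [CStarAlgebra A] {u : ℕ → A} (h : FG c u)
    {π : Fin r → ℕ} (hπ : Rep c π) (g : GG r Q) {i : Fin r} (hi : Big c i) (ε : ℝ) (hε : 0 < ε) :
    ∃ N₀ : ℕ, ∀ N : ℕ, N₀ ≤ N →
      ‖∑ n ∈ (Ioc 0 N).filter (fun n => sp c Q n = 1 ∧ gam c Q n = g),
        u n * (1 - u (π i ^ Nat.totient Q))‖ ≤ ε * N := by
  have : NeZero Q := ⟨hQ.ne'⟩
  have : NeZero (Nat.totient Q) := ⟨(Nat.totient_pos.2 hQ).ne'⟩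
  have hD := Nat.totient_pos.2 hQ
  set D := Nat.totient Q with hDdef
  have hq : 0 < π i ^ D := pow_pos (hπ.pos i) D
  have hmain : ∀ ξ : AddChar (GG r Q) ℂ, ∃ N₀ : ℕ, ∀ N : ℕ, N₀ ≤ N →
      ‖∑ n ∈ Ioc 0 N, cm (bx c Q ξ) n • (u n * (1 - (1 : ℂ) • u (π i ^ D)))‖ ≤ ε * N := by
    intro ξ
    refine op_halasz c (bx c Q ξ) (bx_le c Q hQ ξ)
      (insert 0 (Finset.univ.image fun x : GG r Q => ξ x)) (fun p _ => ?_) 1 (by simp) hq
      (fun w hw => ?_) h ε hε
    · unfold bx
      split_ifs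
      · exact Finset.mem_insert_self _ _
      · exact Finset.mem_insert_of_mem (Finset.mem_image.2 ⟨_, Finset.mem_univ _, rfl⟩)
    · intro hs
      apply hi
      refine Summable.of_nonneg_of_le (fun p => by positivity) (fun p => ?_) hs
      split_ifs with h1 h2 h2
      · exact le_rfl
      · exfalso
        apply hw
        rw [not_not] at h2
        have h3 : (bx c Q ξ p) ^ D = 1 := by
          unfold bx at h2 ⊢
          split_ifs at h2 ⊢ with h4
          · simp at h2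
          · rw [← AddChar.map_nsmul_eq_pow, GG_kill Q hQ, AddChar.map_zero_eq_one]
        have h4 : (w (c p) : ℂ) ^ D = 1 := by
          have h5 := congrArg (· ^ D) h2
          simp only [mul_pow, one_pow] at h5
          rw [h3, one_mul] at h5
          exact h5
        rw [one_mul, ev]
        have h5 : cm (fun p => (w (c p) : ℂ)) (π i ^ D) = (w (c (π i)) : ℂ) ^ D := by
          have h6 : ∀ k : ℕ, cm (fun p => (w (c p) : ℂ)) (π i ^ k) = (w (c (π i)) : ℂ) ^ k := by
            intro k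
            induction k with
            | zero => rw [pow_zero, pow_zero, cm_one]
            | succ k ih => rw [pow_succ, cm_mul, ih, cm_prime _ (hπ.prime i hi), pow_succ]
          exact h6 D
        rw [h5, hπ.col i hi, ← h1, h4]
      · positivity
      · exact le_rfl
  choose N₀ hN₀ using hmain
  refine ⟨∑ ξ, N₀ ξ, fun N hN => ?_⟩
  have hcard : (0 : ℝ) < Fintype.card (GG r Q) := by
    exact_mod_cast Fintype.card_pos
  have hcardc : (Fintype.card (GG r Q) : ℂ) ≠ 0 := by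
    exact_mod_cast hcard.ne'
  have hind : ∀ n ∈ Ioc 0 N, (if sp c Q n = 1 ∧ gam c Q n = g then (1 : ℂ) else 0) =
      (Fintype.card (GG r Q) : ℂ)⁻¹ * ∑ ξ : AddChar (GG r Q) ℂ, ξ (-g) * cm (bx c Q ξ) n := by
    intro n hn
    rw [mem_Ioc] at hn
    have h1 : ∑ ξ : AddChar (GG r Q) ℂ, ξ (-g) * cm (bx c Q ξ) n =
        if sp c Q n = 1 then ∑ ξ : AddChar (GG r Q) ℂ, ξ (gam c Q n - g) else 0 := by
      split_ifs with h2
      · refine Finset.sum_congr rfl fun ξ _ => ?_
        rw [cm_bx c Q ξ hn.1, if_pos h2, sub_eq_add_neg, AddChar.map_add_eq_mul, mul_comm]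
      · refine Finset.sum_eq_zero fun ξ _ => ?_
        rw [cm_bx c Q ξ hn.1, if_neg h2, mul_zero]
    rw [h1, AddChar.sum_apply_eq_ite]
    by_cases h2 : sp c Q n = 1
    · by_cases h3 : gam c Q n = g
      · rw [if_pos ⟨h2, h3⟩, if_pos h2, if_pos (sub_eq_zero.2 h3), inv_mul_cancel₀ hcardc]
      · rw [if_neg (fun h4 => h3 h4.2), if_pos h2, if_neg (fun h4 => h3 (sub_eq_zero.1 h4)),
          mul_zero]
    · rw [if_neg (fun h4 => h2 h4.1), if_neg h2, mul_zero]
  have hsum : ∑ n ∈ (Ioc 0 N).filter (fun n => sp c Q n = 1 ∧ gam c Q n = g),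
        u n * (1 - u (π i ^ D)) = (Fintype.card (GG r Q) : ℂ)⁻¹ •
        ∑ ξ : AddChar (GG r Q) ℂ, ξ (-g) •
          ∑ n ∈ Ioc 0 N, cm (bx c Q ξ) n • (u n * (1 - (1 : ℂ) • u (π i ^ D))) := by
    rw [Finset.sum_filter]
    have h1 : ∀ n ∈ Ioc 0 N, (if sp c Q n = 1 ∧ gam c Q n = g then u n * (1 - u (π i ^ D)) else 0) =
        (Fintype.card (GG r Q) : ℂ)⁻¹ • ∑ ξ : AddChar (GG r Q) ℂ,
          ξ (-g) • cm (bx c Q ξ) n • (u n * (1 - (1 : ℂ) • u (π i ^ D))) := by
      intro n hn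
      have h2 : (if sp c Q n = 1 ∧ gam c Q n = g then u n * (1 - u (π i ^ D)) else 0) =
          (if sp c Q n = 1 ∧ gam c Q n = g then (1 : ℂ) else 0) • (u n * (1 - u (π i ^ D))) := by
        split_ifs <;> simp
      rw [h2, hind n hn, mul_smul, Finset.sum_smul]
      simp only [mul_smul, one_smul]
    rw [Finset.sum_congr rfl h1, ← Finset.smul_sum, Finset.sum_comm]
    simp only [Finset.smul_sum]
  rw [hsum, norm_smul, norm_inv, Complex.norm_natCast]
  have h2 : ‖∑ ξ : AddChar (GG r Q) ℂ, ξ (-g) •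
      ∑ n ∈ Ioc 0 N, cm (bx c Q ξ) n • (u n * (1 - (1 : ℂ) • u (π i ^ D)))‖ ≤
      Fintype.card (GG r Q) * (ε * N) := by
    refine (norm_sum_le _ _).trans ?_
    have h3 : ∀ ξ ∈ (Finset.univ : Finset (AddChar (GG r Q) ℂ)), ‖ξ (-g) •
      ∑ n ∈ Ioc 0 N, cm (bx c Q ξ) n • (u n * (1 - (1 : ℂ) • u (π i ^ D)))‖ ≤ ε * N := by
      intro ξ _
      rw [norm_smul, AddChar.norm_apply, one_mul]
      refine hN₀ ξ N (le_trans ?_ hN)
      exact Finset.single_le_sum (f := N₀) (fun _ _ => Nat.zero_le _) (Finset.mem_univ ξ)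
    refine (Finset.sum_le_sum h3).trans (le_of_eq ?_)
    rw [Finset.sum_const, nsmul_eq_mul, Finset.card_univ, AddChar.card_eq]
  calc _ ≤ (Fintype.card (GG r Q) : ℝ)⁻¹ * (Fintype.card (GG r Q) * (ε * N)) :=
        mul_le_mul_of_nonneg_left h2 (by positivity)
    _ = ε * N := by field_simp

end

end Pool.Agent.K7.H83.MA
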