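import Pool.Agent.K7.H83.MA.TK2

/-! The Turan-Kubilius step: conclusion. -/

set_option autoImplicit false
set_option linter.unusedSectionVars false

namespace Pool.Agent.K7.H83.MA

open Finset Filter Topology
open scoped InnerProductSpace

theorem exists_primes {r : ℕ} {c : ℕ → Fin r} {i : Fin r} (hi : Big c i) (R : ℝ) :
    ∃ P : Finset ℕ, (∀ p ∈ P, p.Prime ∧ c p = i) ∧ R ≤ ∑ p ∈ P, (1 : ℝ) / p := by
  classical
  by_contra hcon
  push Not at hcon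
  apply hi
  refine summable_of_sum_le (c := R) (fun p => by positivity) (fun u => ?_)
  have h1 := hcon ((u.filter fun p : Nat.Primes => c p = i).image (fun p : Nat.Primes => (p : ℕ)))
    (by
      intro p hp
      rw [Finset.mem_image] at hp
      obtain ⟨q, hq, rfl⟩ := hp
      rw [mem_filter] at hq
      exact ⟨q.2, hq.2⟩)
  have h2 : ∑ p ∈ (u.filter fun p : Nat.Primes => c p = i).image (fun p : Nat.Primes => (p : ℕ)),
      (1 : ℝ) / p = ∑ p ∈ u.filter fun p : Nat.Primes => c p = i, (1 : ℝ) / ((p : ℕ) : ℝ) := by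
    refine Finset.sum_image ?_
    intro x _ y _ h
    exact Subtype.ext h
  rw [h2, Finset.sum_filter] at h1
  exact h1.le

theorem om_sum {M : Type*} [AddCommGroup M] [Module ℂ M] (P : Finset ℕ) (hP : ∀ p ∈ P, 0 < p)
    (N : ℕ) (f : ℕ → M) :
    ∑ m ∈ Ioc 0 N, ((P.filter (fun p => p ∣ m)).card : ℂ) • f m =
      ∑ m ∈ Ioc 0 N, ∑ p ∈ P.filter (fun p => p * m ≤ N), f (p * m) := by
  classical
  have h1 : ∀ m ∈ Ioc 0 N, ((P.filter (fun p => p ∣ m)).card : ℂ) • f m =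
      ∑ p ∈ P, if p ∣ m then f m else 0 := by
    intro m _
    rw [← Finset.sum_filter, Finset.sum_const, Nat.cast_smul_eq_nsmul]
  have h2 : ∀ m ∈ Ioc 0 N, ∑ p ∈ P.filter (fun p => p * m ≤ N), f (p * m) =
      ∑ p ∈ P, if p * m ≤ N then f (p * m) else 0 := fun m _ => Finset.sum_filter _ _
  rw [Finset.sum_congr rfl h1, Finset.sum_congr rfl h2, Finset.sum_comm,
    Finset.sum_comm (s := Ioc 0 N)]
  refine Finset.sum_congr rfl fun p hp => ?_
  have hp0 := hP p hp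
  rw [← Finset.sum_filter, ← Finset.sum_filter]
  symm
  refine Finset.sum_nbij' (fun m => p * m) (fun m => m / p) ?_ ?_ ?_ ?_ ?_
  · intro m hm
    rw [mem_filter, mem_Ioc] at hm ⊢
    exact ⟨⟨Nat.mul_pos hp0 hm.1.1, hm.2⟩, Dvd.intro _ rfl⟩
  · intro m hm
    rw [mem_filter, mem_Ioc] at hm
    obtain ⟨⟨h3, h4⟩, k, rfl⟩ := hm
    have hk : 0 < k := Nat.pos_of_mul_pos_left h3
    have hk2 : 1 * k ≤ p * k := Nat.mul_le_mul_right k hp0
    rw [Nat.mul_div_cancel_left k hp0, mem_filter, mem_Ioc]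
    exact ⟨⟨hk, by omega⟩, h4⟩
  · intro m _
    exact Nat.mul_div_cancel_left m hp0
  · intro m hm
    rw [mem_filter] at hm
    exact Nat.mul_div_cancel' hm.2
  · intro m _; rfl

variable {H : Type*} [NormedAddCommGroup H] [InnerProductSpace ℂ H]

theorem tk_fin {v : ℕ → H} {D : ℝ} (hD : ∀ k, 0 < k → ‖v k‖ ≤ D) {r : ℕ} {c : ℕ → Fin r}
    {i : Fin r} (W : ℕ → ℕ → H →L[ℂ] H) {B : ℝ} (hB : 0 ≤ B)
    (hW : ∀ m n x, 0 < m → 0 < n → ‖W m n x‖ ≤ B * ‖x‖)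
    (hWW : ∀ p q, p.Prime → q.Prime → c p = i → c q = i → ∀ m n, 0 < m → 0 < n →
      W (p * m) n = W (q * m) n) (P : Finset ℕ) (hP : ∀ p ∈ P, p.Prime ∧ c p = i) {p₀ : ℕ}
    (hp₀ : p₀.Prime ∧ c p₀ = i) (N : ℕ) :
    (∑ p ∈ P, (1 : ℝ) / p) * ‖∑ m ∈ Ioc 0 N, ∑ n ∈ Ioc 0 N, W m n (v (m + n))‖ ≤
      B * D * N * (∑ m ∈ Ioc 0 N,
        |((P.filter (fun p => p ∣ m)).card : ℝ) - ∑ p ∈ P, (1 : ℝ) / p|) +
      B * ∑ m ∈ Ioc 0 N, ∑ n ∈ Ioc 0 N,
        ‖∑ p ∈ P.filter (fun p => p * m ≤ N), v (p * m + n)‖ := by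
  classical
  set L : ℝ := ∑ p ∈ P, (1 : ℝ) / p with hL
  have hL0 : 0 ≤ L := Finset.sum_nonneg fun p _ => by positivity
  have hD0 : 0 ≤ D := (norm_nonneg _).trans (hD 1 one_pos)
  set f : ℕ → H := fun m => ∑ n ∈ Ioc 0 N, W m n (v (m + n)) with hf
  have h1 : (L : ℂ) • ∑ m ∈ Ioc 0 N, f m =
      ∑ m ∈ Ioc 0 N, ((P.filter (fun p => p ∣ m)).card : ℂ) • f m -
      ∑ m ∈ Ioc 0 N, (((P.filter (fun p => p ∣ m)).card : ℂ) - L) • f m := by
    rw [← Finset.sum_sub_distrib, Finset.smul_sum]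
    refine Finset.sum_congr rfl fun m _ => ?_
    rw [← sub_smul]
    congr 1
    ring
  have h2 : L * ‖∑ m ∈ Ioc 0 N, f m‖ = ‖(L : ℂ) • ∑ m ∈ Ioc 0 N, f m‖ := by
    rw [norm_smul, Complex.norm_real, Real.norm_of_nonneg hL0]
  rw [h2, h1, add_comm]
  refine (norm_sub_le _ _).trans (add_le_add ?_ ?_)
  · rw [om_sum P (fun p hp => (hP p hp).1.pos)]
    have h3 : ∀ m ∈ Ioc 0 N, ‖∑ p ∈ P.filter (fun p => p * m ≤ N), f (p * m)‖ ≤
        B * ∑ n ∈ Ioc 0 N, ‖∑ p ∈ P.filter (fun p => p * m ≤ N), v (p * m + n)‖ := by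
      intro m hm
      rw [mem_Ioc] at hm
      have h4 : ∑ p ∈ P.filter (fun p => p * m ≤ N), f (p * m) =
          ∑ n ∈ Ioc 0 N, W (p₀ * m) n (∑ p ∈ P.filter (fun p => p * m ≤ N), v (p * m + n)) := by
        rw [hf]
        simp only [map_sum]
        rw [Finset.sum_comm]
        refine Finset.sum_congr rfl fun n hn => Finset.sum_congr rfl fun p hp => ?_
        rw [mem_Ioc] at hn
        rw [mem_filter] at hp
        rw [hWW p p₀ (hP p hp.1).1 hp₀.1 (hP p hp.1).2 hp₀.2 m n hm.1 hn.1]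
      rw [h4, Finset.mul_sum]
      refine (norm_sum_le _ _).trans (Finset.sum_le_sum fun n hn => ?_)
      rw [mem_Ioc] at hn
      exact hW _ _ _ (Nat.mul_pos hp₀.1.pos hm.1) hn.1
    refine (norm_sum_le _ _).trans ((Finset.sum_le_sum h3).trans (le_of_eq ?_))
    rw [Finset.mul_sum]
  · have h3 : ∀ m ∈ Ioc 0 N, ‖(((P.filter (fun p => p ∣ m)).card : ℂ) - L) • f m‖ ≤
        B * D * N * |((P.filter (fun p => p ∣ m)).card : ℝ) - L| := by
      intro m hm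
      rw [mem_Ioc] at hm
      rw [norm_smul]
      have h4 : ‖((P.filter (fun p => p ∣ m)).card : ℂ) - L‖ =
          |((P.filter (fun p => p ∣ m)).card : ℝ) - L| := by
        rw [← Real.norm_eq_abs, ← Complex.norm_real]
        push_cast
        rfl
      have h5 : ‖f m‖ ≤ B * D * N := by
        have h6 : ∀ n ∈ Ioc 0 N, ‖W m n (v (m + n))‖ ≤ B * D := by
          intro n hn
          rw [mem_Ioc] at hn
          exact (hW m n _ hm.1 hn.1).trans (mul_le_mul_of_nonneg_left (hD _ (by omega)) hB)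
        refine (norm_sum_le _ _).trans ((Finset.sum_le_sum h6).trans (le_of_eq ?_))
        rw [Finset.sum_const, Nat.card_Ioc, Nat.sub_zero, nsmul_eq_mul, mul_comm]
      rw [h4, mul_comm]
      exact mul_le_mul_of_nonneg_right h5 (abs_nonneg _)
    refine (norm_sum_le _ _).trans ((Finset.sum_le_sum h3).trans (le_of_eq ?_))
    rw [Finset.mul_sum]

theorem tk_main {v : ℕ → H} {D : ℝ} (hD : ∀ k, 0 < k → ‖v k‖ ≤ D) (hv : ApeS v) {r : ℕ}
    {c : ℕ → Fin r} {i : Fin r} (hi : Big c i) (W : ℕ → ℕ → H →L[ℂ] H) {B : ℝ} (hB : 0 ≤ B)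
    (hW : ∀ m n x, 0 < m → 0 < n → ‖W m n x‖ ≤ B * ‖x‖)
    (hWW : ∀ p q, p.Prime → q.Prime → c p = i → c q = i → ∀ m n, 0 < m → 0 < n →
      W (p * m) n = W (q * m) n) :
    Tendsto (fun N : ℕ => ((N : ℂ)⁻¹ * (N : ℂ)⁻¹) •
      ∑ m ∈ Ioc 0 N, ∑ n ∈ Ioc 0 N, W m n (v (m + n))) atTop (𝓝 0) := by
  classical
  have hD0 : 0 ≤ D := (norm_nonneg _).trans (hD 1 one_pos)
  rw [Metric.tendsto_atTop]
  intro ε hε
  set κ : ℝ := B * D * √2 + B * √(D ^ 2 + 1) with hκ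
  have hκ0 : 0 ≤ κ := by positivity
  obtain ⟨P, hP, hR⟩ := exists_primes hi ((2 * κ / ε + 1) ^ 2)
  set L : ℝ := ∑ p ∈ P, (1 : ℝ) / p with hL
  have hκε : 0 ≤ 2 * κ / ε := by positivity
  have hLpos : 0 < L := lt_of_lt_of_le (by positivity) hR
  have hsL : 2 * κ / ε + 1 ≤ √L := Real.le_sqrt_of_sq_le hR
  have hne : P.Nonempty := by
    rw [Finset.nonempty_iff_ne_empty]
    rintro rfl
    rw [hL, Finset.sum_empty] at hLpos
    exact lt_irrefl _ hLpos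
  obtain ⟨p₀, hp₀⟩ := hne
  obtain ⟨N₁, hN₁⟩ := second_moment hD hv P (fun p hp => (hP p hp).1.pos) L hLpos
  refine ⟨max N₁ (2 * P.card + 1), fun N hN => ?_⟩
  have hNc : 2 * P.card + 1 ≤ N := (le_max_right _ _).trans hN
  have hN1 : 0 < N := by omega
  have hNpos : (0 : ℝ) < N := by exact_mod_cast hN1
  have hNc' : 2 * (P.card : ℝ) ≤ N := by
    have : 2 * P.card ≤ N := by omega
    exact_mod_cast this
  have h1 := tk_fin hD W hB hW hWW P hP (hP p₀ hp₀) N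
  rw [← hL] at h1
  -- first sum
  set X1 : ℝ := ∑ m ∈ Ioc 0 N, |((P.filter (fun p => p ∣ m)).card : ℝ) - L| with hX1
  have hX1sq : X1 ^ 2 ≤ (N * √(2 * L)) ^ 2 := by
    have h2 := sq_sum_le_card_mul_sum_sq (s := Ioc 0 N)
      (f := fun m => |((P.filter (fun p => p ∣ m)).card : ℝ) - L|)
    rw [Nat.card_Ioc, Nat.sub_zero] at h2
    simp only [sq_abs] at h2
    have h3 := tk_var P (fun p hp => (hP p hp).1) N
    rw [← hL] at h3
    rw [mul_pow, Real.sq_sqrt (by positivity)]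
    calc X1 ^ 2 ≤ N * (N * L + 2 * L * P.card) :=
          h2.trans (mul_le_mul_of_nonneg_left h3 hNpos.le)
      _ ≤ N ^ 2 * (2 * L) := by nlinarith [mul_le_mul_of_nonneg_left hNc' (mul_pos hNpos hLpos).le]
  have hX1' : X1 ≤ N * √(2 * L) := le_of_sq_le_sq hX1sq (by positivity)
  -- second sum
  set X2 : ℝ := ∑ m ∈ Ioc 0 N, ∑ n ∈ Ioc 0 N,
    ‖∑ p ∈ P.filter (fun p => p * m ≤ N), v (p * m + n)‖ with hX2
  have hX2sq : X2 ^ 2 ≤ (N ^ 2 * √((D ^ 2 + 1) * L)) ^ 2 := by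
    have h2 := hN₁ N ((le_max_left _ _).trans hN)
    rw [← hL, ← Finset.sum_product'] at h2
    have h3 := sq_sum_le_card_mul_sum_sq (s := (Ioc 0 N) ×ˢ (Ioc 0 N))
      (f := fun x => ‖∑ p ∈ P.filter (fun p => p * x.1 ≤ N), v (p * x.1 + x.2)‖)
    rw [Finset.card_product, Nat.card_Ioc, Nat.sub_zero] at h3
    rw [hX2, ← Finset.sum_product', mul_pow, Real.sq_sqrt (by positivity)]
    push_cast at h3
    calc _ ≤ (N * N : ℝ) * ((D ^ 2 * L + L) * N ^ 2) :=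
          h3.trans (mul_le_mul_of_nonneg_left h2 (by positivity))
      _ = ((N : ℝ) ^ 2) ^ 2 * ((D ^ 2 + 1) * L) := by ring
  have hX2' : X2 ≤ N ^ 2 * √((D ^ 2 + 1) * L) := le_of_sq_le_sq hX2sq (by positivity)
  have e1 : √(2 * L) = √2 * √L := Real.sqrt_mul (by norm_num) _
  have e2 : √((D ^ 2 + 1) * L) = √(D ^ 2 + 1) * √L := Real.sqrt_mul (by positivity) _
  have e3 : √L * √L = L := Real.mul_self_sqrt hLpos.le
  have hsLpos : 0 < √L := Real.sqrt_pos.2 hLpos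
  set S : ℝ := ‖∑ m ∈ Ioc 0 N, ∑ n ∈ Ioc 0 N, W m n (v (m + n))‖ with hS
  have h4 : √L * (√L * S) ≤ √L * (N ^ 2 * κ) := by
    have h5 : B * D * N * X1 ≤ B * D * N * (N * √(2 * L)) :=
      mul_le_mul_of_nonneg_left hX1' (by positivity)
    have h6 : B * X2 ≤ B * (N ^ 2 * √((D ^ 2 + 1) * L)) := mul_le_mul_of_nonneg_left hX2' hB
    calc √L * (√L * S) = L * S := by rw [← mul_assoc, e3]
      _ ≤ B * D * N * (N * √(2 * L)) + B * (N ^ 2 * √((D ^ 2 + 1) * L)) := by linarith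
      _ = √L * (N ^ 2 * κ) := by rw [e1, e2, hκ]; ring
  have h5 : √L * S ≤ N ^ 2 * κ := le_of_mul_le_mul_left h4 hsLpos
  rw [dist_zero_right, norm_smul, norm_mul, norm_inv, Complex.norm_natCast, ← hS]
  have h6 : (2 * κ / ε + 1) * S ≤ N ^ 2 * κ :=
    (mul_le_mul_of_nonneg_right hsL (norm_nonneg _)).trans h5
  have h7 : (N : ℝ)⁻¹ * (N : ℝ)⁻¹ * S = S / N ^ 2 := by field_simp
  rw [h7]
  have h8 : S / N ^ 2 * (2 * κ / ε + 1) ≤ κ := by
    rw [div_mul_eq_mul_div, div_le_iff₀ (by positivity)]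
    linarith
  have h9 : κ < ε * (2 * κ / ε + 1) := by
    have : ε * (2 * κ / ε + 1) = 2 * κ + ε := by field_simp
    rw [this]; linarith
  by_contra h10
  push Not at h10
  have h11 : ε * (2 * κ / ε + 1) ≤ S / N ^ 2 * (2 * κ / ε + 1) :=
    mul_le_mul_of_nonneg_right h10 (by positivity)
  linarith

end Pool.Agent.K7.H83.MA
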