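import Pool.Agent.K7.H83.MA.Ape
import Pool.Agent.K7.H83.MA.TK3
import Pool.Agent.K7.H83.MA.Asm2

/-! Convergence of the averages. -/

set_option autoImplicit false
set_option linter.unusedSectionVars false

namespace Pool.Agent.K7.H83.MA

open Finset Filter Topology MeasureTheory ProbabilityTheory
open scoped InnerProductSpace ENNReal

theorem exists_big {r : ℕ} (c : ℕ → Fin r) : ∃ i, Big c i := by
  classical
  by_contra hcon
  push Not at hcon
  apply Nat.Primes.not_summable_one_div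
  have h1 : Summable (fun p : Nat.Primes => ∑ i : Fin r,
      if c p = i then 1 / ((p : ℕ) : ℝ) else 0) := by
    refine summable_sum fun i _ => ?_
    have := hcon i
    unfold Big at this
    exact not_not.1 this
  refine h1.congr fun p => ?_
  rw [Finset.sum_ite_eq, if_pos (Finset.mem_univ _)]

variable {X : Type*} [MeasurableSpace X] [StandardBorelSpace X] {μ : Measure X}
  [IsProbabilityMeasure μ]
variable {r : ℕ} {c : ℕ → Fin r} {T : ℕ → X → X}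

/-- the averaging operators -/
noncomputable def SN (μ : Measure X) [IsProbabilityMeasure μ] (T : ℕ → X → X)
    (F1 F2 F4 : X → ℂ) (N : ℕ) : Lp ℂ 2 μ →L[ℂ] Lp ℂ 2 μ :=
  ((N : ℂ)⁻¹ * (N : ℂ)⁻¹) • ∑ m ∈ Ioc 0 N, ∑ n ∈ Ioc 0 N,
    mulB μ (ww T F1 F2 F4 m n) * koop μ T (m + n)

theorem SN_apply (F1 F2 F4 : X → ℂ) (N : ℕ) (f : Lp ℂ 2 μ) :
    SN μ T F1 F2 F4 N f = ((N : ℂ)⁻¹ * (N : ℂ)⁻¹) • ∑ m ∈ Ioc 0 N, ∑ n ∈ Ioc 0 N,
      mulB μ (ww T F1 F2 F4 m n) (koop μ T (m + n) f) := by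
  unfold SN
  rw [_root_.smul_apply, _root_.sum_apply]
  congr 1
  refine Finset.sum_congr rfl fun m _ => ?_
  rw [_root_.sum_apply]
  rfl

theorem SN_norm (h : Sys c μ T) {F1 F2 F4 : X → ℂ} (h1 : BM F1) (h2 : BM F2) (h4 : BM F4)
    {C : ℝ} (hC0 : 0 ≤ C) (hC : ∀ m n x, ‖ww T F1 F2 F4 m n x‖ ≤ C) (N : ℕ)
    (f : Lp ℂ 2 μ) : ‖SN μ T F1 F2 F4 N f‖ ≤ C * ‖f‖ := by
  rw [SN_apply, norm_smul, norm_mul, norm_inv, Complex.norm_natCast]
  have h5 := sum_norm_le' (Ioc 0 N) (Ioc 0 N)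
    (fun m n => mulB μ (ww T F1 F2 F4 m n) (koop μ T (m + n) f)) (C := C * ‖f‖)
    (fun m hm n hn => by
      rw [mem_Ioc] at hm hn
      refine (mulB_norm (ww_BM h h1 h2 h4 hm.1 hn.1) (hC m n) _).trans ?_
      rw [koop_norm (h.mp _ (by omega))])
  have hI : ((Ioc 0 N).card : ℝ) = N := by rw [Nat.card_Ioc]; simp
  rw [hI] at h5
  rcases Nat.eq_zero_or_pos N with h0 | h0
  · subst h0; simp; positivity
  have hN : (0 : ℝ) < N := by exact_mod_cast h0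
  calc _ ≤ ((N : ℝ)⁻¹ * (N : ℝ)⁻¹) * (N * (N * (C * ‖f‖))) :=
        mul_le_mul_of_nonneg_left h5 (by positivity)
    _ = C * ‖f‖ := by field_simp

/-- convergence on the nearly periodic vectors -/
theorem SN_per (h : Sys c μ T) {F1 F2 F4 : X → ℂ} (h1 : BM F1) (h2 : BM F2) (h4 : BM F4)
    {F : Lp ℂ 2 μ} (hF : NPer (koop μ T) F) : F ∈ ConvSub (SN μ T F1 F2 F4) := by
  classical
  obtain ⟨C1, hC1, hF1⟩ := h1.2
  obtain ⟨C2, hC2, hF2⟩ := h2.2
  obtain ⟨C4, hC4, hF4⟩ := h4.2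
  set B : ℝ := C1 * (C2 * C4) with hB
  have hB0 : 0 ≤ B := by positivity
  have hF0 := norm_nonneg F
  rw [mem_ConvSub]
  refine conv_of_approx _ fun ε hε => ?_
  obtain ⟨Q, hQ, G, hG, hbad0⟩ := hF (ε / (4 * (B * ‖F‖) + 1)) (by positivity)
  have hbad : ∀ N : ℕ, (((Ioc 0 N).filter fun k => koop μ T k F ≠ G (k : ZMod Q)).card : ℝ) ≤
      ε / (4 * (B * ‖F‖) + 1) * N := by
    intro N
    refine le_trans (le_of_eq ?_) (hbad0 N)
    congr 2
    ext k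
    simp only [mem_filter]
  refine ⟨fun N => ((N : ℂ)⁻¹ * (N : ℂ)⁻¹) • ∑ m ∈ Ioc 0 N, ∑ n ∈ Ioc 0 N,
    mulB μ (ww T F1 F2 F4 m n) (G ((m + n : ℕ) : ZMod Q)), OP_per h hQ h1 h2 h4 G,
    Eventually.of_forall fun N => ?_⟩
  beta_reduce
  rw [SN_apply, ← smul_sub, ← Finset.sum_sub_distrib, norm_smul, norm_mul, norm_inv,
    Complex.norm_natCast]
  rcases Nat.eq_zero_or_pos N with h0 | h0
  · subst h0; simp; exact hε.le
  have hN : (0 : ℝ) < N := by exact_mod_cast h0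
  have hterm : ∀ m ∈ Ioc 0 N, ‖∑ n ∈ Ioc 0 N, mulB μ (ww T F1 F2 F4 m n) (koop μ T (m + n) F) -
      ∑ n ∈ Ioc 0 N, mulB μ (ww T F1 F2 F4 m n) (G ((m + n : ℕ) : ZMod Q))‖ ≤
      (ε / (4 * (B * ‖F‖) + 1) * (2 * N)) * (B * (2 * ‖F‖)) := by
    intro m hm
    rw [mem_Ioc] at hm
    rw [← Finset.sum_sub_distrib]
    have h5 : ∀ n ∈ Ioc 0 N, ‖mulB μ (ww T F1 F2 F4 m n) (koop μ T (m + n) F) -
        mulB μ (ww T F1 F2 F4 m n) (G ((m + n : ℕ) : ZMod Q))‖ ≤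
        if koop μ T (m + n) F ≠ G ((m + n : ℕ) : ZMod Q) then B * (2 * ‖F‖) else 0 := by
      intro n hn
      rw [mem_Ioc] at hn
      split_ifs with h6
      · rw [← map_sub]
        refine (mulB_norm (ww_BM h h1 h2 h4 hm.1 hn.1) (ww_bound hF1 hF2 hF4 hC1 hC2 m n) _).trans ?_
        refine mul_le_mul_of_nonneg_left ?_ hB0
        refine (norm_sub_le _ _).trans ?_
        rw [koop_norm (h.mp _ (by omega))]
        have := hG ((m + n : ℕ) : ZMod Q)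
        linarith
      · rw [not_not.1 h6, sub_self, norm_zero]
    refine (norm_sum_le _ _).trans ((Finset.sum_le_sum h5).trans ?_)
    rw [← Finset.sum_filter, Finset.sum_const, nsmul_eq_mul]
    refine mul_le_mul_of_nonneg_right ?_ (by positivity)
    have h6 := hbad (2 * N)
    push_cast at h6
    refine le_trans (Nat.cast_le.2 ?_) h6
    refine Finset.card_le_card_of_injOn (fun n => m + n) (fun n hn => ?_) (fun a _ b _ hab => ?_)
    · rw [Finset.mem_coe, mem_filter, mem_Ioc] at hn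
      beta_reduce
      rw [Finset.mem_coe, mem_filter, mem_Ioc]
      obtain ⟨⟨h7, h8⟩, h9⟩ := hn
      exact ⟨⟨by omega, by omega⟩, h9⟩
    · exact Nat.add_left_cancel hab
  have h7 : ‖∑ m ∈ Ioc 0 N, (∑ n ∈ Ioc 0 N, mulB μ (ww T F1 F2 F4 m n) (koop μ T (m + n) F) -
      ∑ n ∈ Ioc 0 N, mulB μ (ww T F1 F2 F4 m n) (G ((m + n : ℕ) : ZMod Q)))‖ ≤
      N * ((ε / (4 * (B * ‖F‖) + 1) * (2 * N)) * (B * (2 * ‖F‖))) := by
    refine (norm_sum_le _ _).trans ((Finset.sum_le_sum hterm).trans ?_)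
    rw [Finset.sum_const, Nat.card_Ioc, Nat.sub_zero, nsmul_eq_mul]
  calc _ ≤ ((N : ℝ)⁻¹ * (N : ℝ)⁻¹) *
        (N * ((ε / (4 * (B * ‖F‖) + 1) * (2 * N)) * (B * (2 * ‖F‖)))) :=
        mul_le_mul_of_nonneg_left h7 (by positivity)
    _ = ε * (4 * (B * ‖F‖)) / (4 * (B * ‖F‖) + 1) := by
        field_simp; ring
    _ ≤ ε := by
        rw [div_le_iff₀ (by positivity)]
        nlinarith

/-- the averages vanish on the vectors orthogonal to the nearly periodic ones -/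
theorem SN_orth (h : Sys c μ T) {F1 F2 F4 : X → ℂ} (h1 : BM F1) (h2 : BM F2) (h4 : BM F4)
    {F : Lp ℂ 2 μ} (hF : ∀ y, NPer (koop μ T) y → ⟪y, F⟫_ℂ = 0) :
    Tendsto (fun N => SN μ T F1 F2 F4 N F) atTop (𝓝 0) := by
  classical
  obtain ⟨C1, hC1, hF1⟩ := h1.2
  obtain ⟨C2, hC2, hF2⟩ := h2.2
  obtain ⟨C4, hC4, hF4⟩ := h4.2
  obtain ⟨i, hi⟩ := exists_big c
  have hape := ape_of_orth c h.FG hF
  have hv : ApeS (fun k => koop μ T k F) := by
    intro Q hQ a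
    refine (hape Q hQ a).congr fun N => ?_
    congr 1
    refine Finset.sum_congr ?_ fun _ _ => rfl
    ext k
    simp only [mem_filter]
  have hmain := tk_main (v := fun k => koop μ T k F) (D := ‖F‖)
    (fun k hk => (koop_norm (h.mp k hk) F).le) hv hi
    (fun m n => mulB μ (ww T F1 F2 F4 m n)) (B := C1 * (C2 * C4)) (by positivity)
    (fun m n x hm hn => mulB_norm (ww_BM h h1 h2 h4 hm hn) (ww_bound hF1 hF2 hF4 hC1 hC2 m n) x)
    (fun p q hp hq hpi hqi m n hm hn => by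
      have hmn := Nat.mul_pos hm hn
      refine mulB_congr (ww_BM h h1 h2 h4 (Nat.mul_pos hp.pos hm) hn)
        (ww_BM h h1 h2 h4 (Nat.mul_pos hq.pos hm) hn) ?_
      have hpq := h.fg p q hp hq (hpi.trans hqi.symm)
      filter_upwards [h.mul p m hp.pos hm, h.mul q m hq.pos hm, h.mul p (m * n) hp.pos hmn,
        h.mul q (m * n) hq.pos hmn, (h.mp m hm).quasiMeasurePreserving.ae hpq,
        (h.mp (m * n) hmn).quasiMeasurePreserving.ae hpq] with x e1 e2 e3 e4 e5 e6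
      unfold ww
      rw [mul_assoc p m n, mul_assoc q m n, e1, e2, e3, e4, e5, e6])
  refine hmain.congr fun N => ?_
  rw [SN_apply]

/-- convergence of the averages -/
theorem SN_conv (h : Sys c μ T) {F1 F2 F4 : X → ℂ} (h1 : BM F1) (h2 : BM F2) (h4 : BM F4)
    (F : Lp ℂ 2 μ) : ∃ V, Tendsto (fun N => SN μ T F1 F2 F4 N F) atTop (𝓝 V) := by
  obtain ⟨C1, hC1, hF1⟩ := h1.2
  obtain ⟨C2, hC2, hF2⟩ := h2.2
  obtain ⟨C4, hC4, hF4⟩ := h4.2
  exact ConvSub_top (fun N f => SN_norm h h1 h2 h4 (by positivity)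
    (ww_bound hF1 hF2 hF4 hC1 hC2) N f) {y | NPer (koop μ T) y}
    (fun f hf => SN_per h h1 h2 h4 hf) (fun f hf => ⟨0, SN_orth h h1 h2 h4 hf⟩) F

end Pool.Agent.K7.H83.MA
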