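import Pool.Agent.K7.H83.MA.Fin
import Pool.Agent.K7.H83.MA.Gel

/-! Operator valued Halasz theorem. -/

set_option autoImplicit false

namespace Pool.Agent.K7.H83.MA

open Finset Filter Topology
open Pool.Agent.Y868.VR

theorem cm_uniq {f g : ℕ → ℂ} (hf1 : f 1 = 1) (hg1 : g 1 = 1)
    (hf : ∀ m n, 0 < m → 0 < n → f (m * n) = f m * f n)
    (hg : ∀ m n, 0 < m → 0 < n → g (m * n) = g m * g n)
    (hp : ∀ p, p.Prime → f p = g p) (n : ℕ) (hn : 0 < n) : f n = g n := by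
  induction n using Nat.recOnMul with
  | zero => omega
  | one => rw [hf1, hg1]
  | prime p h => exact hp p h
  | mul a b ha hb =>
    have h1 : 0 < a := Nat.pos_of_mul_pos_right hn
    have h2 : 0 < b := Nat.pos_of_mul_pos_left hn
    rw [hf a b h1 h2, hg a b h1 h2, ha h1, hb h2]

theorem cm_mulf (b b' : ℕ → ℂ) {n : ℕ} (hn : 0 < n) :
    cm b n * cm b' n = cm (fun p => b p * b' p) n := by
  refine cm_uniq (f := fun n => cm b n * cm b' n) (g := fun n => cm (fun p => b p * b' p) n)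
    ?_ ?_ ?_ ?_ ?_ n hn
  · simp [cm_one]
  · simp [cm_one]
  · intro m n _ _; simp only [cm_mul]; ring
  · intro m n _ _; simp only [cm_mul]
  · intro p hp; simp only [cm_prime _ hp]

theorem exC {x : ℂ} (hx : ‖x‖ = 1) : ∃ z : Circle, (z : ℂ) = x :=
  ⟨⟨x, by
    rw [Submonoid.unitSphere, ← SetLike.mem_coe]
    simpa using hx⟩, rfl⟩

theorem SC.eq_cm {r : ℕ} {c : ℕ → Fin r} {f : ℕ → ℂ} (h : SC c f) :
    ∃ w : Fin r → Circle, ∀ n, 0 < n → f n = cm (fun p => (w (c p) : ℂ)) n := by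
  have h1 : ∀ i : Fin r, ∃ z : Circle, ∀ p, p.Prime → c p = i → f p = z := by
    intro i
    by_cases hi : ∃ p, p.Prime ∧ c p = i
    · obtain ⟨q, hq, hqi⟩ := hi
      obtain ⟨z, hz⟩ := exC (h.uni q hq.pos)
      exact ⟨z, fun p hp hpi => by rw [hz]; exact h.fg p q hp hq (hpi.trans hqi.symm)⟩
    · exact ⟨1, fun p hp hpi => absurd ⟨p, hp, hpi⟩ hi⟩
  choose w hw using h1
  refine ⟨w, fun n hn => ?_⟩
  refine cm_uniq (g := fun n => cm (fun p => (w (c p) : ℂ)) n) h.one (cm_one _) h.mul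
    (fun m n _ _ => cm_mul _ m n) (fun p hp => ?_) n hn
  beta_reduce
  rw [cm_prime _ hp]
  exact hw (c p) p hp rfl

/-- the value of the character at `q`, as a function of the point of the torus -/
noncomputable def ev {r : ℕ} (c : ℕ → Fin r) (q : ℕ) (w : Fin r → Circle) : ℂ :=
  cm (fun p => (w (c p) : ℂ)) q

theorem ev_cont {r : ℕ} (c : ℕ → Fin r) {q : ℕ} (hq : 0 < q) : Continuous (ev c q) := by
  have e : ev c q = fun w => q.factorization.prod (fun p k => (w (c p) : ℂ) ^ k) := by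
    funext w
    rw [ev, cm_apply _ hq.ne']
  rw [e]
  unfold Finsupp.prod
  refine continuous_finsetProd _ fun p _ => ?_
  exact (continuous_subtype_val.comp (continuous_apply (c p))).pow _

theorem ev_norm {r : ℕ} (c : ℕ → Fin r) (q : ℕ) (w : Fin r → Circle) : ‖ev c q w‖ ≤ 1 :=
  cm_bdd (fun n => (Circle.norm_coe (w (c n))).le) q

theorem sc_halasz {r : ℕ} (c : ℕ → Fin r) (b : ℕ → ℂ) (hb : ∀ n, ‖b n‖ ≤ 1) (V : Finset ℂ)
    (hV : ∀ p : ℕ, p.Prime → b p ∈ V) (θ : ℂ) (hθ : ‖θ‖ ≤ 1) {q : ℕ} (hq : 0 < q)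
    (hN : ∀ w : Fin r → Circle, θ * ev c q w ≠ 1 →
      ¬ Summable (fun p : Nat.Primes => if b p * w (c p) ≠ 1 then 1 / ((p : ℕ) : ℝ) else 0))
    (ε : ℝ) (hε : 0 < ε) :
    ∃ N₀ : ℕ, ∀ N : ℕ, N₀ ≤ N → ∀ f : ℕ → ℂ, SC c f →
      ‖∑ n ∈ Ioc 0 N, cm b n * f n‖ * ‖1 - θ * f q‖ ≤ ε * N := by
  classical
  set KK : Set (Fin r → Circle) := {w | ε ≤ ‖1 - θ * ev c q w‖} with hKK
  have hK : IsCompact KK := by
    refine IsClosed.isCompact ?_
    refine isClosed_le continuous_const ?_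
    exact (continuous_const.sub (continuous_const.mul (ev_cont c hq))).norm
  obtain ⟨N₀, h0⟩ := halasz_u hK (fun w p => b p * (w (c p) : ℂ)) (fun w n => by
      rw [norm_mul, Circle.norm_coe, mul_one]; exact hb n) (fun p _ => continuous_const.mul
        (continuous_subtype_val.comp (continuous_apply (c p)))) (fun w hw => by
      refine np_of_fin (b := fun p => b p * (w (c p) : ℂ)) (fun n => by
        rw [norm_mul, Circle.norm_coe, mul_one]; exact hb n)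
        ((V ×ˢ (Finset.univ.image fun i => (w i : ℂ))).image fun x => x.1 * x.2) (fun p hp => ?_) ?_
      · rw [Finset.mem_image]
        refine ⟨(b p, (w (c p) : ℂ)), ?_, rfl⟩
        rw [Finset.mem_product]
        exact ⟨hV p hp, Finset.mem_image.2 ⟨c p, Finset.mem_univ _, rfl⟩⟩
      · apply hN w
        intro h1
        have h2 : ε ≤ ‖1 - θ * ev c q w‖ := hw
        rw [h1, sub_self, norm_zero] at h2
        linarith) (ε / 2) (by positivity)
  refine ⟨N₀, fun N hNN f hf => ?_⟩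
  obtain ⟨w, hw⟩ := hf.eq_cm
  have hfq : f q = ev c q w := hw q hq
  have hsum : ∑ n ∈ Ioc 0 N, cm b n * f n = ∑ n ∈ Ioc 0 N, cm (fun p => b p * (w (c p) : ℂ)) n := by
    refine sum_congr rfl fun n hn => ?_
    rw [mem_Ioc] at hn
    rw [hw n hn.1, cm_mulf _ _ hn.1]
  have hfq1 : ‖1 - θ * f q‖ ≤ 2 := by
    refine (norm_sub_le _ _).trans ?_
    rw [norm_one, norm_mul, hf.uni q hq, mul_one]
    linarith
  by_cases hwK : w ∈ KK
  · have h1 := h0 N hNN w hwK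
    rw [hsum]
    calc _ ≤ (ε / 2 * N) * 2 := mul_le_mul h1 hfq1 (norm_nonneg _) (by positivity)
      _ = ε * N := by ring
  · have h2 : ‖1 - θ * f q‖ ≤ ε := by
      rw [hfq]
      have : ¬ ε ≤ ‖1 - θ * ev c q w‖ := hwK
      linarith
    have h3 : ‖∑ n ∈ Ioc 0 N, cm b n * f n‖ ≤ N := by
      refine (norm_sum_le _ _).trans ?_
      have : ∀ n ∈ Ioc 0 N, ‖cm b n * f n‖ ≤ 1 := by
        intro n hn
        rw [mem_Ioc] at hn
        rw [norm_mul, hf.uni n hn.1, mul_one]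
        exact cm_bdd hb n
      refine (sum_le_sum this).trans ?_
      simp
    calc _ ≤ (N : ℝ) * ε := mul_le_mul h3 h2 (norm_nonneg _) (Nat.cast_nonneg _)
      _ = ε * N := by ring

/-- the operator valued version -/
theorem op_halasz {r : ℕ} (c : ℕ → Fin r) (b : ℕ → ℂ) (hb : ∀ n, ‖b n‖ ≤ 1) (V : Finset ℂ)
    (hV : ∀ p : ℕ, p.Prime → b p ∈ V) (θ : ℂ) (hθ : ‖θ‖ ≤ 1) {q : ℕ} (hq : 0 < q)
    (hN : ∀ w : Fin r → Circle, θ * ev c q w ≠ 1 →
      ¬ Summable (fun p : Nat.Primes => if b p * w (c p) ≠ 1 then 1 / ((p : ℕ) : ℝ) else 0))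
    {A : Type*} [CStarAlgebra A] {u : ℕ → A} (h : FG c u) (ε : ℝ) (hε : 0 < ε) :
    ∃ N₀ : ℕ, ∀ N : ℕ, N₀ ≤ N →
      ‖∑ n ∈ Ioc 0 N, cm b n • (u n * (1 - θ • u q))‖ ≤ ε * N := by
  classical
  obtain ⟨N₀, h0⟩ := sc_halasz c b hb V hV θ hθ hq hN ε hε
  refine ⟨N₀, fun N hNN => ?_⟩
  have h1 : ∑ n ∈ Ioc 0 N, cm b n • (u n * (1 - θ • u q)) =
      ∑ j ∈ (Ioc 0 N) ×ˢ (univ : Finset Bool),
        (if j.2 then cm b j.1 else - (cm b j.1 * θ)) • u (if j.2 then j.1 else j.1 * q) := by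
    rw [sum_product]
    refine sum_congr rfl fun n hn => ?_
    rw [mem_Ioc] at hn
    rw [Fintype.sum_bool]
    simp only [if_true, Bool.false_eq_true, if_false]
    rw [h.mul n q hn.1 hq, mul_sub, mul_one, mul_smul_comm, smul_sub, smul_smul, neg_smul,
      sub_eq_add_neg]
  rw [h1]
  refine gel_bound h _ _ ?_ _ _ fun f hf => ?_
  · rintro ⟨n, j⟩ hj
    rw [mem_product, mem_Ioc] at hj
    simp only
    split_ifs
    · exact hj.1.1
    · exact Nat.mul_pos hj.1.1 hq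
  · have h2 : ∑ j ∈ (Ioc 0 N) ×ˢ (univ : Finset Bool),
        (if j.2 then cm b j.1 else - (cm b j.1 * θ)) * f (if j.2 then j.1 else j.1 * q) =
        (∑ n ∈ Ioc 0 N, cm b n * f n) * (1 - θ * f q) := by
      rw [sum_product, sum_mul]
      refine sum_congr rfl fun n hn => ?_
      rw [mem_Ioc] at hn
      rw [Fintype.sum_bool]
      simp only [if_true, Bool.false_eq_true, if_false]
      rw [hf.mul n q hn.1 hq]
      ring
    rw [h2, norm_mul]
    exact h0 N hNN f hf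

end Pool.Agent.K7.H83.MA
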