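import Pool.Agent.K7.H83.MA.Lab3
import Pool.Agent.K7.H83.MA.Erg

/-! Near periodicity of the eigenvectors. -/

set_option autoImplicit false
set_option linter.unusedSectionVars false

namespace Pool.Agent.K7.H83.MA

open Finset Filter Topology
open scoped InnerProductSpace
open Pool.Agent.Y868.VR (cm cm_prime cm_one cm_mul)

variable {H : Type*} [NormedAddCommGroup H] [InnerProductSpace ℂ H] [CompleteSpace H]

open scoped Classical in
/-- nearly periodic vectors -/
def NPer (u : ℕ → H →L[ℂ] H) (F : H) : Prop :=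
  ∀ ε : ℝ, 0 < ε → ∃ Q : ℕ, 0 < Q ∧ ∃ G : ZMod Q → H, (∀ a, ‖G a‖ ≤ ‖F‖) ∧
    ∀ N : ℕ, (((Ioc 0 N).filter fun k => u k F ≠ G (k : ZMod Q)).card : ℝ) ≤ ε * N

theorem uni_norm {u : H →L[ℂ] H} (hu : u ∈ unitary (H →L[ℂ] H)) (x : H) : ‖u x‖ = ‖x‖ := by
  have h1 : star u * u = 1 := Unitary.star_mul_self_of_mem hu
  exact (ContinuousLinearMap.norm_map_iff_adjoint_comp_self u).2 h1 x

section

variable {r : ℕ} (c : ℕ → Fin r) (Q : ℕ)

open scoped Classical in
/-- the multiplicative function of a character of the units -/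
noncomputable def bu (ψ : AddChar (Additive (ZMod Q)ˣ) ℂ) (p : ℕ) : ℂ :=
  if Sp c Q p then 0 else ψ (Additive.ofMul (un c Q p))

theorem cm_bu (ψ : AddChar (Additive (ZMod Q)ˣ) ℂ) {n : ℕ} (hn : 0 < n) :
    cm (bu c Q ψ) n = if sp c Q n = 1 then ψ (Additive.ofMul (un c Q n)) else 0 := by
  classical
  refine mul_uniq (f := fun n => cm (bu c Q ψ) n)
    (g := fun n => if sp c Q n = 1 then ψ (Additive.ofMul (un c Q n)) else 0) (cm_one _) ?_
    (fun m n _ _ => cm_mul _ m n) ?_ ?_ hn
  · rw [if_pos (sp_one c Q), un_one, ofMul_one, AddChar.map_zero_eq_one]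
  · intro m n hm hn
    rw [sp_mul c Q hm hn, un_mul c Q hm hn, ofMul_mul, AddChar.map_add_eq_mul]
    by_cases h1 : sp c Q m = 1
    · by_cases h2 : sp c Q n = 1
      · simp [h1, h2]
      · simp [h1, h2]
    · have : ¬ (sp c Q m * sp c Q n = 1) :=
        fun h3 => h1 (Nat.dvd_one.1 (h3 ▸ Dvd.intro _ rfl))
      simp [h1, this]
  · intro p hp
    rw [cm_prime _ hp, sp_prime c Q hp]
    unfold bu
    by_cases h1 : Sp c Q p
    · rw [if_pos h1, if_pos h1, if_neg hp.ne_one]
    · rw [if_neg h1, if_neg h1, if_pos rfl]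

theorem bu_le (hQ : 0 < Q) (ψ : AddChar (Additive (ZMod Q)ˣ) ℂ) (n : ℕ) : ‖bu c Q ψ n‖ ≤ 1 := by
  have : NeZero Q := ⟨hQ.ne'⟩
  unfold bu
  split_ifs
  · simp
  · exact (AddChar.norm_apply _ _).le

/-- comparison of sparse sets -/
theorem Spa.mono {E E' : ℕ → Prop} (h : Spa E') (hE : ∀ p, E p → E' p) : Spa E := by
  classical
  unfold Spa at *
  refine Summable.of_nonneg_of_le (fun p => by positivity) (fun p => ?_) h
  by_cases h1 : E p
  · rw [if_pos h1, if_pos (hE _ h1)]
  · rw [if_neg h1]; positivity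

theorem Spa.or {E E' : ℕ → Prop} (h : Spa E) (h' : Spa E') : Spa (fun p => E p ∨ E' p) := by
  classical
  unfold Spa at *
  refine Summable.of_nonneg_of_le (fun p => by positivity) (fun p => ?_) (h.add h')
  by_cases h1 : E p
  · rw [if_pos (Or.inl h1), if_pos h1]
    have : (0 : ℝ) ≤ if E' p then 1 / ((p : ℕ) : ℝ) else 0 := by positivity
    linarith
  · by_cases h2 : E' p
    · rw [if_pos (Or.inr h2), if_neg h1, if_pos h2, zero_add]
    · rw [if_neg (by tauto), if_neg h1, if_neg h2, zero_add]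

theorem Spa.ex {ι : Type*} [Fintype ι] {E : ι → ℕ → Prop} (h : ∀ i, Spa (E i)) :
    Spa (fun p => ∃ i, E i p) := by
  classical
  have h1 : ∀ s : Finset ι, Spa (fun p => ∃ i ∈ s, E i p) := by
    intro s
    induction s using Finset.induction_on with
    | empty =>
      unfold Spa
      refine summable_zero.congr fun p => ?_
      rw [if_neg (by simp)]
    | insert i s _ ih =>
      refine ((h i).or ih).mono fun p => ?_
      rintro ⟨j, hj, hp⟩
      rcases Finset.mem_insert.1 hj with rfl | hj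
      · exact Or.inl hp
      · exact Or.inr ⟨j, hj, hp⟩
  exact (h1 Finset.univ).mono fun p ⟨i, hp⟩ => ⟨i, Finset.mem_univ i, hp⟩

open scoped Classical in
/-- the free part -/
noncomputable def fr (E : ℕ → Prop) (n : ℕ) : ℕ := ext (fun p => if E p then 1 else p) n

open scoped Classical in
/-- its residue -/
noncomputable def up (E : ℕ → Prop) (n : ℕ) : (ZMod Q)ˣ :=
  ext (fun p => if h : Nat.Coprime p Q ∧ ¬ E p then ZMod.unitOfCoprime p h.1 else 1) n

theorem prt_fr (E : ℕ → Prop) {n : ℕ} (hn : 0 < n) : n = prt E n * fr E n := by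
  classical
  refine mul_uniq (f := fun n : ℕ => n) (g := fun n => prt E n * fr E n) rfl
    (by unfold prt fr; simp only [ext_one, mul_one]) (fun _ _ _ _ => rfl) (fun m n hm hn => ?_)
    (fun p hp => ?_) hn
  · unfold prt fr
    rw [ext_mul _ hm hn, ext_mul _ hm hn]; ring
  · unfold prt fr
    rw [ext_prime _ hp, ext_prime _ hp]
    split_ifs <;> simp

theorem fr_up (E : ℕ → Prop) (hE : ∀ p, p.Prime → ¬ E p → Nat.Coprime p Q) {n : ℕ} (hn : 0 < n) :
    (fr E n : ZMod Q) = ((up Q E n : (ZMod Q)ˣ) : ZMod Q) := by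
  classical
  refine mul_uniq (f := fun n : ℕ => (fr E n : ZMod Q))
    (g := fun n => ((up Q E n : (ZMod Q)ˣ) : ZMod Q)) (by unfold fr; rw [ext_one]; simp)
    (by unfold up; rw [ext_one]; simp) (fun m n hm hn => by
      unfold fr; rw [ext_mul _ hm hn]; push_cast; ring) (fun m n hm hn => by
      unfold up; rw [ext_mul _ hm hn]; push_cast; ring)
    (fun p hp => ?_) hn
  unfold fr up
  rw [ext_prime _ hp, ext_prime _ hp]
  by_cases h : E p
  · rw [if_pos h, dif_neg (fun h1 => h1.2 h)]; simp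
  · rw [if_neg h, dif_pos ⟨hE p hp h, h⟩]; simp

theorem prt_mul (E : ℕ → Prop) {m n : ℕ} (hm : 0 < m) (hn : 0 < n) :
    prt E (m * n) = prt E m * prt E n := ext_mul _ hm hn

theorem prt_dvd (E : ℕ → Prop) {n : ℕ} (hn : 0 < n) : prt E n ∣ n := by
  conv_rhs => rw [prt_fr E hn]
  exact Dvd.intro _ rfl

theorem prt_of_dvd (E : ℕ → Prop) {M d : ℕ} (hM : 0 < M) (hE : prt E M = M) (hd : d ∣ M) :
    prt E d = d := by
  obtain ⟨e, rfl⟩ := hd
  have h1 : 0 < d := Nat.pos_of_mul_pos_right hM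
  have h2 : 0 < e := Nat.pos_of_mul_pos_left hM
  rw [prt_mul E h1 h2] at hE
  have h3 := Nat.le_of_dvd h1 (prt_dvd E h1)
  have h4 := Nat.le_of_dvd h2 (prt_dvd E h2)
  by_contra hne
  have h5 : prt E d < d := lt_of_le_of_ne h3 hne
  have h6 : prt E d * prt E e < d * e := by
    calc prt E d * prt E e ≤ prt E d * e := Nat.mul_le_mul_left _ h4
      _ < d * e := Nat.mul_lt_mul_of_pos_right h5 h2
  omega

theorem prt_gcd (E : ℕ → Prop) {M n : ℕ} (hM : 0 < M) (hE : prt E M = M) (hn : 0 < n)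
    (hg : prt E n ∣ M) : prt E n = Nat.gcd n M := by
  refine Nat.dvd_antisymm (Nat.dvd_gcd (prt_dvd E hn) hg) ?_
  have h1 : prt E (Nat.gcd n M) = Nat.gcd n M := prt_of_dvd E hM hE (Nat.gcd_dvd_right n M)
  obtain ⟨k, hk⟩ := Nat.gcd_dvd_left n M
  have h2 : 0 < Nat.gcd n M := Nat.gcd_pos_of_pos_left _ hn
  have h3 : 0 < k := by
    rcases Nat.eq_zero_or_pos k with h | h
    · rw [h, mul_zero] at hk; omega
    · exact h
  have h4 : prt E n = Nat.gcd n M * prt E k := by
    conv_lhs => rw [hk, prt_mul E h2 h3, h1]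
  rw [h4]
  exact Dvd.intro _ rfl

/-- two good integers which are congruent have the same part and congruent free parts -/
theorem good_cong (E : ℕ → Prop) (hE' : ∀ p, p.Prime → ¬ E p → Nat.Coprime p Q) {M n n' : ℕ}
    (hM : 0 < M) (hE : prt E M = M) (hn : 0 < n) (hn' : 0 < n') (hg : prt E n ∣ M)
    (hg' : prt E n' ∣ M) (hc : n ≡ n' [MOD Q * M]) :
    prt E n = prt E n' ∧ up Q E n = up Q E n' := by
  have h1 : prt E n = prt E n' := by
    rw [prt_gcd E hM hE hn hg, prt_gcd E hM hE hn' hg']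
    exact (hc.of_mul_left Q).gcd_eq
  refine ⟨h1, ?_⟩
  have h2 : fr E n ≡ fr E n' [MOD Q] := by
    have h3 := hc
    rw [prt_fr E hn, prt_fr E hn', ← h1] at h3
    obtain ⟨M', hM'⟩ := hg
    have h4 : Q * M = prt E n * (Q * M') := by
      conv_lhs => rw [hM']
      ring
    rw [h4] at h3
    have h5 := Nat.ModEq.mul_left_cancel' (prt_pos E hn).ne' h3
    exact h5.of_mul_right M'
  apply Units.ext
  rw [← fr_up Q E hE' hn, ← fr_up Q E hE' hn']
  exact (ZMod.natCast_eq_natCast_iff _ _ _).2 h2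

theorem eig_NPer (hQ : 0 < Q) {u : ℕ → H →L[ℂ] H} (hu : FG c u) {π : Fin r → ℕ} (hπ : Rep c π)
    (ψ : AddChar (Additive (ZMod Q)ˣ) ℂ) (z : Fin r → ℂ)
    (hsp : ∀ i, Big c i → Spa (fun p => c p = i ∧ bu c Q ψ p * z i ≠ 1)) {y : H}
    (hy : ∀ i, Big c i → u (π i) y = z i • y) : NPer u y := by
  classical
  set E : ℕ → Prop := fun p => bu c Q ψ p * z (c p) ≠ 1 with hEdef
  have hEsp : ∀ p, ¬ E p → ¬ Sp c Q p := by
    intro p hp hs
    apply hp
    rw [hEdef]
    simp only [bu, if_pos hs, zero_mul]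
    exact zero_ne_one
  have hcop : ∀ p, p.Prime → ¬ E p → Nat.Coprime p Q := fun p hp h =>
    cop_of c Q hp (hEsp p h)
  have hSpa : Spa E := by
    have h1 : ∀ i : Fin r, Spa (fun p => Big c i ∧ (c p = i ∧ bu c Q ψ p * z i ≠ 1)) := by
      intro i
      by_cases hi : Big c i
      · exact (hsp i hi).mono fun p hp => hp.2
      · unfold Spa
        refine summable_zero.congr fun p => ?_
        rw [if_neg (fun h => hi h.1)]
    refine ((spa_Sp c Q hQ).or (Spa.ex h1)).mono fun p hp => ?_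
    by_cases hs : Sp c Q p
    · exact Or.inl hs
    · right
      have hb : Big c (c p) := by
        by_contra h2; exact hs (Or.inl h2)
      exact ⟨c p, hb, rfl, hp⟩
  -- the formula
  have hform : ∀ n, 0 < n → u n y = ψ (-(Additive.ofMul (up Q E n))) • u (prt E n) y := by
    intro n hn
    induction n using Nat.recOnMul with
    | zero => omega
    | one =>
      unfold up prt
      rw [ext_one, ext_one, ofMul_one, neg_zero, AddChar.map_zero_eq_one, one_smul]
    | prime p hp =>
      unfold up prt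
      rw [ext_prime _ hp, ext_prime _ hp]
      by_cases h : E p
      · rw [dif_neg (fun h1 => h1.2 h), if_pos h, ofMul_one, neg_zero, AddChar.map_zero_eq_one,
          one_smul]
      · have hs := hEsp p h
        have hb : Big c (c p) := by
          by_contra h2; exact hs (Or.inl h2)
        rw [dif_pos ⟨hcop p hp h, h⟩, if_neg h, hu.one]
        have h1 : u p = u (π (c p)) := hu.fg p _ hp (hπ.prime _ hb) (hπ.col _ hb).symm
        rw [h1, hy _ hb]
        have h2 : bu c Q ψ p * z (c p) = 1 := by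
          by_contra h3; exact h h3
        unfold bu at h2
        rw [if_neg hs, un_prime c Q hp, dif_pos ⟨hcop p hp h, hs⟩] at h2
        have h3 : ψ (-(Additive.ofMul (ZMod.unitOfCoprime p (hcop p hp h)))) = z (c p) := by
          have h4 : ψ (-(Additive.ofMul (ZMod.unitOfCoprime p (hcop p hp h)))) *
              ψ (Additive.ofMul (ZMod.unitOfCoprime p (hcop p hp h))) = 1 := by
            rw [← AddChar.map_add_eq_mul, neg_add_cancel, AddChar.map_zero_eq_one]
          calc ψ (-(Additive.ofMul (ZMod.unitOfCoprime p (hcop p hp h))))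
              = ψ (-(Additive.ofMul (ZMod.unitOfCoprime p (hcop p hp h)))) *
                (ψ (Additive.ofMul (ZMod.unitOfCoprime p (hcop p hp h))) * z (c p)) := by
                rw [h2, mul_one]
            _ = z (c p) := by rw [← mul_assoc, h4, one_mul]
        rw [h3]; rfl
    | mul a b ha hb =>
      have h1 : 0 < a := Nat.pos_of_mul_pos_right hn
      have h2 : 0 < b := Nat.pos_of_mul_pos_left hn
      have h3 : up Q E (a * b) = up Q E a * up Q E b := ext_mul _ h1 h2
      rw [h3, prt_mul E h1 h2, hu.mul a b h1 h2, hu.mul _ _ (prt_pos E h1) (prt_pos E h2),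
        ofMul_mul, neg_add, AddChar.map_add_eq_mul]
      change u a (u b y) = _
      rw [hb h2, map_smul]
      have h4 : u a (u (prt E b) y) = u (prt E b) (u a y) := by
        have := hu.comm h1 (prt_pos E h2)
        exact congrArg (fun A : H →L[ℂ] H => A y) this
      rw [h4, ha h1, map_smul, smul_smul, mul_comm]
      have h5 : u (prt E b) (u (prt E a) y) = (u (prt E a) * u (prt E b)) y := by
        have := hu.comm (prt_pos E h2) (prt_pos E h1)
        exact congrArg (fun A : H →L[ℂ] H => A y) this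
      rw [h5]
  intro ε hε
  obtain ⟨M, hM0, hME, hMc⟩ := good hSpa ε hε
  refine ⟨Q * M, Nat.mul_pos hQ hM0, fun a => if h : ∃ k : ℕ, 0 < k ∧ prt E k ∣ M ∧
    (k : ZMod (Q * M)) = a then u h.choose y else 0, fun a => ?_, fun N => ?_⟩
  · beta_reduce
    split_ifs with h
    · exact (uni_norm (hu.uni _ h.choose_spec.1) y).le
    · rw [norm_zero]; exact norm_nonneg _
  · refine le_trans ?_ (hMc N)
    refine Nat.cast_le.2 (Finset.card_le_card ?_)
    intro k hk
    rw [mem_filter] at hk ⊢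
    refine ⟨hk.1, fun hg => hk.2 ?_⟩
    have hk0 := (mem_Ioc.1 hk.1).1
    have h : ∃ k' : ℕ, 0 < k' ∧ prt E k' ∣ M ∧ (k' : ZMod (Q * M)) = (k : ZMod (Q * M)) :=
      ⟨k, hk0, hg, rfl⟩
    beta_reduce
    rw [dif_pos h]
    obtain ⟨h1, h2, h3⟩ := h.choose_spec
    have h4 := good_cong Q E hcop hM0 hME hk0 h1 hg h2
      ((ZMod.natCast_eq_natCast_iff _ _ _).1 h3.symm)
    rw [hform k hk0, hform _ h1, h4.1, h4.2]

end

end Pool.Agent.K7.H83.MA
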