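import Pool.Agent.K7.H83.MA.Koop

/-! The relative product of a system over the factor of the invariant sets. -/

set_option autoImplicit false

namespace Pool.Agent.K7.H83.MA

open Finset Filter Topology MeasureTheory ProbabilityTheory
open scoped InnerProductSpace ENNReal

section hilbert

variable {H : Type*} [NormedAddCommGroup H] [InnerProductSpace ℂ H] [CompleteSpace H]
variable {r : ℕ} {c : ℕ → Fin r} {q : Fin r → ℕ}

theorem IV_star {u : ℕ → H →L[ℂ] H} (hu : FG c u) (hq : ∀ i, 0 < q i) {n : ℕ} (hn : 0 < n)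
    {x : H} (hx : x ∈ IV u q) : star (u n) x ∈ IV u q := by
  rw [mem_IV] at hx ⊢
  intro i
  have h1 := hu.comm_star (hq i) hn
  have h2 : u (q i) (star (u n) x) = (u (q i) * star (u n)) x := rfl
  rw [h2, h1]
  change star (u n) (u (q i) x) = _
  rw [hx i]

theorem IV_map {u : ℕ → H →L[ℂ] H} (hu : FG c u) (hq : ∀ i, 0 < q i) {n : ℕ} (hn : 0 < n)
    {x : H} (hx : x ∈ IV u q) : u n x ∈ IV u q := by
  rw [mem_IV] at hx ⊢
  intro i
  have h1 := hu.comm (hq i) hn
  have h2 : u (q i) (u n x) = (u (q i) * u n) x := rfl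
  rw [h2, h1]
  change u n (u (q i) x) = _
  rw [hx i]

theorem PI_mem (u : ℕ → H →L[ℂ] H) (x : H) : PI u q x ∈ IV u q :=
  (IV u q).starProjection_apply_mem x

theorem PI_of_mem {u : ℕ → H →L[ℂ] H} {x : H} (hx : x ∈ IV u q) : PI u q x = x :=
  Submodule.starProjection_eq_self_iff.2 hx

theorem PI_orth (u : ℕ → H →L[ℂ] H) (x : H) {y : H} (hy : y ∈ IV u q) :
    ⟪y, x - PI u q x⟫_ℂ = 0 :=
  (Submodule.mem_orthogonal _ _).1 ((IV u q).sub_starProjection_mem_orthogonal x) y hy

theorem PI_self (u : ℕ → H →L[ℂ] H) (x y : H) : ⟪PI u q x, y⟫_ℂ = ⟪x, PI u q y⟫_ℂ := by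
  have h1 := PI_orth u y (PI_mem (q := q) u x)
  have h2 := PI_orth u x (PI_mem (q := q) u y)
  rw [inner_sub_right, sub_eq_zero] at h1 h2
  rw [h1, ← inner_conj_symm x, h2, inner_conj_symm]

theorem PI_norm (u : ℕ → H →L[ℂ] H) (x : H) : ‖PI u q x‖ ≤ ‖x‖ :=
  (IV u q).norm_starProjection_apply_le x

theorem PI_pyth (u : ℕ → H →L[ℂ] H) (x : H) : ‖x - PI u q x‖ ^ 2 = ‖x‖ ^ 2 - ‖PI u q x‖ ^ 2 := by
  have h1 := PI_orth u x (PI_mem (q := q) u x)
  have h2 : x = PI u q x + (x - PI u q x) := by abel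
  have h3 : ‖x‖ ^ 2 = ‖PI u q x‖ ^ 2 + ‖x - PI u q x‖ ^ 2 := by
    have h4 := norm_add_sq_eq_norm_sq_add_norm_sq_of_inner_eq_zero (𝕜 := ℂ) (PI u q x)
      (x - PI u q x) h1
    rw [← h2] at h4
    nlinarith
  linarith

theorem PI_comm {u : ℕ → H →L[ℂ] H} (hu : FG c u) (hq : ∀ i, 0 < q i) {n : ℕ} (hn : 0 < n)
    (x : H) : PI u q (u n x) = u n (PI u q x) := by
  refine Submodule.eq_starProjection_of_mem_of_inner_eq_zero (IV_map hu hq hn (PI_mem u x))
    fun w hw => ?_
  rw [← map_sub]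
  have h1 : ⟪u n (x - PI u q x), w⟫_ℂ = ⟪x - PI u q x, star (u n) w⟫_ℂ := by
    rw [ContinuousLinearMap.star_eq_adjoint, ContinuousLinearMap.adjoint_inner_right]
  rw [h1, ← inner_conj_symm, PI_orth u x (IV_star hu hq hn hw), map_zero]

end hilbert

section

variable {X : Type*} [MeasurableSpace X] {μ : Measure X}
variable {r : ℕ} {c : ℕ → Fin r} {T : ℕ → X → X} {q : Fin r → ℕ}

/-- the invariant sets -/
@[instance_reducible]
def inva (μ : Measure X) (T : ℕ → X → X) (q : Fin r → ℕ) : MeasurableSpace X where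
  MeasurableSet' B := MeasurableSet B ∧ ∀ i, (T (q i)) ⁻¹' B =ᵐ[μ] B
  measurableSet_empty := ⟨MeasurableSet.empty, fun i => by simp⟩
  measurableSet_compl B hB := ⟨hB.1.compl, fun i => by
    rw [Set.preimage_compl]; exact (hB.2 i).compl⟩
  measurableSet_iUnion B hB := ⟨MeasurableSet.iUnion fun j => (hB j).1, fun i => by
    rw [Set.preimage_iUnion]
    exact Filter.EventuallyEq.countable_iUnion fun j => (hB j).2 i⟩

theorem inva_le (μ : Measure X) (T : ℕ → X → X) (q : Fin r → ℕ) :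
    inva μ T q ≤ (inferInstance : MeasurableSpace X) := fun _ hB => hB.1

theorem ae_of_IV (h : Sys c μ T) (hq : ∀ i, 0 < q i) {f : Lp ℂ 2 μ}
    (hf : f ∈ IV (koop μ T) q) (i : Fin r) : ∀ᵐ x ∂μ, f (T (q i) x) = f x := by
  have h1 := koop_coe (h.mp (q i) (hq i)) f
  rw [mem_IV] at hf
  rw [hf i] at h1
  filter_upwards [h1] with x hx
  exact hx.symm

theorem meas_of_IV (h : Sys c μ T) (hq : ∀ i, 0 < q i) {f : Lp ℂ 2 μ}
    (hf : f ∈ IV (koop μ T) q) : AEStronglyMeasurable[inva μ T q] f μ := by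
  have hfm := Lp.stronglyMeasurable f
  have h1 : Measurable[inva μ T q] (f : X → ℂ) := by
    intro U hU
    refine ⟨hfm.measurable hU, fun i => ?_⟩
    filter_upwards [ae_of_IV h hq hf i] with x hx
    change (f (T (q i) x) ∈ U) = (f x ∈ U)
    rw [hx]
  exact h1.stronglyMeasurable.aestronglyMeasurable

theorem IV_of_set [IsFiniteMeasure μ] (h : Sys c μ T) (hq : ∀ i, 0 < q i) {B : Set X}
    (hB : MeasurableSet[inva μ T q] B) :
    bl μ (B.indicator fun _ => (1 : ℂ)) ∈ IV (koop μ T) q := by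
  have hBM : BM (B.indicator fun _ => (1 : ℂ)) :=
    ⟨measurable_const.indicator hB.1, 1, zero_le_one, fun x => by
      by_cases hx : x ∈ B <;> simp [hx]⟩
  rw [mem_IV]
  intro i
  rw [koop_bl (h.mp _ (hq i)) hBM]
  refine bl_congr (hBM.comp (h.mp _ (hq i)).measurable) hBM ?_
  filter_upwards [(hB.2 i).mem_iff] with x hx
  by_cases h1 : x ∈ B
  · have h2 : T (q i) x ∈ B := hx.2 h1
    rw [Set.indicator_of_mem h1, Set.indicator_of_mem h2]
  · have h2 : T (q i) x ∉ B := fun h3 => h1 (hx.1 h3)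
    rw [Set.indicator_of_notMem h1, Set.indicator_of_notMem h2]

theorem ind_BM {B : Set X} (hB : MeasurableSet B) : BM (B.indicator fun _ => (1 : ℂ)) :=
  ⟨measurable_const.indicator hB, 1, zero_le_one, fun x => by
    by_cases hx : x ∈ B <;> simp [hx]⟩

/-- the projection is the conditional expectation -/
theorem PI_eq_condExp [IsFiniteMeasure μ] (h : Sys c μ T) (hq : ∀ i, 0 < q i) {g : X → ℂ}
    (hg : BM g) : PI (koop μ T) q (bl μ g) =ᵐ[μ] μ[g | inva μ T q] := by
  refine ae_eq_condExp_of_forall_setIntegral_eq (inva_le μ T q) (hg.integrable μ)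
    (fun s _ _ => ?_) (fun s hs _ => ?_) (meas_of_IV h hq (PI_mem _ _))
  · exact ((Lp.memLp _).integrable (by norm_num)).integrableOn
  · have hs' : MeasurableSet s := hs.1
    have hB := ind_BM hs'
    have h1 : ∀ f : Lp ℂ 2 μ, ∫ x in s, f x ∂μ = ⟪bl μ (s.indicator fun _ => (1 : ℂ)), f⟫_ℂ := by
      intro f
      rw [L2.inner_def, ← integral_indicator hs']
      refine integral_congr_ae ?_
      filter_upwards [bl_coe hB] with x hx
      rw [RCLike.inner_apply, hx]
      by_cases h2 : x ∈ s <;> simp [h2]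
    have h2 : ∫ x in s, g x ∂μ = ∫ x in s, bl μ g x ∂μ := by
      refine setIntegral_congr_ae hs' ?_
      filter_upwards [bl_coe hg] with x hx _
      rw [hx]
    rw [h2, h1, h1, ← PI_self, PI_of_mem (IV_of_set h hq hs)]

variable [StandardBorelSpace X] [IsProbabilityMeasure μ]

/-- the kernel of the invariant sets -/
noncomputable def kr (μ : Measure X) [IsProbabilityMeasure μ] (T : ℕ → X → X) (q : Fin r → ℕ) :
    Kernel X X :=
  (condExpKernel μ (inva μ T q)).comap id (measurable_id'' (inva_le μ T q))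

instance : IsMarkovKernel (kr μ T q) := by unfold kr; infer_instance

theorem kr_apply (x : X) : kr μ T q x = condExpKernel μ (inva μ T q) x := by
  unfold kr; rw [Kernel.comap_apply]; rfl

/-- the relative product -/
noncomputable def rel (μ : Measure X) [IsProbabilityMeasure μ] (T : ℕ → X → X) (q : Fin r → ℕ) :
    Measure (X × X) := μ ⊗ₘ (kr μ T q)

instance : IsProbabilityMeasure (rel μ T q) := by unfold rel; infer_instance

theorem rel_fst : MeasurePreserving (Prod.fst : X × X → X) (rel μ T q) μ := by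
  refine ⟨measurable_fst, ?_⟩
  have := Measure.fst_compProd μ (kr μ T q)
  exact this

/-- the basic formula -/
theorem rel_int (h : Sys c μ T) (hq : ∀ i, 0 < q i) {f : X → ℂ} (hf : Integrable f μ) {g : X → ℂ}
    (hg : BM g) : ∫ z, f z.1 * g z.2 ∂(rel μ T q) = ∫ x, f x * PI (koop μ T) q (bl μ g) x ∂μ := by
  have hint : Integrable (fun z : X × X => f z.1 * g z.2) (rel μ T q) := by
    obtain ⟨hgm, C, hC, hgC⟩ := hg
    have h1 : Integrable (fun z : X × X => f z.1) (rel μ T q) :=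
      rel_fst.integrable_comp_of_integrable hf
    have h2 := h1.bdd_mul (f := fun z : X × X => g z.2) (c := C)
      ((hgm.comp measurable_snd).aestronglyMeasurable) (Eventually.of_forall fun z => hgC z.2)
    refine h2.congr (Eventually.of_forall fun z => ?_)
    simp only [mul_comm]
  unfold rel at hint ⊢
  rw [Measure.integral_compProd hint]
  refine integral_congr_ae ?_
  have h1 := condExp_ae_eq_integral_condExpKernel (inva_le μ T q) (hg.integrable μ)
  filter_upwards [h1, PI_eq_condExp h hq hg] with x h2 h3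
  rw [h3, h2]
  simp only [kr_apply]
  rw [integral_const_mul]

theorem rel_int_bl (h : Sys c μ T) (hq : ∀ i, 0 < q i) {f g : X → ℂ} (hf : BM f)
    (hg : BM g) : ∫ z, f z.1 * g z.2 ∂(rel μ T q) =
      ⟪bl μ (fun x => (starRingEnd ℂ) (f x)), PI (koop μ T) q (bl μ g)⟫_ℂ := by
  rw [rel_int h hq (hf.integrable μ) hg, L2.inner_def]
  refine integral_congr_ae ?_
  filter_upwards [bl_coe hf.conj] with x hx
  rw [RCLike.inner_apply, hx]
  simp [mul_comm]

theorem rel_real (h : Sys c μ T) (hq : ∀ i, 0 < q i) {s t : Set X} (hs : MeasurableSet s)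
    (ht : MeasurableSet t) : (((rel μ T q).real (s ×ˢ t) : ℝ) : ℂ) =
      ⟪bl μ (s.indicator fun _ => (1 : ℂ)), PI (koop μ T) q (bl μ (t.indicator fun _ => (1 : ℂ)))⟫_ℂ := by
  have h1 : (((rel μ T q).real (s ×ˢ t) : ℝ) : ℂ) =
      ∫ z, (s.indicator (fun _ => (1 : ℂ)) z.1) * (t.indicator (fun _ => (1 : ℂ)) z.2)
        ∂(rel μ T q) := by
    have h2 : (fun z : X × X => (s.indicator (fun _ => (1 : ℂ)) z.1) *
        (t.indicator (fun _ => (1 : ℂ)) z.2)) = (s ×ˢ t).indicator (fun _ => (1 : ℂ)) := by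
      funext z
      by_cases h3 : z.1 ∈ s
      · by_cases h4 : z.2 ∈ t
        · rw [Set.indicator_of_mem h3, Set.indicator_of_mem h4,
            Set.indicator_of_mem (show z ∈ s ×ˢ t from ⟨h3, h4⟩), mul_one]
        · rw [Set.indicator_of_notMem h4,
            Set.indicator_of_notMem (show z ∉ s ×ˢ t from fun h5 => h4 h5.2), mul_zero]
      · rw [Set.indicator_of_notMem h3,
          Set.indicator_of_notMem (show z ∉ s ×ˢ t from fun h5 => h3 h5.1), zero_mul]
    rw [h2, integral_indicator (hs.prod ht), integral_const]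
    simp
  rw [h1, rel_int_bl h hq (ind_BM hs) (ind_BM ht)]
  congr 2
  funext x
  by_cases h3 : x ∈ s <;> simp [h3]

theorem rel_snd (h : Sys c μ T) (hq : ∀ i, 0 < q i) :
    MeasurePreserving (Prod.snd : X × X → X) (rel μ T q) μ := by
  refine ⟨measurable_snd, ?_⟩
  ext t ht
  rw [Measure.map_apply measurable_snd ht]
  have h1 : (Prod.snd : X × X → X) ⁻¹' t = Set.univ ×ˢ t := by ext z; simp
  rw [h1]
  have h2 := rel_real h hq MeasurableSet.univ ht
  have h3 : bl μ (Set.univ.indicator fun _ : X => (1 : ℂ)) ∈ IV (koop μ T) q :=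
    IV_of_set h hq (@MeasurableSet.univ _ (inva μ T q))
  rw [← PI_self, PI_of_mem h3, inner_bl (ind_BM MeasurableSet.univ) (ind_BM ht)] at h2
  have h4 : ∫ x, (starRingEnd ℂ) (Set.univ.indicator (fun _ : X => (1 : ℂ)) x) *
      t.indicator (fun _ => (1 : ℂ)) x ∂μ = ((μ.real t : ℝ) : ℂ) := by
    simp only [Set.indicator_univ, map_one, one_mul]
    rw [integral_indicator ht, integral_const]
    simp
  rw [h4] at h2
  have h5 : (rel μ T q).real (Set.univ ×ˢ t) = μ.real t := by exact_mod_cast h2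
  exact (measureReal_eq_measureReal_iff).1 h5

/-- the product map -/
def T2 (T : ℕ → X → X) (n : ℕ) (z : X × X) : X × X := (T n z.1, T n z.2)

theorem rel_mp (h : Sys c μ T) (hq : ∀ i, 0 < q i) {n : ℕ} (hn : 0 < n) :
    MeasurePreserving (T2 T n) (rel μ T q) (rel μ T q) := by
  have hm := (h.mp n hn).measurable
  have hm2 : Measurable (T2 T n) := (hm.comp measurable_fst).prodMk (hm.comp measurable_snd)
  refine ⟨hm2, ?_⟩
  have : IsFiniteMeasure ((rel μ T q).map (T2 T n)) := Measure.isFiniteMeasure_map _ _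
  refine Measure.ext_prod fun {s t} hs ht => ?_
  rw [Measure.map_apply hm2 (hs.prod ht)]
  have h1 : T2 T n ⁻¹' (s ×ˢ t) = (T n ⁻¹' s) ×ˢ (T n ⁻¹' t) := rfl
  rw [h1]
  refine (measureReal_eq_measureReal_iff).1 ?_
  have h2 := rel_real h hq (hm hs) (hm ht)
  have h3 := rel_real h hq hs ht
  have e : ∀ w : Set X, MeasurableSet w → bl μ ((T n ⁻¹' w).indicator fun _ => (1 : ℂ)) =
      koop μ T n (bl μ (w.indicator fun _ => (1 : ℂ))) := by
    intro w hw
    rw [koop_bl (h.mp n hn) (ind_BM hw)]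
    rfl
  rw [e s hs, e t ht, PI_comm h.FG hq hn] at h2
  have h4 : ∀ f g : Lp ℂ 2 μ, ⟪koop μ T n f, koop μ T n g⟫_ℂ = ⟪f, g⟫_ℂ := by
    intro f g
    have h5 : star (koop μ T n) * koop μ T n = 1 := Unitary.star_mul_self_of_mem (h.FG.uni n hn)
    rw [← ContinuousLinearMap.adjoint_inner_right]
    have h6 : (ContinuousLinearMap.adjoint (koop μ T n)) (koop μ T n g) =
        (star (koop μ T n) * koop μ T n) g := rfl
    rw [h6, h5]; rfl
  rw [h4, ← h3] at h2
  exact_mod_cast h2

/-- the product system -/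
theorem Sys.prod (h : Sys c μ T) (hq : ∀ i, 0 < q i) : Sys c (rel μ T q) (T2 T) := by
  have hae : ∀ P : X → Prop, (∀ᵐ x ∂μ, P x) → ∀ᵐ z ∂(rel μ T q), P z.1 ∧ P z.2 := by
    intro P hP
    exact (rel_fst.quasiMeasurePreserving.ae hP).and
      ((rel_snd h hq).quasiMeasurePreserving.ae hP)
  refine ⟨fun n hn => rel_mp h hq hn, ?_, ?_, ?_, ?_⟩
  · intro n hn
    obtain ⟨S, hS, h1, h2⟩ := h.inv n hn
    have hmS : Measurable (fun z : X × X => (S z.1, S z.2)) :=
      (hS.measurable.comp measurable_fst).prodMk (hS.measurable.comp measurable_snd)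
    have hST : (fun z : X × X => (S z.1, S z.2)) ∘ T2 T n =ᵐ[rel μ T q] id := by
      filter_upwards [hae _ h1] with z hz
      exact Prod.ext hz.1 hz.2
    refine ⟨fun z => (S z.1, S z.2), ⟨hmS, ?_⟩, ?_, ?_⟩
    · have h3 := (rel_mp h hq hn).map_eq
      conv_lhs => rw [← h3]
      rw [Measure.map_map hmS (rel_mp h hq hn).measurable, Measure.map_congr hST, Measure.map_id]
    · filter_upwards [hae _ h1] with z hz
      exact Prod.ext hz.1 hz.2
    · filter_upwards [hae _ h2] with z hz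
      exact Prod.ext hz.1 hz.2
  · filter_upwards [hae _ h.one] with z hz
    exact Prod.ext hz.1 hz.2
  · intro m n hm hn
    filter_upwards [hae _ (h.mul m n hm hn)] with z hz
    exact Prod.ext hz.1 hz.2
  · intro p q' hp hq' hpq
    filter_upwards [hae _ (h.fg p q' hp hq' hpq)] with z hz
    exact Prod.ext hz.1 hz.2

end

end Pool.Agent.K7.H83.MA
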