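import Mathlib

/-! Turan-Kubilius inequality and off-diagonal estimates. -/

set_option autoImplicit false
set_option linter.unusedSectionVars false

namespace Pool.Agent.K7.H83.MA

open Finset Filter Topology
open scoped InnerProductSpace

/-- Turan-Kubilius inequality for a finite set of primes -/
theorem tk_var (P : Finset ℕ) (hP : ∀ p ∈ P, p.Prime) (N : ℕ) :
    ∑ m ∈ Ioc 0 N, (((P.filter (fun p => p ∣ m)).card : ℝ) - ∑ p ∈ P, (1 : ℝ) / p) ^ 2 ≤
      N * (∑ p ∈ P, (1 : ℝ) / p) + 2 * (∑ p ∈ P, (1 : ℝ) / p) * P.card := by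
  classical
  set L : ℝ := ∑ p ∈ P, (1 : ℝ) / p with hL
  have hL0 : 0 ≤ L := Finset.sum_nonneg fun p _ => by positivity
  have h1 : ∀ m, ((P.filter (fun p => p ∣ m)).card : ℝ) = ∑ p ∈ P, if p ∣ m then (1 : ℝ) else 0 := by
    intro m; rw [Finset.sum_boole]
  have h2 : ∑ m ∈ Ioc 0 N, ((P.filter (fun p => p ∣ m)).card : ℝ) =
      ∑ p ∈ P, ((N / p : ℕ) : ℝ) := by
    simp_rw [h1]
    rw [Finset.sum_comm]
    refine sum_congr rfl fun p hp => ?_
    rw [Finset.sum_boole, Nat.Ioc_filter_dvd_card_eq_div]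
  have h3 : ∑ m ∈ Ioc 0 N, ((P.filter (fun p => p ∣ m)).card : ℝ) ^ 2 =
      ∑ p ∈ P, ∑ q ∈ P, (((Ioc 0 N).filter (fun m => p ∣ m ∧ q ∣ m)).card : ℝ) := by
    have h5 : ∀ m, ((P.filter (fun p => p ∣ m)).card : ℝ) ^ 2 =
        ∑ p ∈ P, ∑ q ∈ P, if p ∣ m ∧ q ∣ m then (1 : ℝ) else 0 := by
      intro m
      rw [h1, sq, Finset.sum_mul_sum]
      refine sum_congr rfl fun p _ => sum_congr rfl fun q _ => ?_
      by_cases hp : p ∣ m <;> by_cases hq : q ∣ m <;> simp [hp, hq]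
    simp_rw [h5]
    rw [sum_comm]
    refine sum_congr rfl fun p _ => ?_
    rw [sum_comm]
    refine sum_congr rfl fun q _ => ?_
    rw [Finset.sum_boole]
  have h4 : ∀ p ∈ P, ∀ q ∈ P, (((Ioc 0 N).filter (fun m => p ∣ m ∧ q ∣ m)).card : ℝ) ≤
      N * ((1 / p) * (1 / q)) + if p = q then (N : ℝ) * (1 / p) else 0 := by
    intro p hp q hq
    split_ifs with hpq
    · subst hpq
      have h5 : (Ioc 0 N).filter (fun m => p ∣ m ∧ p ∣ m) = (Ioc 0 N).filter (fun m => p ∣ m) := by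
        refine Finset.filter_congr fun m _ => ?_
        tauto
      rw [h5, Nat.Ioc_filter_dvd_card_eq_div]
      have h6 : ((N / p : ℕ) : ℝ) ≤ N * (1 / p) := by
        rw [mul_one_div]; exact Nat.cast_div_le
      have h7 : (0 : ℝ) ≤ N * ((1 / p) * (1 / p)) := by positivity
      linarith
    · have h5 : (Ioc 0 N).filter (fun m => p ∣ m ∧ q ∣ m) = (Ioc 0 N).filter (fun m => p * q ∣ m) := by
        refine Finset.filter_congr fun m _ => ?_
        constructor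
        · rintro ⟨h6, h7⟩
          exact Nat.Coprime.mul_dvd_of_dvd_of_dvd ((Nat.coprime_primes (hP p hp) (hP q hq)).2 hpq)
            h6 h7
        · intro h6
          exact ⟨dvd_of_mul_right_dvd h6, dvd_of_mul_left_dvd h6⟩
      rw [h5, Nat.Ioc_filter_dvd_card_eq_div, add_zero]
      refine (Nat.cast_div_le (α := ℝ)).trans (le_of_eq ?_)
      push_cast
      rw [one_div_mul_one_div, mul_one_div]
  have h5 : ∑ m ∈ Ioc 0 N, ((P.filter (fun p => p ∣ m)).card : ℝ) ^ 2 ≤ N * L ^ 2 + N * L := by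
    rw [h3]
    refine (Finset.sum_le_sum fun p hp => Finset.sum_le_sum fun q hq => h4 p hp q hq).trans ?_
    simp_rw [Finset.sum_add_distrib]
    refine add_le_add (le_of_eq ?_) (le_of_eq ?_)
    · simp_rw [← Finset.mul_sum]
      rw [← Finset.sum_mul, ← hL, sq]
    · rw [hL, Finset.mul_sum]
      refine sum_congr rfl fun p hp => ?_
      rw [Finset.sum_ite_eq, if_pos hp]
  have h6 : (N : ℝ) * L - P.card ≤ ∑ m ∈ Ioc 0 N, ((P.filter (fun p => p ∣ m)).card : ℝ) := by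
    rw [h2, hL, Finset.mul_sum, Finset.card_eq_sum_ones, Nat.cast_sum, ← Finset.sum_sub_distrib]
    refine Finset.sum_le_sum fun p hp => ?_
    have h7 := Nat.lt_floor_add_one ((N : ℝ) / p)
    rw [Nat.floor_div_eq_div] at h7
    rw [mul_one_div]
    push_cast
    linarith
  have h7 : ∀ m ∈ Ioc 0 N, (((P.filter (fun p => p ∣ m)).card : ℝ) - L) ^ 2 =
      ((P.filter (fun p => p ∣ m)).card : ℝ) ^ 2 - 2 * L * ((P.filter (fun p => p ∣ m)).card : ℝ) +
        L ^ 2 := by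
    intro m _; ring
  rw [Finset.sum_congr rfl h7, Finset.sum_add_distrib, Finset.sum_sub_distrib, ← Finset.mul_sum,
    Finset.sum_const, Nat.card_Ioc, Nat.sub_zero, nsmul_eq_mul]
  nlinarith [mul_le_mul_of_nonneg_left h6 hL0]

variable {H : Type*} [NormedAddCommGroup H] [InnerProductSpace ℂ H]

/-- vanishing averages along progressions, for sequences -/
def ApeS (v : ℕ → H) : Prop :=
  ∀ Q : ℕ, 0 < Q → ∀ a : ZMod Q,
    haveI : DecidableEq (ZMod Q) := Classical.decEq _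
    Tendsto (fun N : ℕ => (N : ℂ)⁻¹ • ∑ k ∈ (Ioc 0 N).filter (fun k : ℕ => (k : ZMod Q) = a), v k)
      atTop (𝓝 0)

theorem ApeS.unif {v : ℕ → H} (hv : ApeS v) {D : ℝ} (hD : ∀ k, 0 < k → ‖v k‖ ≤ D) {h : ℕ}
    (hh : 0 < h) (δ : ℝ) (hδ : 0 < δ) : ∃ C : ℝ, 0 ≤ C ∧ ∀ K : ℕ, ∀ a : ℕ,
      ‖∑ k ∈ (Ioc 0 K).filter (fun k : ℕ => k ≡ a [MOD h]), v k‖ ≤ δ * K + C := by
  classical
  have : NeZero h := ⟨hh.ne'⟩
  have hD0 : 0 ≤ D := (norm_nonneg _).trans (hD 1 one_pos)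
  have h1 : ∀ a : ZMod h, ∃ N₀ : ℕ, ∀ N, N₀ ≤ N →
      ‖∑ k ∈ (Ioc 0 N).filter (fun k : ℕ => (k : ZMod h) = a), v k‖ ≤ δ * N := by
    intro a
    have h2 := hv h hh a
    rw [Metric.tendsto_atTop] at h2
    obtain ⟨N₀, h3⟩ := h2 δ hδ
    refine ⟨max N₀ 1, fun N hN => ?_⟩
    have h4 := h3 N ((le_max_left _ _).trans hN)
    have hN1 : 0 < N := (le_max_right _ _).trans hN
    have hNpos : (0 : ℝ) < N := by exact_mod_cast hN1
    rw [dist_zero_right, norm_smul, norm_inv, Complex.norm_natCast, inv_mul_lt_iff₀ hNpos] at h4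
    refine le_trans (le_of_eq ?_) (h4.le.trans (le_of_eq (mul_comm _ _)))
    congr 1
    refine Finset.sum_congr ?_ fun _ _ => rfl
    ext k
    simp only [mem_filter]
  choose N₀ hN₀ using h1
  set K₀ : ℕ := ∑ a, N₀ a with hK₀
  have hK : ∀ a, N₀ a ≤ K₀ := fun a => Finset.single_le_sum (fun _ _ => Nat.zero_le _)
    (Finset.mem_univ a)
  refine ⟨K₀ * D, by positivity, fun K a => ?_⟩
  have h2 : (Ioc 0 K).filter (fun k : ℕ => k ≡ a [MOD h]) =
      (Ioc 0 K).filter (fun k : ℕ => (k : ZMod h) = (a : ZMod h)) := by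
    refine Finset.filter_congr fun k _ => ?_
    rw [ZMod.natCast_eq_natCast_iff]
  rw [h2]
  have hKD : 0 ≤ (K₀ : ℝ) * D := by positivity
  rcases le_or_gt K₀ K with h3 | h3
  · have := hN₀ (a : ZMod h) K ((hK _).trans h3)
    linarith
  · have h4 : ‖∑ k ∈ (Ioc 0 K).filter (fun k : ℕ => (k : ZMod h) = (a : ZMod h)), v k‖ ≤ K₀ * D := by
      have h5 : ∀ k ∈ (Ioc 0 K).filter (fun k : ℕ => (k : ZMod h) = (a : ZMod h)), ‖v k‖ ≤ D :=
        fun k hk => hD k (mem_Ioc.1 (mem_filter.1 hk).1).1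
      refine (norm_sum_le _ _).trans ((Finset.sum_le_sum h5).trans ?_)
      rw [Finset.sum_const, nsmul_eq_mul]
      refine mul_le_mul_of_nonneg_right ?_ hD0
      have h6 := Finset.card_filter_le (Ioc 0 K) (fun k : ℕ => (k : ZMod h) = (a : ZMod h))
      rw [Nat.card_Ioc] at h6
      exact_mod_cast h6.trans (by omega)
    have : 0 ≤ δ * K := by positivity
    linarith

/-- sums along shifted progressions -/
theorem prog_sum (v : ℕ → H) {h : ℕ} (hh : 0 < h) (a M : ℕ) :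
    ∑ m ∈ Ioc 0 M, v (a + h * m) =
      ∑ k ∈ (Ioc 0 (a + h * M)).filter (fun k : ℕ => k ≡ a [MOD h]), v k -
      ∑ k ∈ (Ioc 0 a).filter (fun k : ℕ => k ≡ a [MOD h]), v k := by
  classical
  have h1 : (Ioc 0 (a + h * M)).filter (fun k : ℕ => k ≡ a [MOD h]) =
      (Ioc 0 a).filter (fun k : ℕ => k ≡ a [MOD h]) ∪
      (Ioc a (a + h * M)).filter (fun k : ℕ => k ≡ a [MOD h]) := by
    rw [← Finset.filter_union, Finset.Ioc_union_Ioc_eq_Ioc (Nat.zero_le _) (Nat.le_add_right _ _)]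
  have h2 : Disjoint ((Ioc 0 a).filter (fun k : ℕ => k ≡ a [MOD h]))
      ((Ioc a (a + h * M)).filter (fun k : ℕ => k ≡ a [MOD h])) := by
    refine Finset.disjoint_filter_filter ?_
    rw [Finset.disjoint_left]
    intro k hk hk'
    rw [mem_Ioc] at hk hk'
    omega
  rw [h1, Finset.sum_union h2, add_sub_cancel_left]
  refine Finset.sum_nbij' (fun m => a + h * m) (fun k => (k - a) / h) ?_ ?_ ?_ ?_ ?_
  · intro m hm
    rw [mem_Ioc] at hm
    rw [mem_filter, mem_Ioc]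
    have h3 : 0 < h * m := Nat.mul_pos hh hm.1
    have h4 : h * m ≤ h * M := Nat.mul_le_mul_left h hm.2
    refine ⟨⟨by omega, by omega⟩, ?_⟩
    unfold Nat.ModEq
    rw [Nat.add_mul_mod_self_left]
  · intro k hk
    rw [mem_filter, mem_Ioc] at hk
    obtain ⟨⟨h3, h4⟩, h5⟩ := hk
    have h6 : h ∣ k - a := (Nat.modEq_iff_dvd' h3.le).1 h5.symm
    obtain ⟨m, hm⟩ := h6
    rw [hm, Nat.mul_div_cancel_left m hh, mem_Ioc]
    constructor
    · rcases Nat.eq_zero_or_pos m with h7 | h7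
      · subst h7; omega
      · exact h7
    · have : h * m ≤ h * M := by omega
      exact Nat.le_of_mul_le_mul_left this hh
  · intro m hm
    rw [Nat.add_sub_cancel_left, Nat.mul_div_cancel_left m hh]
  · intro k hk
    rw [mem_filter, mem_Ioc] at hk
    obtain ⟨⟨h3, h4⟩, h5⟩ := hk
    have h6 : h ∣ k - a := (Nat.modEq_iff_dvd' h3.le).1 h5.symm
    rw [Nat.mul_div_cancel' h6]; omega
  · intro m hm; rfl

theorem prog_bound {v : ℕ → H} {h : ℕ} (hh : 0 < h) {δ C : ℝ} (hδ : 0 ≤ δ) (hC : 0 ≤ C)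
    (hb : ∀ K : ℕ, ∀ a : ℕ,
      ‖∑ k ∈ (Ioc 0 K).filter (fun k : ℕ => k ≡ a [MOD h]), v k‖ ≤ δ * K + C) (a M₁ M₂ R : ℕ)
    (hR : a + h * M₂ ≤ R) :
    ‖∑ m ∈ Ioc M₁ M₂, v (a + h * m)‖ ≤ 2 * (δ * R + C) := by
  rcases le_or_gt M₂ M₁ with h1 | h1
  · rw [Finset.Ioc_eq_empty_of_le h1, Finset.sum_empty, norm_zero]
    positivity
  · have h2 := Finset.sum_Ioc_consecutive (fun m => v (a + h * m)) (Nat.zero_le M₁) h1.le
    have h3 : ∑ m ∈ Ioc M₁ M₂, v (a + h * m) =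
        ∑ k ∈ (Ioc 0 (a + h * M₂)).filter (fun k : ℕ => k ≡ a [MOD h]), v k -
        ∑ k ∈ (Ioc 0 (a + h * M₁)).filter (fun k : ℕ => k ≡ a [MOD h]), v k := by
      rw [← add_right_inj (∑ m ∈ Ioc 0 M₁, v (a + h * m)), h2, prog_sum v hh, prog_sum v hh]
      abel
    rw [h3]
    refine (norm_sub_le _ _).trans ?_
    have h4 := hb (a + h * M₂) a
    have h5 := hb (a + h * M₁) a
    have h6 : ((a + h * M₂ : ℕ) : ℝ) ≤ R := by exact_mod_cast hR
    have h7 : ((a + h * M₁ : ℕ) : ℝ) ≤ R := by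
      have : a + h * M₁ ≤ a + h * M₂ := Nat.add_le_add_left (Nat.mul_le_mul_left h h1.le) a
      exact_mod_cast this.trans hR
    have h8 := mul_le_mul_of_nonneg_left h6 hδ
    have h9 := mul_le_mul_of_nonneg_left h7 hδ
    linarith

end Pool.Agent.K7.H83.MA
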