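import Pool.Agent.K7.H83.MA.TK
import Pool.Agent.K7.H83.MA.Lab2

/-! The Turan-Kubilius step. -/

set_option autoImplicit false
set_option linter.unusedSectionVars false

namespace Pool.Agent.K7.H83.MA

open Finset Filter Topology
open scoped InnerProductSpace

variable {H : Type*} [NormedAddCommGroup H] [InnerProductSpace ℂ H]

theorem offdiag {v : ℕ → H} {D : ℝ} (hD : ∀ k, 0 < k → ‖v k‖ ≤ D) (hv : ApeS v) {p q : ℕ}
    (hp : 0 < p) (hpq : p < q) (δ : ℝ) (hδ : 0 < δ) :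
    ∃ N₀ : ℕ, ∀ N : ℕ, N₀ ≤ N →
      ‖∑ m ∈ Ioc 0 (N / q), ∑ n ∈ Ioc 0 N, ⟪v (p * m + n), v (q * m + n)⟫_ℂ‖ ≤ δ * N ^ 2 := by
  classical
  obtain ⟨h, rfl⟩ := Nat.exists_eq_add_of_lt hpq
  set h' := h + 1 with hh'
  have e : p + h + 1 = p + h' := rfl
  rw [e]
  have hh : 0 < h' := Nat.succ_pos h
  have hD0 : 0 ≤ D := (norm_nonneg _).trans (hD 1 one_pos)
  obtain ⟨C, hC, hb⟩ := hv.unif hD hh (δ / (24 * (D + 1))) (by positivity)
  obtain ⟨N₁, hN₁⟩ := exists_nat_ge (8 * D * C / δ)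
  refine ⟨max N₁ 1, fun N hN => ?_⟩
  have hN1 : 0 < N := (le_max_right _ _).trans hN
  have hNpos : (0 : ℝ) < N := by exact_mod_cast hN1
  have hN2 : 8 * D * C / δ ≤ N := hN₁.trans (by exact_mod_cast (le_max_left _ _).trans hN)
  -- first reindexing
  have h1 : ∀ m ∈ Ioc 0 (N / (p + h')), ∑ n ∈ Ioc 0 N,
      ⟪v (p * m + n), v ((p + h') * m + n)⟫_ℂ =
      ∑ a ∈ (Ioc 0 (2 * N)).filter (fun a => p * m < a ∧ a ≤ p * m + N),
        ⟪v a, v (a + h' * m)⟫_ℂ := by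
    intro m hm
    rw [mem_Ioc] at hm
    have h2 : (p + h') * m ≤ N := by
      have := Nat.mul_le_mul_left (p + h') hm.2
      exact this.trans (Nat.mul_div_le N _)
    have h3 : p * m ≤ (p + h') * m := Nat.mul_le_mul_right m (Nat.le_add_right p h')
    refine Finset.sum_nbij' (fun n => p * m + n) (fun a => a - p * m) ?_ ?_ ?_ ?_ ?_
    · intro n hn
      rw [mem_Ioc] at hn
      rw [mem_filter, mem_Ioc]
      omega
    · intro a ha
      rw [mem_filter, mem_Ioc] at ha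
      rw [mem_Ioc]
      omega
    · intro n hn
      simp
    · intro a ha
      rw [mem_filter, mem_Ioc] at ha
      have : p * m ≤ a := ha.2.1.le
      omega
    · intro n hn
      have : (p + h') * m + n = p * m + n + h' * m := by ring
      rw [this]
  rw [Finset.sum_congr rfl h1]
  have h2 : ∑ m ∈ Ioc 0 (N / (p + h')), ∑ a ∈ (Ioc 0 (2 * N)).filter
      (fun a => p * m < a ∧ a ≤ p * m + N), ⟪v a, v (a + h' * m)⟫_ℂ =
      ∑ a ∈ Ioc 0 (2 * N), ⟪v a, ∑ m ∈ Ioc ((a - N - 1) / p)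
        (min (N / (p + h')) ((a - 1) / p)), v (a + h' * m)⟫_ℂ := by
    have h3 : ∀ m ∈ Ioc 0 (N / (p + h')), ∑ a ∈ (Ioc 0 (2 * N)).filter
      (fun a => p * m < a ∧ a ≤ p * m + N), ⟪v a, v (a + h' * m)⟫_ℂ =
      ∑ a ∈ Ioc 0 (2 * N), if p * m < a ∧ a ≤ p * m + N then ⟪v a, v (a + h' * m)⟫_ℂ else 0 :=
      fun m _ => Finset.sum_filter _ _
    rw [Finset.sum_congr rfl h3, Finset.sum_comm]
    refine Finset.sum_congr rfl fun a ha => ?_
    rw [mem_Ioc] at ha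
    rw [← Finset.sum_filter, inner_sum]
    refine Finset.sum_congr ?_ fun _ _ => rfl
    ext m
    rw [mem_filter, mem_Ioc, mem_Ioc, le_min_iff, Nat.div_lt_iff_lt_mul hp,
      Nat.le_div_iff_mul_le hp, mul_comm m p]
    constructor
    · rintro ⟨⟨h4, h5⟩, h6, h7⟩
      have : 0 < p * m := Nat.mul_pos hp h4
      refine ⟨by omega, h5, by omega⟩
    · rintro ⟨h4, h5, h6⟩
      have : 0 < m := by
        rcases Nat.eq_zero_or_pos m with h7 | h7
        · subst h7; simp at h4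
        · exact h7
      refine ⟨⟨this, h5⟩, by omega, by omega⟩
  rw [h2]
  have h3 : ∀ a ∈ Ioc 0 (2 * N), ‖⟪v a, ∑ m ∈ Ioc ((a - N - 1) / p)
        (min (N / (p + h')) ((a - 1) / p)), v (a + h' * m)⟫_ℂ‖ ≤
        D * (2 * (δ / (24 * (D + 1)) * ((3 * N : ℕ) : ℝ) + C)) := by
    intro a ha
    rw [mem_Ioc] at ha
    refine (norm_inner_le_norm _ _).trans ?_
    refine mul_le_mul (hD a ha.1) ?_ (norm_nonneg _) hD0
    refine prog_bound hh (by positivity) hC hb a _ _ (3 * N) ?_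
    have h4 : min (N / (p + h')) ((a - 1) / p) ≤ N / (p + h') := min_le_left _ _
    have h5 : h' * min (N / (p + h')) ((a - 1) / p) ≤ (p + h') * (N / (p + h')) :=
      Nat.mul_le_mul (Nat.le_add_left _ _) h4
    have h6 := Nat.mul_div_le N (p + h')
    omega
  refine (norm_sum_le _ _).trans ((Finset.sum_le_sum h3).trans ?_)
  rw [Finset.sum_const, Nat.card_Ioc, Nat.sub_zero, nsmul_eq_mul]
  push_cast
  have h4 : 8 * D * C ≤ N * δ := by
    rwa [div_le_iff₀ hδ] at hN2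
  have h5 : D / (D + 1) ≤ 1 := by
    rw [div_le_one (by positivity)]; linarith
  have h6 : 2 * (N : ℝ) * (D * (2 * (δ / (24 * (D + 1)) * (3 * N) + C))) =
      (δ * N ^ 2 / 2) * (D / (D + 1)) + 4 * N * D * C := by
    field_simp
    ring
  rw [h6]
  have h7 : (δ * N ^ 2 / 2) * (D / (D + 1)) ≤ (δ * N ^ 2 / 2) * 1 :=
    mul_le_mul_of_nonneg_left h5 (by positivity)
  nlinarith

theorem aux_card (K δ N : ℝ) (hδ : 0 < δ) :
    K * (K * (δ / (K ^ 2 + 1) * N ^ 2)) ≤ δ * N ^ 2 := by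
  have h6 : K * (K * (δ / (K ^ 2 + 1) * N ^ 2)) = (δ * N ^ 2) * (K ^ 2 / (K ^ 2 + 1)) := by
    field_simp
  rw [h6]
  refine mul_le_of_le_one_right (by positivity) ?_
  rw [div_le_one (by positivity)]; linarith

/-- second moment of the sums over the primes -/
theorem second_moment {v : ℕ → H} {D : ℝ} (hD : ∀ k, 0 < k → ‖v k‖ ≤ D) (hv : ApeS v)
    (P : Finset ℕ) (hP : ∀ p ∈ P, 0 < p) (δ : ℝ) (hδ : 0 < δ) :
    ∃ N₀ : ℕ, ∀ N : ℕ, N₀ ≤ N →
      ∑ m ∈ Ioc 0 N, ∑ n ∈ Ioc 0 N, ‖∑ p ∈ P.filter (fun p => p * m ≤ N), v (p * m + n)‖ ^ 2 ≤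
        (D ^ 2 * (∑ p ∈ P, (1 : ℝ) / p) + δ) * N ^ 2 := by
  classical
  have hD0 : 0 ≤ D := (norm_nonneg _).trans (hD 1 one_pos)
  set δ' : ℝ := δ / (P.card ^ 2 + 1) with hδ'
  have hδ'0 : 0 < δ' := by positivity
  have hoff : ∀ p q : ℕ, ∃ N₀ : ℕ, 0 < p → 0 < q → p ≠ q → ∀ N : ℕ, N₀ ≤ N →
      ‖∑ m ∈ Ioc 0 (N / max p q), ∑ n ∈ Ioc 0 N, ⟪v (p * m + n), v (q * m + n)⟫_ℂ‖ ≤
        δ' * N ^ 2 := by
    intro p q
    by_cases hp : 0 < p
    · by_cases hq : 0 < q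
      · rcases lt_trichotomy p q with h | h | h
        · obtain ⟨N₀, hN₀⟩ := offdiag hD hv hp h δ' hδ'0
          refine ⟨N₀, fun _ _ _ N hN => ?_⟩
          rw [max_eq_right h.le]
          exact hN₀ N hN
        · exact ⟨0, fun _ _ h' => absurd h h'⟩
        · obtain ⟨N₀, hN₀⟩ := offdiag hD hv hq h δ' hδ'0
          refine ⟨N₀, fun _ _ _ N hN => ?_⟩
          rw [max_eq_left h.le]
          have h1 := hN₀ N hN
          rw [← RCLike.norm_conj, map_sum] at h1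
          simp only [map_sum, inner_conj_symm] at h1
          exact h1
      · exact ⟨0, fun _ h' => absurd h' hq⟩
    · exact ⟨0, fun h' => absurd h' hp⟩
  choose N₀ hN₀ using hoff
  refine ⟨∑ p ∈ P, ∑ q ∈ P, N₀ p q, fun N hN => ?_⟩
  have hle : ∀ p ∈ P, ∀ q ∈ P, N₀ p q ≤ N := fun p hp q hq =>
    ((Finset.single_le_sum (f := fun q => N₀ p q) (fun _ _ => Nat.zero_le _) hq).trans
      (Finset.single_le_sum (f := fun p => ∑ q ∈ P, N₀ p q) (fun _ _ => Nat.zero_le _) hp)).trans hN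
  have h1 : ((∑ m ∈ Ioc 0 N, ∑ n ∈ Ioc 0 N,
      ‖∑ p ∈ P.filter (fun p => p * m ≤ N), v (p * m + n)‖ ^ 2 : ℝ) : ℂ) =
      ∑ p ∈ P, ∑ q ∈ P, ∑ m ∈ Ioc 0 (N / max p q), ∑ n ∈ Ioc 0 N,
        ⟪v (p * m + n), v (q * m + n)⟫_ℂ := by
    push_cast
    have h2 : ∀ m ∈ Ioc 0 N, ∀ n ∈ Ioc 0 N,
        ((‖∑ p ∈ P.filter (fun p => p * m ≤ N), v (p * m + n)‖ : ℂ) ^ 2) =
        ∑ p ∈ P, ∑ q ∈ P, if p * m ≤ N ∧ q * m ≤ N then ⟪v (p * m + n), v (q * m + n)⟫_ℂ else 0 := by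
      intro m _ n _
      refine (inner_self_eq_norm_sq_to_K (𝕜 := ℂ)
        (∑ p ∈ P.filter (fun p => p * m ≤ N), v (p * m + n))).symm.trans ?_
      rw [sum_inner, Finset.sum_filter]
      refine Finset.sum_congr rfl fun p _ => ?_
      by_cases h3 : p * m ≤ N
      · rw [if_pos h3, inner_sum, Finset.sum_filter]
        refine Finset.sum_congr rfl fun q _ => ?_
        by_cases h4 : q * m ≤ N
        · rw [if_pos h4, if_pos ⟨h3, h4⟩]
        · rw [if_neg h4, if_neg (fun h5 => h4 h5.2)]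
      · rw [if_neg h3]
        symm
        refine Finset.sum_eq_zero fun q _ => ?_
        rw [if_neg (fun h5 => h3 h5.1)]
    rw [Finset.sum_congr rfl fun m hm => Finset.sum_congr rfl fun n hn => h2 m hm n hn]
    simp_rw [Finset.sum_comm (s := Ioc 0 N) (t := P)]
    refine Finset.sum_congr rfl fun p hp => Finset.sum_congr rfl fun q hq => ?_
    have h3 : ∀ m ∈ Ioc 0 N, (∑ n ∈ Ioc 0 N,
        if p * m ≤ N ∧ q * m ≤ N then ⟪v (p * m + n), v (q * m + n)⟫_ℂ else 0) =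
        if p * m ≤ N ∧ q * m ≤ N then ∑ n ∈ Ioc 0 N, ⟪v (p * m + n), v (q * m + n)⟫_ℂ else 0 := by
      intro m _
      split_ifs
      · rfl
      · exact Finset.sum_const_zero
    rw [Finset.sum_congr rfl h3, ← Finset.sum_filter]
    refine Finset.sum_congr ?_ fun _ _ => rfl
    ext m
    have hmax : 0 < max p q := lt_max_of_lt_left (hP p hp)
    rw [mem_filter, mem_Ioc, mem_Ioc, Nat.le_div_iff_mul_le hmax, mul_comm m]
    constructor
    · rintro ⟨⟨h4, h5⟩, h6, h7⟩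
      refine ⟨h4, ?_⟩
      rcases max_choice p q with h8 | h8 <;> rw [h8] <;> assumption
    · rintro ⟨h4, h5⟩
      have h6 : p * m ≤ max p q * m := Nat.mul_le_mul_right m (le_max_left _ _)
      have h7 : q * m ≤ max p q * m := Nat.mul_le_mul_right m (le_max_right _ _)
      have h8 : 1 * m ≤ max p q * m := Nat.mul_le_mul_right m hmax
      exact ⟨⟨h4, by omega⟩, by omega, by omega⟩
  have h2 : ∀ p ∈ P, ∀ q ∈ P, ‖∑ m ∈ Ioc 0 (N / max p q), ∑ n ∈ Ioc 0 N,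
      ⟪v (p * m + n), v (q * m + n)⟫_ℂ‖ ≤ (if p = q then D ^ 2 * (1 / p) * N ^ 2 else 0) +
        δ' * N ^ 2 := by
    intro p hp q hq
    have h0 : 0 ≤ δ' * (N : ℝ) ^ 2 := by positivity
    split_ifs with hpq
    · subst hpq
      rw [max_self]
      have h3 : ∀ m ∈ Ioc 0 (N / p), ‖∑ n ∈ Ioc 0 N, ⟪v (p * m + n), v (p * m + n)⟫_ℂ‖ ≤
          N * D ^ 2 := by
        intro m hm
        have h4 : ∀ n ∈ Ioc 0 N, ‖⟪v (p * m + n), v (p * m + n)⟫_ℂ‖ ≤ D ^ 2 := by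
          intro n hn
          rw [mem_Ioc] at hn
          refine (norm_inner_le_norm _ _).trans ?_
          rw [sq]
          have h5 := hD (p * m + n) (by omega)
          exact mul_le_mul h5 h5 (norm_nonneg _) hD0
        refine (norm_sum_le _ _).trans ((Finset.sum_le_sum h4).trans ?_)
        rw [Finset.sum_const, Nat.card_Ioc, Nat.sub_zero, nsmul_eq_mul]
      have h5 : ‖∑ m ∈ Ioc 0 (N / p), ∑ n ∈ Ioc 0 N, ⟪v (p * m + n), v (p * m + n)⟫_ℂ‖ ≤
          (N / p) * (N * D ^ 2) := by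
        refine (norm_sum_le _ _).trans ((Finset.sum_le_sum h3).trans ?_)
        rw [Finset.sum_const, Nat.card_Ioc, Nat.sub_zero, nsmul_eq_mul]
        exact mul_le_mul_of_nonneg_right Nat.cast_div_le (by positivity)
      have h6 : (N / p : ℝ) * (N * D ^ 2) = D ^ 2 * (1 / p) * N ^ 2 := by ring
      linarith
    · rw [zero_add]
      exact hN₀ p q (hP p hp) (hP q hq) hpq N (hle p hp q hq)
  have h3 : ∑ m ∈ Ioc 0 N, ∑ n ∈ Ioc 0 N,
      ‖∑ p ∈ P.filter (fun p => p * m ≤ N), v (p * m + n)‖ ^ 2 =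
      ‖((∑ m ∈ Ioc 0 N, ∑ n ∈ Ioc 0 N,
      ‖∑ p ∈ P.filter (fun p => p * m ≤ N), v (p * m + n)‖ ^ 2 : ℝ) : ℂ)‖ := by
    rw [Complex.norm_real, Real.norm_of_nonneg]
    exact Finset.sum_nonneg fun _ _ => Finset.sum_nonneg fun _ _ => by positivity
  rw [h3, h1]
  refine (norm_sum_le _ _).trans ((Finset.sum_le_sum fun p hp => (norm_sum_le _ _).trans
    (Finset.sum_le_sum fun q hq => h2 p hp q hq)).trans ?_)
  simp_rw [Finset.sum_add_distrib]
  have h4 : ∑ p ∈ P, ∑ q ∈ P, (if p = q then D ^ 2 * (1 / (p : ℝ)) * (N : ℝ) ^ 2 else 0) =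
      D ^ 2 * (∑ p ∈ P, (1 : ℝ) / p) * N ^ 2 := by
    rw [Finset.mul_sum, Finset.sum_mul]
    refine Finset.sum_congr rfl fun p hp => ?_
    rw [Finset.sum_ite_eq, if_pos hp]
  rw [h4]
  simp only [Finset.sum_const, nsmul_eq_mul]
  have h5 := aux_card (P.card : ℝ) δ N hδ
  rw [← hδ'] at h5
  linarith

end Pool.Agent.K7.H83.MA
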